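import Pool.Agent.Lib_helper71.Normal.Minkowski

/-!
The linear maps `hQ n Q x`, which send the coefficient vector of a polynomial `P` of degree at
most `n` to `(Q ^ n * P x, coefficients / Q)`, and their minors along integer tuples.
-/

set_option autoImplicit false

namespace Pool.Agent.Lib_helper71.Normal

open Matrix Module Polynomial Set

/-- The value at `x` of the polynomial with a given coefficient vector. -/
noncomputable def evL (n : ℕ) (x : ℝ) : (Fin (n + 1) → ℝ) →ₗ[ℝ] ℝ :=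
  ∑ j : Fin (n + 1), (x ^ (j : ℕ)) • LinearMap.proj j

lemma evL_apply (n : ℕ) (x : ℝ) (v : Fin (n + 1) → ℝ) :
    evL n x v = ∑ j : Fin (n + 1), x ^ (j : ℕ) * v j := by
  unfold evL
  rw [LinearMap.sum_apply]
  rfl

/-- The map `P ↦ (Q ^ n * P x, coefficients / Q)`. -/
noncomputable def hQ (n : ℕ) (Q x : ℝ) : (Fin (n + 1) → ℝ) →ₗ[ℝ] (Fin (n + 2) → ℝ) :=
  LinearMap.pi (Fin.cons (Q ^ n • evL n x) (fun j => Q⁻¹ • LinearMap.proj j) :
    Fin (n + 2) → ((Fin (n + 1) → ℝ) →ₗ[ℝ] ℝ))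

lemma hQ_zero (n : ℕ) (Q x : ℝ) (v : Fin (n + 1) → ℝ) : hQ n Q x v 0 = Q ^ n * evL n x v := rfl

lemma hQ_succ (n : ℕ) (Q x : ℝ) (v : Fin (n + 1) → ℝ) (j : Fin (n + 1)) :
    hQ n Q x v j.succ = Q⁻¹ * v j := rfl

lemma norm_hQ (n : ℕ) (Q x : ℝ) (hQ0 : 0 < Q) (v : Fin (n + 1) → ℝ) :
    ‖hQ n Q x v‖ = max (Q ^ n * |evL n x v|) (Q⁻¹ * ‖v‖) := by
  apply le_antisymm
  · rw [pi_norm_le_iff_of_nonneg (le_max_of_le_left (by positivity))]
    intro s
    refine Fin.cases ?_ (fun j => ?_) s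
    · rw [hQ_zero, Real.norm_eq_abs, abs_mul, abs_of_pos (by positivity : 0 < Q ^ n)]
      exact le_max_left _ _
    · rw [hQ_succ, norm_mul, Real.norm_eq_abs, abs_of_pos (by positivity : 0 < Q⁻¹)]
      refine le_max_of_le_right ?_
      exact mul_le_mul_of_nonneg_left (norm_le_pi_norm v j) (by positivity)
  · apply max_le
    · have := norm_le_pi_norm (hQ n Q x v) 0
      rwa [hQ_zero, Real.norm_eq_abs, abs_mul, abs_of_pos (by positivity : 0 < Q ^ n)] at this
    · rw [← le_div_iff₀' (by positivity : 0 < Q⁻¹), pi_norm_le_iff_of_nonneg (by positivity)]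
      intro j
      rw [le_div_iff₀' (by positivity : 0 < Q⁻¹)]
      have := norm_le_pi_norm (hQ n Q x v) j.succ
      rwa [hQ_succ, norm_mul, Real.norm_eq_abs, abs_of_pos (by positivity : 0 < Q⁻¹)] at this

/-- `Dlb n c θ t x`: every nonzero integer polynomial of degree at most `n` has size at least
`c * 2 ^ (- θ t)` in the norm of `hQ n (2 ^ t) x`. -/
def Dlb (n : ℕ) (c θ : ℝ) (t : ℕ) (x : ℝ) : Prop :=
  ∀ v : Fin (n + 1) → ℤ, v ≠ 0 → c * (2 : ℝ) ^ (-(θ * t)) ≤ ‖hQ n (2 ^ t) x (cR v)‖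

/-- The scaling factors of the coordinates. -/
noncomputable def qf (n : ℕ) (Q : ℝ) : Fin (n + 2) → ℝ := Fin.cons (Q ^ n) (fun _ => Q⁻¹)

lemma hQ_eq (n : ℕ) (Q x : ℝ) (v : Fin (n + 1) → ℝ) (s : Fin (n + 2)) :
    hQ n Q x v s = qf n Q s * hQ n 1 x v s := by
  refine Fin.cases ?_ (fun j => ?_) s
  · rw [hQ_zero, hQ_zero, one_pow, one_mul]; rfl
  · rw [hQ_succ, hQ_succ, inv_one, one_mul]; rfl

lemma minor_hQ {k n : ℕ} (Q x : ℝ) (w : Fin k → Fin (n + 1) → ℝ) (S : Fin k → Fin (n + 2)) :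
    minor (fun i => hQ n Q x (w i)) S =
      (∏ j, qf n Q (S j)) * minor (fun i => hQ n 1 x (w i)) S := by
  unfold minor
  have := Matrix.det_mul_row (fun j => qf n Q (S j))
    (Matrix.of (fun i j => hQ n 1 x (w i) (S j)))
  rw [← this]
  congr 1
  ext i j
  exact hQ_eq n Q x (w i) (S j)

/-- The polynomials that occur in the minors of `hQ`. -/
noncomputable def gp {k n : ℕ} (b : Fin k → Fin (n + 1) → ℤ) (S : Fin k → Fin (n + 1))
    (j0 : Fin k) : ℝ[X] :=
  ∑ l : Fin (n + 1), C ((minor b (Function.update S j0 l) : ℤ) : ℝ) * X ^ (l : ℕ)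

lemma gp_natDegree {k n : ℕ} (b : Fin k → Fin (n + 1) → ℤ) (S : Fin k → Fin (n + 1))
    (j0 : Fin k) : (gp b S j0).natDegree ≤ n := by
  unfold gp
  apply Polynomial.natDegree_sum_le_of_forall_le
  intro l _
  refine (Polynomial.natDegree_C_mul_X_pow_le _ _).trans ?_
  omega

lemma gp_coeff {k n : ℕ} (b : Fin k → Fin (n + 1) → ℤ) (S : Fin k → Fin (n + 1))
    (j0 : Fin k) (l : Fin (n + 1)) :
    (gp b S j0).coeff l = ((minor b (Function.update S j0 l) : ℤ) : ℝ) := by
  unfold gp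
  rw [Polynomial.finsetSum_coeff, Finset.sum_eq_single l]
  · rw [coeff_C_mul, coeff_X_pow, if_pos rfl, mul_one]
  · intro l' _ hl'
    rw [coeff_C_mul, coeff_X_pow, if_neg, mul_zero]
    intro h
    exact hl' (Fin.ext h.symm)
  · simp

lemma gp_coeff_le {k n : ℕ} (b : Fin k → Fin (n + 1) → ℤ) (S : Fin k → Fin (n + 1))
    (j0 : Fin k) (l : ℕ) : |(gp b S j0).coeff l| ≤ intNu b := by
  by_cases hl : l < n + 1
  · have := gp_coeff b S j0 ⟨l, hl⟩
    simp only at this
    rw [this]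
    have h1 := le_intNu b (Function.update S j0 ⟨l, hl⟩)
    have h2 : (((minor b (Function.update S j0 ⟨l, hl⟩)).natAbs : ℕ) : ℝ) ≤ (intNu b : ℝ) := by
      exact_mod_cast h1
    rwa [Nat.cast_natAbs, Int.cast_abs] at h2
  · rw [Polynomial.coeff_eq_zero_of_natDegree_lt
      (lt_of_le_of_lt (gp_natDegree b S j0) (by omega)), abs_zero]
    positivity

lemma gp_eval {k n : ℕ} (b : Fin k → Fin (n + 1) → ℤ) (S : Fin k → Fin (n + 1))
    (j0 : Fin k) (x : ℝ) : (gp b S j0).eval x =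
      ∑ l : Fin (n + 1), ((minor b (Function.update S j0 l) : ℤ) : ℝ) * x ^ (l : ℕ) := by
  unfold gp
  rw [Polynomial.eval_finsetSum]
  simp

lemma minor_one_succ {k n : ℕ} (b : Fin k → Fin (n + 1) → ℤ) (S : Fin k → Fin (n + 1)) (x : ℝ) :
    minor (fun i => hQ n 1 x (cR (b i))) (fun j => (S j).succ) = ((minor b S : ℤ) : ℝ) := by
  rw [minor_castR]
  unfold minor
  congr 1
  ext i j
  simp [hQ_succ]

lemma minor_one_update {k n : ℕ} (b : Fin k → Fin (n + 1) → ℤ) (S : Fin k → Fin (n + 1))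
    (j0 : Fin k) (x : ℝ) :
    minor (fun i => hQ n 1 x (cR (b i))) (Function.update (fun j => (S j).succ) j0 0) =
      (gp b S j0).eval x := by
  classical
  rw [gp_eval]
  let A : Matrix (Fin k) (Fin k) ℝ := Matrix.of (fun i j => cR (b i) (S j))
  have h1 : Matrix.of (fun i j => hQ n 1 x (cR (b i))
      ((Function.update (fun j => (S j).succ) j0 (0 : Fin (n + 2))) j)) =
      A.updateCol j0 (∑ l : Fin (n + 1), x ^ (l : ℕ) • (fun i => cR (b i) l)) := by
    ext i j
    by_cases hj : j = j0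
    · subst hj
      rw [Matrix.updateCol_self, Matrix.of_apply, Function.update_self, hQ_zero, one_pow, one_mul,
        evL_apply, Finset.sum_apply]
      rfl
    · rw [Matrix.updateCol_ne hj, Matrix.of_apply, Function.update_of_ne hj, hQ_succ, inv_one,
        one_mul]
      rfl
  unfold minor
  rw [h1, ← Matrix.cramer_apply, map_sum, Finset.sum_apply]
  apply Finset.sum_congr rfl
  intro l _
  rw [map_smul, Pi.smul_apply, smul_eq_mul, mul_comm, Matrix.cramer_apply]
  congr 1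
  rw [show (Matrix.of fun i j => b i (Function.update S j0 l j)).det =
    minor b (Function.update S j0 l) from rfl, minor_castR]
  unfold minor
  congr 1
  ext i j
  by_cases hj : j = j0
  · subst hj
    simp
  · rw [Matrix.updateCol_ne hj, Matrix.of_apply, Function.update_of_ne hj]
    rfl

lemma minor_two_zero {k n : ℕ} (w : Fin k → Fin (n + 2) → ℝ) (S : Fin k → Fin (n + 2))
    (i j : Fin k) (hij : i ≠ j) (hi : S i = 0) (hj : S j = 0) : minor w S = 0 := by
  unfold minor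
  apply Matrix.det_zero_of_column_eq hij
  intro l
  simp [hi, hj]

lemma select_cases {k n : ℕ} (S : Fin k → Fin (n + 2)) :
    (∃ S' : Fin k → Fin (n + 1), S = fun j => (S' j).succ) ∨
    (∃ (S' : Fin k → Fin (n + 1)) (j0 : Fin k), S = Function.update (fun j => (S' j).succ) j0 0) ∨
    (∃ i j, i ≠ j ∧ S i = 0 ∧ S j = 0) := by
  classical
  by_cases h0 : ∃ j0, S j0 = 0
  · obtain ⟨j0, hj0⟩ := h0
    by_cases h1 : ∃ j, j ≠ j0 ∧ S j = 0
    · obtain ⟨j, hj, hj'⟩ := h1
      exact Or.inr (Or.inr ⟨j, j0, hj, hj', hj0⟩)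
    · push Not at h1
      right; left
      refine ⟨fun j => if h : S j = 0 then 0 else (S j).pred h, j0, ?_⟩
      funext j
      by_cases hj : j = j0
      · subst hj
        rw [Function.update_self, hj0]
      · rw [Function.update_of_ne hj]
        simp only [dif_neg (h1 j hj), Fin.succ_pred]
  · push Not at h0
    left
    refine ⟨fun j => (S j).pred (h0 j), ?_⟩
    funext j
    rw [Fin.succ_pred]

lemma polyMinors_hQ (n : ℕ) (Q : ℝ) : PolyMinors n (hQ n Q) := by
  intro k b S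
  have h1 : ∃ p : ℝ[X], p.natDegree ≤ n ∧
      ∀ x, minor (fun i => hQ n 1 x (cR (b i))) S = p.eval x := by
    rcases select_cases S with ⟨S', rfl⟩ | ⟨S', j0, rfl⟩ | ⟨i, j, hij, hi, hj⟩
    · refine ⟨C ((minor b S' : ℤ) : ℝ), by simp, ?_⟩
      intro x
      rw [minor_one_succ, eval_C]
    · exact ⟨gp b S' j0, gp_natDegree b S' j0, fun x => minor_one_update b S' j0 x⟩
    · refine ⟨0, by simp, ?_⟩
      intro x
      rw [minor_two_zero _ S i j hij hi hj, eval_zero]
  obtain ⟨p, hp1, hp2⟩ := h1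
  refine ⟨C (∏ j, qf n Q (S j)) * p, (natDegree_C_mul_le _ _).trans hp1, ?_⟩
  intro x
  rw [minor_hQ, hp2 x, eval_mul, eval_C]

/-- The size of the tuple in the first coordinate. -/
noncomputable def FF {k n : ℕ} (b : Fin k → Fin (n + 1) → ℤ) (x : ℝ) : ℝ :=
  ‖(fun p : (Fin k → Fin (n + 1)) × Fin k => (gp b p.1 p.2).eval x)‖

lemma abs_gp_le_FF {k n : ℕ} (b : Fin k → Fin (n + 1) → ℤ) (S : Fin k → Fin (n + 1))
    (j0 : Fin k) (x : ℝ) : |(gp b S j0).eval x| ≤ FF b x := by
  have := norm_le_pi_norm (fun p : (Fin k → Fin (n + 1)) × Fin k => (gp b p.1 p.2).eval x) (S, j0)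
  rwa [Real.norm_eq_abs] at this

lemma FF_nonneg {k n : ℕ} (b : Fin k → Fin (n + 1) → ℤ) (x : ℝ) : 0 ≤ FF b x := norm_nonneg _

lemma exists_FF {k n : ℕ} (hk : 0 < k) (b : Fin k → Fin (n + 1) → ℤ) (x : ℝ) :
    ∃ S j0, |(gp b S j0).eval x| = FF b x := by
  have : Nonempty (Fin k) := ⟨⟨0, hk⟩⟩
  obtain ⟨p, hp⟩ := Finite.exists_max
    (fun p : (Fin k → Fin (n + 1)) × Fin k => |(gp b p.1 p.2).eval x|)
  refine ⟨p.1, p.2, le_antisymm (abs_gp_le_FF b _ _ x) ?_⟩
  unfold FF
  rw [pi_norm_le_iff_of_nonneg (abs_nonneg _)]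
  intro q
  rw [Real.norm_eq_abs]
  exact hp q

lemma prod_qf_succ {k n : ℕ} (Q : ℝ) (S : Fin k → Fin (n + 1)) :
    ∏ j, qf n Q ((fun j => (S j).succ) j) = (Q⁻¹) ^ k := by
  have : ∀ j ∈ (Finset.univ : Finset (Fin k)), qf n Q ((fun j => (S j).succ) j) = Q⁻¹ :=
    fun j _ => rfl
  rw [Finset.prod_congr rfl this, Finset.prod_const, Finset.card_univ, Fintype.card_fin]

lemma prod_qf_update {k n : ℕ} (Q : ℝ) (hQ0 : 0 < Q) (S : Fin k → Fin (n + 1)) (j0 : Fin k) :
    ∏ j, qf n Q (Function.update (fun j => (S j).succ) j0 0 j) = (Q⁻¹) ^ k * Q ^ (n + 1) := by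
  classical
  rw [← Finset.mul_prod_erase Finset.univ _ (Finset.mem_univ j0)]
  have h1 : ∀ j ∈ (Finset.univ.erase j0 : Finset (Fin k)),
      qf n Q (Function.update (fun j => (S j).succ) j0 0 j) = Q⁻¹ := by
    intro j hj
    rw [Function.update_of_ne (Finset.ne_of_mem_erase hj)]
    rfl
  rw [Finset.prod_congr rfl h1, Finset.prod_const, Function.update_self,
    Finset.card_erase_of_mem (Finset.mem_univ _), Finset.card_univ, Fintype.card_fin]
  have hk : 0 < k := lt_of_le_of_lt (Nat.zero_le _) j0.2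
  obtain ⟨k', rfl⟩ : ∃ k', k = k' + 1 := ⟨k - 1, by omega⟩
  show Q ^ n * Q⁻¹ ^ k' = Q⁻¹ ^ (k' + 1) * Q ^ (n + 1)
  rw [pow_succ, pow_succ]
  field_simp

theorem nu_hQ {k n : ℕ} (hk : 0 < k) (b : Fin k → Fin (n + 1) → ℤ) (Q : ℝ) (hQ0 : 0 < Q) (x : ℝ) :
    nu (fun i => hQ n Q x (cR (b i))) =
      (Q⁻¹) ^ k * max (intNu b : ℝ) (Q ^ (n + 1) * FF b x) := by
  apply le_antisymm
  · apply nu_le
    · exact mul_nonneg (by positivity) (le_max_of_le_left (by positivity))
    · intro S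
      rw [minor_hQ]
      rcases select_cases S with ⟨S', rfl⟩ | ⟨S', j0, rfl⟩ | ⟨i, j, hij, hi, hj⟩
      · rw [minor_one_succ, prod_qf_succ, abs_mul, abs_of_pos (by positivity)]
        apply mul_le_mul_of_nonneg_left _ (by positivity)
        refine le_max_of_le_left ?_
        have h1 := le_intNu b S'
        have h2 : (((minor b S').natAbs : ℕ) : ℝ) ≤ (intNu b : ℝ) := by exact_mod_cast h1
        rwa [Nat.cast_natAbs, Int.cast_abs] at h2
      · rw [minor_one_update, prod_qf_update Q hQ0, abs_mul, abs_of_pos (by positivity), mul_assoc]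
        apply mul_le_mul_of_nonneg_left _ (by positivity)
        refine le_max_of_le_right ?_
        exact mul_le_mul_of_nonneg_left (abs_gp_le_FF b S' j0 x) (by positivity)
      · rw [minor_two_zero _ S i j hij hi hj, mul_zero, abs_zero]
        exact mul_nonneg (by positivity) (le_max_of_le_left (by positivity))
  · rw [mul_max_of_nonneg _ _ (by positivity : (0 : ℝ) ≤ Q⁻¹ ^ k)]
    apply max_le
    · -- the integer minors
      obtain ⟨S, _, hS⟩ := Finset.exists_mem_eq_sup (Finset.univ : Finset (Fin k → Fin (n + 1)))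
        Finset.univ_nonempty (fun S => (minor b S).natAbs)
      have h1 := abs_minor_le (fun i => hQ n Q x (cR (b i))) (fun j => (S j).succ)
      rw [minor_hQ, minor_one_succ, prod_qf_succ, abs_mul, abs_of_pos (by positivity)] at h1
      have h2 : (intNu b : ℝ) = |((minor b S : ℤ) : ℝ)| := by
        rw [← Int.cast_abs, ← Nat.cast_natAbs]
        congr 1
      rw [h2]
      exact h1
    · obtain ⟨S, j0, hS⟩ := exists_FF hk b x
      have h1 := abs_minor_le (fun i => hQ n Q x (cR (b i)))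
        (Function.update (fun j => (S j).succ) j0 0)
      rw [minor_hQ, minor_one_update, prod_qf_update Q hQ0, abs_mul, abs_of_pos (by positivity),
        hS, mul_assoc] at h1
      exact h1

end Pool.Agent.Lib_helper71.Normal
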