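import Pool.Agent.Lib_helper71.Normal.Construct

/-!
Algebraic numbers close to a point with good lower bounds.
-/

set_option autoImplicit false

namespace Pool.Agent.Lib_helper71.Normal

open Matrix Module Polynomial Set

/-- The matrix of the Taylor coefficients at `x`. -/
noncomputable def tU (n : ℕ) (x : ℝ) : Matrix (Fin (n + 1)) (Fin (n + 1)) ℝ :=
  Matrix.of fun j i => x ^ ((i : ℕ) - (j : ℕ)) * ((Nat.choose i j : ℕ) : ℝ)

lemma det_tU (n : ℕ) (x : ℝ) : (tU n x).det = 1 := by
  rw [Matrix.det_of_isUpperTriangular]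
  · apply Finset.prod_eq_one
    intro i _
    simp [tU]
  · intro i j hij
    simp only [tU, Matrix.of_apply, id] at hij ⊢
    rw [Nat.choose_eq_zero_of_lt hij]
    simp

/-- The integer polynomial with a given coefficient vector. -/
noncomputable def pz {n : ℕ} (z : Fin (n + 1) → ℤ) : ℤ[X] := ∑ i : Fin (n + 1), C (z i) * X ^ (i : ℕ)

lemma pz_coeff {n : ℕ} (z : Fin (n + 1) → ℤ) (i : Fin (n + 1)) : (pz z).coeff i = z i := by
  unfold pz
  rw [Polynomial.finsetSum_coeff, Finset.sum_eq_single i]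
  · rw [coeff_C_mul, coeff_X_pow, if_pos rfl, mul_one]
  · intro l _ hl
    rw [coeff_C_mul, coeff_X_pow, if_neg, mul_zero]
    intro h
    exact hl (Fin.ext h.symm)
  · simp

lemma pz_natDegree {n : ℕ} (z : Fin (n + 1) → ℤ) : (pz z).natDegree ≤ n := by
  unfold pz
  apply Polynomial.natDegree_sum_le_of_forall_le
  intro l _
  refine (Polynomial.natDegree_C_mul_X_pow_le _ _).trans ?_
  omega

lemma pz_ne_zero {n : ℕ} (z : Fin (n + 1) → ℤ) (hz : z ≠ 0) : pz z ≠ 0 := by
  intro h
  apply hz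
  funext i
  rw [← pz_coeff z i, h]
  simp

lemma height_pz_le {n : ℕ} (z : Fin (n + 1) → ℤ) (B : ℝ) (hB : 0 ≤ B)
    (h : ∀ i, |(z i : ℝ)| ≤ B) : (height (pz z) : ℝ) ≤ B := by
  have h1 : height (pz z) ≤ ⌊B⌋₊ := by
    unfold height
    apply Finset.sup_le
    intro i _
    apply Nat.le_floor
    by_cases hi : i < n + 1
    · have h2 := pz_coeff z ⟨i, hi⟩
      simp only at h2
      rw [h2, Nat.cast_natAbs, Int.cast_abs]
      exact h _
    · rw [Polynomial.coeff_eq_zero_of_natDegree_lt (lt_of_le_of_lt (pz_natDegree z) (by omega))]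
      simpa using hB
  exact (Nat.le_floor_iff hB).mp h1

lemma taylor_coeff_pz {n : ℕ} (z : Fin (n + 1) → ℤ) (x : ℝ) (j : Fin (n + 1)) :
    (taylor x ((pz z).map (Int.castRingHom ℝ))).coeff j = ∑ i, tU n x j i * (z i : ℝ) := by
  have hdeg : ((pz z).map (Int.castRingHom ℝ)).natDegree ≤ n :=
    (Polynomial.natDegree_map_le).trans (pz_natDegree z)
  rw [taylor_apply, Polynomial.comp, Polynomial.eval₂_eq_sum_range' _ (Nat.lt_succ_of_le hdeg),
    Polynomial.finsetSum_coeff, Finset.sum_range]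
  apply Finset.sum_congr rfl
  intro i _
  rw [coeff_C_mul, coeff_X_add_C_pow, coeff_map, pz_coeff]
  simp only [tU, Matrix.of_apply, eq_intCast]
  ring

theorem approximant (n : ℕ) (hn : 1 ≤ n) : ApproxProp n := by
  classical
  set K : ℝ := (n + 1) * 4 ^ n with hK
  have hK1 : 1 ≤ K := by
    have h1 : (1 : ℝ) ≤ 4 ^ n := one_le_pow₀ (by norm_num)
    have h2 : (0 : ℝ) ≤ n := Nat.cast_nonneg n
    rw [hK]
    nlinarith
  have hK0 : 0 < K := by linarith
  set c : ℝ := 1 / (2 * K * (n + 1)) with hc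
  have hc0 : 0 < c := by positivity
  have hcK : K * c * (n + 1) = 1 / 2 := by rw [hc]; field_simp
  have hn0 : (0 : ℝ) ≤ n := Nat.cast_nonneg n
  have hcK1 : K * c ≤ 1 / 2 := by
    have : 0 < K * c := by positivity
    nlinarith
  have hc1 : c < 1 := by nlinarith
  refine ⟨K * 2 * (c⁻¹) ^ n, by positivity, ?_⟩
  intro η hη t x hx hD
  set Q : ℝ := 2 ^ t with hQdef
  have hQ1 : 1 ≤ Q := one_le_pow₀ (by norm_num)
  have hQ0 : 0 < Q := by linarith
  have hQη : (2 : ℝ) ^ (-(η * t)) = Q ^ (-η) := by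
    rw [hQdef, ← Real.rpow_natCast 2 t, ← Real.rpow_mul (by norm_num)]
    congr 1; ring
  set δ : ℝ := Q ^ (-η) with hδ
  have hδ0 : 0 < δ := Real.rpow_pos_of_pos hQ0 _
  set κ : ℝ := c * δ with hκ
  have hκ0 : 0 < κ := by positivity
  -- the linear forms
  let q : Fin (n + 1) → ℝ := Fin.cons (Q ^ n) (fun _ => Q⁻¹)
  let A : Matrix (Fin (n + 1)) (Fin (n + 1)) ℝ := Matrix.of fun j i => q j * tU n x j i
  have hdet : A.det = 1 := by
    have h1 : A.det = (∏ j, q j) * (tU n x).det := Matrix.det_mul_column q (tU n x)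
    rw [h1, det_tU, mul_one, Fin.prod_univ_succ]
    simp only [q, Fin.cons_zero, Fin.cons_succ, Finset.prod_const, Finset.card_univ,
      Fintype.card_fin]
    rw [← mul_pow, mul_inv_cancel₀ hQ0.ne', one_pow]
  set i1 : Fin (n + 1) := ⟨1, by omega⟩ with hi1
  let cc : Fin (n + 1) → ℝ := fun j => if j = i1 then 2 * (κ⁻¹) ^ n else κ
  have hcc : ∀ j, 0 < cc j := by
    intro j
    simp only [cc]
    split_ifs <;> positivity
  have hprod : ∏ j, cc j = 2 := by
    rw [← Finset.mul_prod_erase Finset.univ _ (Finset.mem_univ i1)]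
    have h1 : ∀ j ∈ Finset.univ.erase i1, cc j = κ := by
      intro j hj
      simp only [cc]
      rw [if_neg (Finset.ne_of_mem_erase hj)]
    rw [Finset.prod_congr rfl h1, Finset.prod_const, Finset.card_erase_of_mem (Finset.mem_univ _),
      Finset.card_univ, Fintype.card_fin]
    simp only [cc, if_true, Nat.add_sub_cancel]
    rw [mul_assoc, ← mul_pow, inv_mul_cancel₀ hκ0.ne', one_pow, mul_one]
  obtain ⟨z, hz, hz1⟩ := minkowski_forms A (by rw [hdet]; norm_num) cc hcc (by
    rw [hdet, hprod]; norm_num)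
  set f : ℝ[X] := (pz z).map (Int.castRingHom ℝ) with hf
  have hfdeg : f.natDegree ≤ n := (Polynomial.natDegree_map_le).trans (pz_natDegree z)
  let T : ℕ → ℝ := fun j => (taylor x f).coeff j
  have hform : ∀ j : Fin (n + 1), |q j * T j| < cc j := by
    intro j
    have h1 := hz1 j
    have h2 : ∑ i, A j i * (z i : ℝ) = q j * T j := by
      show _ = q j * (taylor x f).coeff j
      rw [taylor_coeff_pz, Finset.mul_sum]
      apply Finset.sum_congr rfl
      intro i _
      show q j * tU n x j i * (z i : ℝ) = _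
      ring
    rwa [h2] at h1
  have hT0 : Q ^ n * |T 0| < κ := by
    have h1 := hform 0
    have h2 : cc 0 = κ := by
      simp only [cc]
      rw [if_neg]
      intro h
      have := congrArg Fin.val h
      simp [hi1] at this
    rw [h2, abs_mul] at h1
    have h3 : |q 0| = Q ^ n := abs_of_pos (by positivity : 0 < Q ^ n)
    rwa [h3] at h1
  have hTj : ∀ j : ℕ, 1 < j → j < n + 1 → |T j| < Q * κ := by
    intro j hj1 hjn
    have h1 := hform ⟨j, hjn⟩
    have h2 : cc ⟨j, hjn⟩ = κ := by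
      simp only [cc]
      rw [if_neg]
      intro h
      have := congrArg Fin.val h
      simp [hi1] at this
      omega
    have h3 : q ⟨j, hjn⟩ = Q⁻¹ := by
      obtain ⟨j', rfl⟩ : ∃ j', j = j' + 1 := ⟨j - 1, by omega⟩
      rfl
    rw [h2, h3, abs_mul, abs_of_pos (by positivity : 0 < Q⁻¹)] at h1
    have h4 := mul_lt_mul_of_pos_left h1 hQ0
    rwa [← mul_assoc, mul_inv_cancel₀ hQ0.ne', one_mul] at h4
  have hT1 : |T 1| < Q * (2 * (κ⁻¹) ^ n) := by
    have h1 := hform i1
    have h2 : cc i1 = 2 * (κ⁻¹) ^ n := by simp only [cc, if_true]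
    have h3 : q i1 = Q⁻¹ := rfl
    rw [h2, h3, abs_mul, abs_of_pos (by positivity : 0 < Q⁻¹)] at h1
    have h4 := mul_lt_mul_of_pos_left h1 hQ0
    rwa [← mul_assoc, mul_inv_cancel₀ hQ0.ne', one_mul] at h4
  have hTlarge : ∀ j : ℕ, n < j → T j = 0 := by
    intro j hj
    show (taylor x f).coeff j = 0
    exact Polynomial.coeff_eq_zero_of_natDegree_lt (by rw [natDegree_taylor]; omega)
  have hQnκ : |T 0| < κ := by
    have h1 : (1 : ℝ) ≤ Q ^ n := one_le_pow₀ hQ1
    have h2 : |T 0| ≤ Q ^ n * |T 0| := by nlinarith [abs_nonneg (T 0)]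
    linarith
  have hQκ : κ ≤ Q * κ := by nlinarith
  -- all Taylor coefficients
  have hTall : ∀ j : ℕ, |T j| ≤ max |T 1| (Q * κ) := by
    intro j
    rcases Nat.lt_trichotomy j 1 with h | h | h
    · have : j = 0 := by omega
      rw [this]
      exact le_max_of_le_right (by linarith)
    · rw [h]
      exact le_max_left _ _
    · by_cases hjn : j < n + 1
      · exact le_max_of_le_right (hTj j h hjn).le
      · rw [hTlarge j (by omega), abs_zero]
        exact le_max_of_le_right (by positivity)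
  have hzle : ∀ i : Fin (n + 1), |(z i : ℝ)| ≤ K * max |T 1| (Q * κ) := by
    intro i
    have h1 := taylor_coeff_bound n (taylor x f) (by rw [natDegree_taylor]; exact hfdeg)
      (max |T 1| (Q * κ)) hTall (-x) (by rw [abs_neg]; linarith) i
    rw [taylor_taylor, neg_add_cancel, taylor_zero, hf, coeff_map, pz_coeff] at h1
    simpa using h1
  have hznorm : ‖cR z‖ ≤ K * max |T 1| (Q * κ) := by
    rw [pi_norm_le_iff_of_nonneg (by positivity)]
    intro i
    rw [Real.norm_eq_abs]
    exact hzle i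
  have hev : evL n x (cR z) = T 0 := by
    show _ = (taylor x f).coeff 0
    have h1 := taylor_coeff_pz z x 0
    rw [← hf] at h1
    have h0 : ((0 : Fin (n + 1)) : ℕ) = 0 := rfl
    rw [h0] at h1
    rw [h1, evL_apply]
    apply Finset.sum_congr rfl
    intro i _
    simp [tU, cR]
  -- the derivative is large
  have hDz := hD z hz
  rw [hQη, one_mul, norm_hQ n Q x hQ0, hev] at hDz
  have hδQ : Q * δ ≤ ‖cR z‖ := by
    rcases le_max_iff.mp hDz with h1 | h1
    · exfalso
      have h2 : κ < δ := by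
        rw [hκ]
        nlinarith
      linarith
    · have h2 := mul_le_mul_of_nonneg_left h1 hQ0.le
      rwa [← mul_assoc, mul_inv_cancel₀ hQ0.ne', one_mul] at h2
  have hT1low : Q * δ ≤ K * |T 1| := by
    have h1 := hδQ.trans hznorm
    rcases le_total |T 1| (Q * κ) with h2 | h2
    · exfalso
      rw [max_eq_right h2] at h1
      have h3 : K * (Q * κ) = (K * c) * (Q * δ) := by rw [hκ]; ring
      rw [h3] at h1
      have h4 : 0 < Q * δ := by positivity
      nlinarith
    · rwa [max_eq_left h2] at h1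
  have hT1κ : Q * κ ≤ |T 1| := by
    have h3 : Q * κ = c * (Q * δ) := by rw [hκ]; ring
    rw [h3]
    calc c * (Q * δ) ≤ c * (K * |T 1|) := mul_le_mul_of_nonneg_left hT1low hc0.le
      _ = (K * c) * |T 1| := by ring
      _ ≤ |T 1| := by nlinarith [abs_nonneg (T 1)]
  have hmax : max |T 1| (Q * κ) = |T 1| := max_eq_left hT1κ
  rw [hmax] at hzle
  -- the height
  have hheight : (height (pz z) : ℝ) ≤ K * 2 * (c⁻¹) ^ n * Q ^ (1 + n * η) := by
    have h1 : (height (pz z) : ℝ) ≤ K * |T 1| := height_pz_le z _ (by positivity) hzle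
    have h2 : (κ⁻¹) ^ n = (c⁻¹) ^ n * Q ^ (n * η) := by
      rw [hκ, mul_inv, mul_pow]
      congr 1
      rw [hδ, Real.rpow_neg hQ0.le, inv_inv, ← Real.rpow_natCast, ← Real.rpow_mul hQ0.le]
      congr 1
      ring
    calc (height (pz z) : ℝ) ≤ K * |T 1| := h1
      _ ≤ K * (Q * (2 * (κ⁻¹) ^ n)) := mul_le_mul_of_nonneg_left hT1.le hK0.le
      _ = K * 2 * (c⁻¹) ^ n * (Q ^ (1 : ℝ) * Q ^ (n * η)) := by
          rw [h2, Real.rpow_one]; ring
      _ = _ := by rw [← Real.rpow_add hQ0]
  -- the root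
  set z0 : ℝ := (Q ^ (n + 1))⁻¹ with hz0
  have hz00 : 0 < z0 := by positivity
  have hz01 : z0 ≤ 1 := by
    rw [hz0]
    exact inv_le_one_of_one_le₀ (one_le_pow₀ hQ1)
  have hexp : ∀ y : ℝ, |y| ≤ z0 → |f.eval (x + y) - T 1 * y| < K⁻¹ * (Q * δ) * z0 := by
    intro y hy
    have h1 : f.eval (x + y) = ∑ j ∈ Finset.range (n + 1), T j * y ^ j := by
      have h2 : f.eval (x + y) = (taylor x f).eval y := by
        rw [taylor_eval, add_comm]
      rw [h2, Polynomial.eval_eq_sum_range' (n := n + 1) (by rw [natDegree_taylor]; omega)]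
    have h2 : f.eval (x + y) - T 1 * y =
        ∑ j ∈ (Finset.range (n + 1)).erase 1, T j * y ^ j := by
      rw [h1, ← Finset.add_sum_erase _ _ (Finset.mem_range.mpr (by omega : 1 < n + 1)), pow_one]
      ring
    rw [h2]
    have h3 : ∀ j ∈ (Finset.range (n + 1)).erase 1, |T j * y ^ j| ≤ κ * (Q * z0) := by
      intro j hj
      have hj1 := Finset.ne_of_mem_erase hj
      have hj2 := Finset.mem_range.mp (Finset.mem_of_mem_erase hj)
      rcases Nat.eq_zero_or_pos j with h | h
      · rw [h, pow_zero, mul_one]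
        have h4 : |T 0| = (Q ^ n * |T 0|) * (Q * z0) := by
          rw [hz0]
          field_simp
          ring
        rw [h4]
        exact mul_le_mul_of_nonneg_right hT0.le (by positivity)
      · rw [abs_mul, abs_pow]
        have h4 : |y| ^ j ≤ z0 := by
          calc |y| ^ j ≤ z0 ^ j := pow_le_pow_left₀ (abs_nonneg _) hy j
            _ ≤ z0 ^ 1 := pow_le_pow_of_le_one hz00.le hz01 h
            _ = z0 := pow_one _
        calc |T j| * |y| ^ j ≤ (Q * κ) * z0 :=
              mul_le_mul (hTj j (by omega) hj2).le h4 (by positivity) (by positivity)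
          _ = κ * (Q * z0) := by ring
    calc |∑ j ∈ (Finset.range (n + 1)).erase 1, T j * y ^ j|
        ≤ ∑ j ∈ (Finset.range (n + 1)).erase 1, |T j * y ^ j| := Finset.abs_sum_le_sum_abs _ _
      _ ≤ ∑ _j ∈ (Finset.range (n + 1)).erase 1, κ * (Q * z0) := Finset.sum_le_sum h3
      _ = n * (κ * (Q * z0)) := by
          rw [Finset.sum_const, Finset.card_erase_of_mem (Finset.mem_range.mpr (by omega)),
            Finset.card_range, nsmul_eq_mul]
          congr 1
      _ < K⁻¹ * (Q * δ) * z0 := by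
          have h4 : (n : ℝ) * (κ * (Q * z0)) = (n * c) * (Q * δ * z0) := by rw [hκ]; ring
          have h5 : K⁻¹ * (Q * δ) * z0 = K⁻¹ * (Q * δ * z0) := by ring
          rw [h4, h5]
          apply mul_lt_mul_of_pos_right _ (by positivity)
          rw [← one_div, lt_div_iff₀ hK0]
          have h7 : (n : ℝ) * c * K ≤ K * c * (n + 1) := by nlinarith [mul_pos hK0 hc0]
          linarith
  have hT1z : K⁻¹ * (Q * δ) * z0 ≤ |T 1| * z0 := by
    apply mul_le_mul_of_nonneg_right _ hz00.le
    rw [inv_mul_le_iff₀ hK0]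
    exact hT1low
  have hcont : ContinuousOn (fun y => f.eval y) (Icc (x - z0) (x + z0)) :=
    f.continuous.continuousOn
  have hplus := hexp z0 (by rw [abs_of_pos hz00])
  have hminus := hexp (-z0) (by rw [abs_neg, abs_of_pos hz00])
  rw [← sub_eq_add_neg] at hminus
  rw [abs_lt] at hplus hminus
  have hroot : ∃ α ∈ Icc (x - z0) (x + z0), f.eval α = 0 := by
    rcases le_total 0 (T 1) with h | h
    · rw [abs_of_nonneg h] at hT1z
      have h1 : (0 : ℝ) ∈ Icc (f.eval (x - z0)) (f.eval (x + z0)) := by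
        constructor <;> linarith [hplus.1, hminus.2]
      obtain ⟨α, hα, hα0⟩ := intermediate_value_Icc (by linarith : x - z0 ≤ x + z0) hcont h1
      exact ⟨α, hα, hα0⟩
    · rw [abs_of_nonpos h] at hT1z
      have h1 : (0 : ℝ) ∈ Icc (f.eval (x + z0)) (f.eval (x - z0)) := by
        constructor <;> linarith [hplus.2, hminus.1]
      obtain ⟨α, hα, hα0⟩ := intermediate_value_Icc' (by linarith : x - z0 ≤ x + z0) hcont h1
      exact ⟨α, hα, hα0⟩
  obtain ⟨α, hα, hα0⟩ := hroot
  refine ⟨α, pz z, pz_ne_zero z hz, pz_natDegree z, ?_, ?_, hheight⟩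
  · rw [hf, Polynomial.eval_map] at hα0
    rw [Polynomial.aeval_def]
    exact hα0
  · rw [abs_le]
    constructor <;> linarith [hα.1, hα.2]

end Pool.Agent.Lib_helper71.Normal
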