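import Pool.Agent.Lib_helper71.Normal.Defs
import Pool.Agent.Lib_helper71.Normal.W1

set_option autoImplicit false

namespace Pool.Agent.Lib_helper71.Normal

open Filter Topology

namespace ModF

lemma norm_e_eq (x : ℝ) : ‖e x‖ = 1 := by
  unfold e
  have : (2 * (Real.pi : ℂ) * (x : ℂ) * Complex.I) = ((2 * Real.pi * x : ℝ) : ℂ) * Complex.I := by
    push_cast; ring
  rw [this, Complex.norm_exp_ofReal_mul_I]

lemma norm_sum_range_le (b m : ℕ) (ξ : ℝ) (N : ℕ) :
    ‖∑ j ∈ Finset.range N, e (m * b ^ j * ξ)‖ ≤ N := by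
  refine (norm_sum_le _ _).trans ?_
  simp [norm_e_eq]

lemma norm_sum_split (b m : ℕ) (ξ : ℝ) (M N : ℕ) :
    ‖∑ j ∈ Finset.range (M + N), e (m * b ^ j * ξ)‖ ≤
      ‖∑ j ∈ Finset.range M, e (m * b ^ j * ξ)‖ +
        ‖∑ j ∈ Finset.Ico M (M + N), e (m * b ^ j * ξ)‖ := by
  rw [← Finset.sum_range_add_sum_Ico _ (Nat.le_add_right M N)]
  exact norm_add_le _ _

end ModF

open ModF in
theorem normal_of_blocks (ξ : ℝ) (J : ℕ → ℕ → ℕ)
    (hW : ∀ k b m N : ℕ, 2 ≤ b → b ≤ k + 2 → 1 ≤ m → m ≤ k + 2 →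
      J k b + N ≤ J (k + 1) b →
      ‖∑ j ∈ Finset.Ico (J k b) (J k b + N), e (m * b ^ j * ξ)‖ ≤ 1 / (k + 1) * (J k b + N))
    (hG : ∀ k b : ℕ, 2 ≤ b → b ≤ k + 2 → (k + 1) * (J k b + 1) ≤ J (k + 1) b) :
    IsNormal ξ := by
  intro b hb
  apply simplyNormal_of_weyl b hb ξ
  intro m hm
  set K : ℕ := max b m with hK
  have hbK : b ≤ K := le_max_left _ _
  have hmK : m ≤ K := le_max_right _ _
  have hstep : ∀ k, K ≤ k → J k b + 1 ≤ J (k + 1) b := by
    intro k hk
    have h1 := hG k b hb (by omega)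
    have h2 : J k b + 1 ≤ (k + 1) * (J k b + 1) := Nat.le_mul_of_pos_left _ (by omega)
    exact h2.trans h1
  have hgrow : ∀ i, i ≤ J (K + i) b := by
    intro i
    induction i with
    | zero => omega
    | succ i ih =>
      have := hstep (K + i) (by omega)
      have h3 : K + (i + 1) = K + i + 1 := by ring
      rw [h3]
      omega
  -- the main estimate
  have hmain : ∀ k N : ℕ, K ≤ k → J (k + 1) b ≤ N → N ≤ J (k + 2) b →
      ‖∑ j ∈ Finset.range N, e (m * b ^ j * ξ)‖ ≤ 3 / ((k : ℝ) + 1) * N := by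
    intro k N hk h1 h2
    have hk0 : (0 : ℝ) < (k : ℝ) + 1 := by positivity
    obtain ⟨n, rfl⟩ := Nat.exists_eq_add_of_le h1
    have hA := norm_sum_split b m ξ (J (k + 1) b) n
    have hB := hW (k + 1) b m n hb (by omega) hm (by omega) h2
    obtain ⟨l, hl⟩ := Nat.exists_eq_add_of_le ((Nat.le_succ _).trans (hstep k hk))
    have hC := norm_sum_split b m ξ (J k b) l
    have hD := hW k b m l hb (by omega) hm (by omega) (by omega)
    have hE := norm_sum_range_le b m ξ (J k b)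
    have hF : (k + 1) * (J k b + 1) ≤ J (k + 1) b := hG k b hb (by omega)
    have hF' : ((k : ℝ) + 1) * ((J k b : ℝ) + 1) ≤ (J (k + 1) b : ℝ) := by exact_mod_cast hF
    rw [← hl] at hC hD
    have hlc : (J k b : ℝ) + (l : ℝ) = (J (k + 1) b : ℝ) := by exact_mod_cast hl.symm
    rw [hlc] at hD
    have hJk : (J k b : ℝ) ≤ 1 / ((k : ℝ) + 1) * (J (k + 1) b : ℝ) := by
      rw [div_mul_eq_mul_div, le_div_iff₀ hk0]
      nlinarith
    have hB' : ‖∑ j ∈ Finset.Ico (J (k + 1) b) (J (k + 1) b + n), e (m * b ^ j * ξ)‖ ≤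
        1 / ((k : ℝ) + 1) * ((J (k + 1) b : ℝ) + n) := by
      refine hB.trans ?_
      apply mul_le_mul_of_nonneg_right _ (by positivity)
      apply one_div_le_one_div_of_le hk0
      push_cast
      linarith
    have hJn : 1 / ((k : ℝ) + 1) * (J (k + 1) b : ℝ) ≤
        1 / ((k : ℝ) + 1) * ((J (k + 1) b : ℝ) + n) := by
      apply mul_le_mul_of_nonneg_left _ (by positivity)
      have : (0 : ℝ) ≤ n := by positivity
      linarith
    have h3 : 3 / ((k : ℝ) + 1) * ((J (k + 1) b : ℝ) + n) =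
        1 / ((k : ℝ) + 1) * ((J (k + 1) b : ℝ) + n) +
        1 / ((k : ℝ) + 1) * ((J (k + 1) b : ℝ) + n) +
        1 / ((k : ℝ) + 1) * ((J (k + 1) b : ℝ) + n) := by ring
    push_cast
    rw [h3]
    linarith
  rw [Metric.tendsto_atTop]
  intro ε hε
  obtain ⟨k0, hk0⟩ := exists_nat_gt (3 / ε)
  set k1 : ℕ := max K k0 with hk1
  have hKk1 : K ≤ k1 := le_max_left _ _
  have hk0k1 : k0 ≤ k1 := le_max_right _ _
  refine ⟨J (k1 + 1) b, ?_⟩
  intro N hN
  -- find the block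
  have hex : ∃ i, N < J (k1 + i + 2) b := by
    refine ⟨N + 1, ?_⟩
    have h1 := hgrow (k1 - K + (N + 1) + 2)
    have h2 : K + (k1 - K + (N + 1) + 2) = k1 + (N + 1) + 2 := by omega
    rw [h2] at h1
    omega
  classical
  set i := Nat.find hex with hi
  have hi1 : N < J (k1 + i + 2) b := Nat.find_spec hex
  have hi2 : J (k1 + i + 1) b ≤ N := by
    rcases Nat.eq_zero_or_pos i with h0 | hpos
    · rw [h0]; exact hN
    · have := Nat.find_min hex (m := i - 1) (by omega)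
      push Not at this
      have h3 : k1 + (i - 1) + 2 = k1 + i + 1 := by omega
      rw [h3] at this
      exact this
  have hest := hmain (k1 + i) N (by omega) hi2 hi1.le
  have hNpos : 0 < N := by
    have h1 := hgrow (k1 + i + 1 - K)
    have h2 : K + (k1 + i + 1 - K) = k1 + i + 1 := by omega
    rw [h2] at h1
    omega
  have hNpos' : (0 : ℝ) < N := by exact_mod_cast hNpos
  rw [Real.dist_eq, sub_zero, abs_of_nonneg (by positivity)]
  have h5 : ‖∑ j ∈ Finset.range N, e (m * b ^ j * ξ)‖ / N ≤ 3 / (((k1 + i : ℕ) : ℝ) + 1) := by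
    rw [div_le_iff₀ hNpos']
    exact hest
  have h6 : 3 / (((k1 + i : ℕ) : ℝ) + 1) < ε := by
    have h7 : (k0 : ℝ) ≤ ((k1 + i : ℕ) : ℝ) := by
      exact_mod_cast (hk0k1.trans (Nat.le_add_right _ _))
    rw [div_lt_iff₀ (by positivity)]
    rw [div_lt_iff₀ hε] at hk0
    nlinarith
  linarith

end Pool.Agent.Lib_helper71.Normal
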