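import Mathlib

/-!
Basic definitions: digits, simply normal and normal numbers, the height of an integer polynomial,
Mahler's exponent and Koksma's exponent.
-/

set_option autoImplicit false

namespace Pool.Agent.Lib_helper71.Normal

open Filter Topology Polynomial

/-- The `j`-th digit after the point (`j ≥ 1`) in the base-`b` expansion of `ξ`. -/
noncomputable def digit (b : ℕ) (ξ : ℝ) (j : ℕ) : ℤ := ⌊(b : ℝ) ^ j * ξ⌋ % (b : ℤ)

/-- Each digit `0, ..., b - 1` appears among the digits of `ξ` in base `b` with frequency `1 / b`. -/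
def SimplyNormal (b : ℕ) (ξ : ℝ) : Prop :=
  ∀ d : ℕ, d < b → Tendsto (fun N : ℕ =>
    (((Finset.Icc 1 N).filter (fun j => digit b ξ j = (d : ℤ))).card : ℝ) / (N : ℝ))
    atTop (𝓝 (1 / (b : ℝ)))

/-- A normal number: simply normal in every base. -/
def IsNormal (ξ : ℝ) : Prop := ∀ b : ℕ, 2 ≤ b → SimplyNormal b ξ

/-- `e x = exp (2 π i x)`. -/
noncomputable def e (x : ℝ) : ℂ := Complex.exp (2 * Real.pi * x * Complex.I)

/-- The height of an integer polynomial: the maximum of the absolute values of its coefficients. -/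
noncomputable def height (P : ℤ[X]) : ℕ := P.support.sup (fun i => (P.coeff i).natAbs)

/-- Mahler's exponent `w_n(ξ)`. -/
noncomputable def mahlerExponent (n : ℕ) (ξ : ℝ) : EReal :=
  sSup {w : EReal | ∃ r : ℝ, w = (r : EReal) ∧
    {P : ℤ[X] | P.natDegree ≤ n ∧ 0 < |aeval ξ P| ∧
      |aeval ξ P| ≤ (height P : ℝ) ^ (-r)}.Infinite}

/-- `P` is the minimal polynomial over `ℤ` of the real number `α`: the primitive integer
polynomial of least degree with positive leading coefficient that vanishes at `α`. -/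
def IsMinPoly (P : ℤ[X]) (α : ℝ) : Prop :=
  P.IsPrimitive ∧ 0 < P.leadingCoeff ∧ aeval α P = 0 ∧
    ∀ Q : ℤ[X], Q ≠ 0 → aeval α Q = 0 → P.natDegree ≤ Q.natDegree

/-- Koksma's exponent `w_n^*(ξ)`. -/
noncomputable def koksmaExponent (n : ℕ) (ξ : ℝ) : EReal :=
  sSup {w : EReal | ∃ r : ℝ, w = (r : EReal) ∧
    {α : ℝ | ∃ P : ℤ[X], IsMinPoly P α ∧ P.natDegree ≤ n ∧ 0 < |ξ - α| ∧
      |ξ - α| ≤ (height P : ℝ) ^ (-r - 1)}.Infinite}

end Pool.Agent.Lib_helper71.Normal
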