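import Pool.Agent.Lib_helper71.Normal.Next
import Pool.Agent.Lib_helper71.Normal.Defs
import Pool.Agent.Lib_helper71.Normal.Expo
import Pool.Agent.Lib_helper71.Normal.MinPoly

/-!
Sequences of states, the limit point, and the events next to algebraic numbers.
-/

set_option autoImplicit false

namespace Pool.Agent.Lib_helper71.Normal

open Matrix Module Polynomial Set MeasureTheory Filter Topology

/-- The sequence of exponents. -/
noncomputable def thK (τ : ℝ) (k : ℕ) : ℝ := 1 - 1 / τ + 1 / (k + 1)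

lemma thK_gt (τ : ℝ) (k : ℕ) : 1 - 1 / τ < thK τ k := by
  unfold thK
  have : (0 : ℝ) < 1 / (k + 1) := by positivity
  linarith

/-- The exponent of the distance to the algebraic number. -/
noncomputable def tauE (n : ℕ) (τ η : ℝ) : ℝ := (1 + n * η) * τ + η

lemma exists_eta (n : ℕ) (τ θ : ℝ) (hτ : 1 < τ) (hθ : 1 - 1 / τ < θ) :
    ∃ η : ℝ, 0 < η ∧ η < 1 ∧ 1 - (1 - η) / tauE n τ η < θ := by
  have hcont : ContinuousAt (fun η : ℝ => 1 - (1 - η) / tauE n τ η) 0 := by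
    unfold tauE
    apply ContinuousAt.sub continuousAt_const
    apply ContinuousAt.div
    · fun_prop
    · fun_prop
    · simp; linarith
  have h0 : (fun η : ℝ => 1 - (1 - η) / tauE n τ η) 0 < θ := by
    simpa [tauE] using hθ
  have hev := hcont.eventually_lt continuousAt_const h0
  rw [Metric.eventually_nhds_iff] at hev
  obtain ⟨ε, hε, hball⟩ := hev
  refine ⟨min (ε / 2) (1 / 2), by positivity, ?_, ?_⟩
  · exact lt_of_le_of_lt (min_le_right _ _) (by norm_num)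
  · apply hball
    rw [Real.dist_eq, sub_zero, abs_of_pos (by positivity)]
    exact lt_of_le_of_lt (min_le_left _ _) (by linarith)

lemma tauE_gt (n : ℕ) (τ η : ℝ) (hτ : 1 < τ) (hη : 0 < η) : τ < tauE n τ η := by
  unfold tauE
  have : 0 ≤ (n : ℝ) * η * τ := by positivity
  nlinarith

/-- A sequence of states exists as soon as every state has a successor. -/
lemma seq_exists {α : Type*} (I : ℕ → α → Prop) (R : ℕ → α → α → Prop) (a0 : α) (h0 : I 0 a0)
    (h : ∀ k a, I k a → ∃ a', I (k + 1) a' ∧ R k a a') :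
    ∃ s : ℕ → α, s 0 = a0 ∧ (∀ k, I k (s k)) ∧ ∀ k, R k (s k) (s (k + 1)) := by
  classical
  have h' : ∀ k a, ∃ a', I k a → I (k + 1) a' ∧ R k a a' := by
    intro k a
    by_cases hI : I k a
    · obtain ⟨a', ha'⟩ := h k a hI
      exact ⟨a', fun _ => ha'⟩
    · exact ⟨a, fun hc => absurd hc hI⟩
  choose f hf using h'
  let s : ℕ → α := fun k => Nat.rec a0 (fun k a => f k a) k
  have hs : ∀ k, I k (s k) := by
    intro k
    induction k with
    | zero => exact h0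
    | succ k ih => exact (hf k (s k) ih).1
  exact ⟨s, rfl, hs, fun k => (hf k (s k) (hs k)).2⟩

/-- `s'` lies inside `s` and all its points have the transferred lower bounds. -/
def Nest (n : ℕ) (θ : ℝ) (s s' : St) : Prop :=
  s.a < s'.a ∧ s'.b < s.b ∧ s.t < s'.t ∧
    ∀ ξ ∈ Icc s'.a s'.b, ∀ t, s.t ≤ t → t ≤ s'.t → Dlb n (1 / 2) θ t ξ

lemma Dlb_mono (n : ℕ) (c θ θ' : ℝ) (hc : 0 ≤ c) (h : θ ≤ θ') (t : ℕ) (x : ℝ)
    (hD : Dlb n c θ t x) : Dlb n c θ' t x := by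
  intro v hv
  refine le_trans ?_ (hD v hv)
  apply mul_le_mul_of_nonneg_left _ hc
  apply Real.rpow_le_rpow_of_exponent_le (by norm_num)
  have : (0 : ℝ) ≤ t := Nat.cast_nonneg t
  nlinarith

/-- The limit point of a sequence of nested states. -/
theorem limit_point (n : ℕ) (hn : 1 ≤ n) (τ : ℝ) (hτ : 1 < τ) (s : ℕ → St)
    (hs : ∀ k, Inv n (thK τ k) (s k)) (hN : ∀ k, Nest n (thK τ k) (s k) (s (k + 1))) :
    ∃ ξ : ℝ, (∀ k, ξ ∈ Icc (s k).a (s k).b) ∧
      mahlerExponent n ξ ≤ ((τ * (n + 1) - 1 : ℝ) : EReal) ∧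
      ∀ P : ℤ[X], P ≠ 0 → P.natDegree ≤ n → aeval ξ P ≠ 0 := by
  have hmono : ∀ k, Icc (s (k + 1)).a (s (k + 1)).b ⊆ Icc (s k).a (s k).b := by
    intro k
    exact Icc_subset_Icc (hN k).1.le (hN k).2.1.le
  obtain ⟨ξ, hξ⟩ := IsCompact.nonempty_iInter_of_sequence_nonempty_isCompact_isClosed
    (fun k => Icc (s k).a (s k).b) hmono (fun k => nonempty_Icc.mpr (hs k).1.le)
    isCompact_Icc (fun k => isClosed_Icc)
  rw [mem_iInter] at hξ
  have ht : ∀ k, k ≤ (s k).t := by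
    intro k
    induction k with
    | zero => exact Nat.zero_le _
    | succ k ih => exact Nat.succ_le_of_lt (lt_of_le_of_lt ih (hN k).2.2.1)
  have htmono : ∀ j k, j ≤ k → (s j).t ≤ (s k).t := by
    intro j k hjk
    induction k, hjk using Nat.le_induction with
    | base => exact le_rfl
    | succ k _ ih => exact ih.trans (hN k).2.2.1.le
  -- lower bounds at the limit point
  have hDl : ∀ θ : ℝ, 1 - 1 / τ < θ → ∃ T : ℕ, ∀ t ≥ T, Dlb n (1 / 2) θ t ξ := by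
    intro θ hθ
    obtain ⟨K, hK⟩ := exists_nat_one_div_lt (show 0 < θ - (1 - 1 / τ) by linarith)
    refine ⟨(s K).t, ?_⟩
    intro t htT
    -- find `k ≥ K` with `(s k).t ≤ t ≤ (s (k+1)).t`
    have hex : ∃ k, t < (s k).t := ⟨t + 1, lt_of_lt_of_le (Nat.lt_succ_self t) (ht (t + 1))⟩
    classical
    set k1 := Nat.find hex with hk1
    have hk1' : t < (s k1).t := Nat.find_spec hex
    have hKk1 : K < k1 := by
      by_contra hle
      push Not at hle
      have := htmono k1 K hle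
      omega
    obtain ⟨k, hk⟩ : ∃ k, k1 = k + 1 := ⟨k1 - 1, by omega⟩
    have hkt : (s k).t ≤ t := by
      by_contra hlt
      push Not at hlt
      have := Nat.find_min' hex hlt
      omega
    rw [hk] at hk1'
    have h1 := (hN k).2.2.2 ξ (hξ (k + 1)) t hkt hk1'.le
    apply Dlb_mono n (1 / 2) (thK τ k) θ (by norm_num) _ t ξ h1
    unfold thK
    have h2 : (1 : ℝ) / (k + 1) ≤ 1 / (K + 1) := by
      apply one_div_le_one_div_of_le (by positivity)
      have : (K : ℝ) ≤ k := by exact_mod_cast (by omega : K ≤ k)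
      linarith
    linarith
  refine ⟨ξ, hξ, ?_, ?_⟩
  · apply mahler_le n hn ξ τ hτ
    intro θ hθ _
    obtain ⟨T, hT⟩ := hDl θ hθ
    exact ⟨1 / 2, by norm_num, T, hT⟩
  · have hτ0 : 0 < 1 / τ := by positivity
    obtain ⟨T, hT⟩ := hDl (1 - 1 / τ / 2) (by linarith)
    exact nonvanishing_of_Dlb n ξ (1 - 1 / τ / 2) (1 / 2) (by linarith) (by norm_num) T hT

/-- An initial state. -/
theorem initial_state (n : ℕ) (hn : 1 ≤ n) (τ : ℝ) (hτ : 1 < τ) :
    ∃ s : St, Inv n (thK τ 0) s := by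
  have hθ : 0 < thK τ 0 := by
    unfold thK
    have : 1 / τ < 1 := by rw [div_lt_one (by linarith)]; exact hτ
    simp
    rw [one_div] at this
    linarith
  obtain ⟨T, hT⟩ := stage_fixed n hn (thK τ 0) (1 / 8) hθ (by norm_num) 0 1 (by norm_num)
    (by norm_num)
  refine ⟨⟨0, 1, T⟩, by norm_num, le_rfl, le_rfl, ?_⟩
  refine hT.trans (le_of_eq ?_)
  congr 1
  norm_num

/-- A good point in the middle of a state. -/
lemma exists_good (n : ℕ) (θ η : ℝ) (s : St) (hs : Inv n θ s) (T : ℕ)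
    (hT : volume (Icc s.a s.b \ Good n θ η T s) ≤ ENNReal.ofReal ((s.b - s.a) / 4)) :
    ∃ x ∈ Good n θ η T s, s.a + (s.b - s.a) / 4 ≤ x ∧ x ≤ s.b - (s.b - s.a) / 4 := by
  by_contra hcon
  push Not at hcon
  have hab := hs.1
  have hsub : Icc (s.a + (s.b - s.a) / 4) (s.b - (s.b - s.a) / 4) ⊆
      Icc s.a s.b \ Good n θ η T s := by
    intro x hx
    refine ⟨⟨by linarith [hx.1], by linarith [hx.2]⟩, ?_⟩
    intro hxG
    have := hcon x hxG hx.1
    linarith [hx.2]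
  have h1 := (measure_mono hsub).trans hT
  rw [Real.volume_Icc, ENNReal.ofReal_le_ofReal_iff (by linarith)] at h1
  linarith

/-- The statement of the approximation lemma. -/
def ApproxProp (n : ℕ) : Prop := ∃ C : ℝ, 0 < C ∧ ∀ (η : ℝ), 0 ≤ η →
    ∀ (t : ℕ) (x : ℝ), |x| ≤ 1 → Dlb n 1 η t x →
    ∃ (α : ℝ) (P : ℤ[X]), P ≠ 0 ∧ P.natDegree ≤ n ∧ aeval α P = 0 ∧
      |x - α| ≤ (((2 : ℝ) ^ t) ^ (n + 1))⁻¹ ∧
      (height P : ℝ) ≤ C * ((2 : ℝ) ^ t) ^ (1 + n * η)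

/-- The first kind of event: the state is close to an algebraic number. -/
def EvA (n : ℕ) (τ ε : ℝ) (s : St) : Prop :=
  ∃ (α : ℝ) (M : ℤ[X]), IsMinPoly M α ∧ M.natDegree ≤ n ∧ ∀ ξ ∈ Icc s.a s.b,
    0 < |ξ - α| ∧ |ξ - α| < ε ∧ |ξ - α| ≤ (height M : ℝ) ^ (-(τ * (n + 1) - 1) - 1)

lemma IsMinPoly.ne_zero {P : ℤ[X]} {α : ℝ} (h : IsMinPoly P α) : P ≠ 0 := by
  intro h0
  have := h.2.1
  rw [h0] at this
  simp at this

/-- The distance estimate: `Q = 2 ^ t` is large. -/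
lemma event_estimate (n : ℕ) (τ η C Q H : ℝ) (hτ : 1 < τ) (hη : 0 < η) (hC : 0 < C)
    (hQ1 : 1 ≤ Q) (hQC : C ^ τ ≤ Q ^ η) (hH1 : 1 ≤ H) (hH : H ≤ C * Q ^ (1 + n * η)) :
    ((Q ^ (n + 1))⁻¹) ^ (tauE n τ η) ≤ H ^ (-(τ * (n + 1) - 1) - 1) := by
  have hQ0 : 0 < Q := by linarith
  have hH0 : 0 < H := by linarith
  have h1 : ((Q ^ (n + 1))⁻¹) ^ (tauE n τ η) = (Q ^ (((n : ℝ) + 1) * tauE n τ η))⁻¹ := by
    rw [Real.inv_rpow (by positivity), ← Real.rpow_natCast Q (n + 1), ← Real.rpow_mul hQ0.le]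
    push_cast
    rfl
  have h2 : H ^ (-(τ * (n + 1) - 1) - 1) = (H ^ (τ * (n + 1)))⁻¹ := by
    rw [← Real.rpow_neg hH0.le]
    congr 1
    ring
  rw [h1, h2]
  apply inv_anti₀ (by positivity)
  have hexp : 0 ≤ τ * ((n : ℝ) + 1) := by positivity
  calc H ^ (τ * (n + 1)) ≤ (C * Q ^ (1 + n * η)) ^ (τ * (n + 1)) :=
        Real.rpow_le_rpow hH0.le hH hexp
    _ = (C ^ τ) ^ ((n : ℝ) + 1) * Q ^ ((1 + n * η) * (τ * (n + 1))) := by
        rw [Real.mul_rpow hC.le (by positivity), ← Real.rpow_mul hC.le, ← Real.rpow_mul hQ0.le]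
    _ ≤ (Q ^ η) ^ ((n : ℝ) + 1) * Q ^ ((1 + n * η) * (τ * (n + 1))) := by
        apply mul_le_mul_of_nonneg_right _ (by positivity)
        exact Real.rpow_le_rpow (by positivity) hQC (by positivity)
    _ = Q ^ (((n : ℝ) + 1) * tauE n τ η) := by
        rw [← Real.rpow_mul hQ0.le, ← Real.rpow_add hQ0]
        congr 1
        unfold tauE
        ring

/-- The first kind of step. -/
theorem step_A (n : ℕ) (hn : 1 ≤ n) (hA : ApproxProp n) (τ : ℝ) (hτ : 1 < τ) (θ θ' : ℝ)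
    (hθ' : 1 - 1 / τ < θ') (s : St) (hs : Inv n θ s) (ε : ℝ) (hε : 0 < ε) :
    ∃ s' : St, Inv n θ' s' ∧ Nest n θ s s' ∧ EvA n τ ε s' := by
  obtain ⟨η, hη0, hη1, hη⟩ := exists_eta n τ θ' hτ hθ'
  set τ' := tauE n τ η with hτ'
  have hττ' : τ < τ' := tauE_gt n τ η hτ hη0
  obtain ⟨T, hT⟩ := bad_small n hn θ η hη0 s hs
  obtain ⟨x, hxG, hxa, hxb⟩ := exists_good n θ η s hs T hT
  obtain ⟨t1, ht1, hnext⟩ := next_state n hn θ τ' η θ' (by linarith) hη0.le hη1.le hη s hs T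
  obtain ⟨R0, hR0, hnext⟩ := hnext ((s.b - s.a) / 4) (by linarith [hs.1])
  obtain ⟨C, hC, happ⟩ := hA
  obtain ⟨C2, hC2, hmin⟩ := minpoly_height n
  have hx1 : |x| ≤ 1 := by
    have h1 := hs.2.1
    have h2 := hs.2.2.1
    have h3 := hxG.1
    rw [abs_le]
    constructor <;> linarith [h3.1, h3.2]
  -- choice of the time
  obtain ⟨t0, ht0⟩ := pow_unbounded_of_one_lt
    (max (max (1 / R0) (1 / ε)) (((C2 * C) ^ τ) ^ (1 / η))) (by norm_num : (1 : ℝ) < 2)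
  set t := max t0 T with ht
  set Q : ℝ := 2 ^ t with hQ'
  have hQge : (2 : ℝ) ^ t0 ≤ Q := pow_le_pow_right₀ (by norm_num) (le_max_left _ _)
  have hQ1 : 1 ≤ Q := one_le_pow₀ (by norm_num)
  have hQ0 : 0 < Q := by linarith
  have hQR : 1 / R0 < Q :=
    lt_of_le_of_lt ((le_max_left _ _).trans (le_max_left _ _)) (lt_of_lt_of_le ht0 hQge)
  have hQε : 1 / ε < Q :=
    lt_of_le_of_lt ((le_max_right _ _).trans (le_max_left _ _)) (lt_of_lt_of_le ht0 hQge)
  have hQC : (C2 * C) ^ τ ≤ Q ^ η := by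
    have h1 : ((C2 * C) ^ τ) ^ (1 / η) ≤ Q :=
      (le_max_right _ _).trans (lt_of_lt_of_le ht0 hQge).le
    have h2 := Real.rpow_le_rpow (by positivity) h1 hη0.le
    rwa [← Real.rpow_mul (by positivity), one_div_mul_cancel hη0.ne', Real.rpow_one] at h2
  set R : ℝ := (Q ^ (n + 1))⁻¹ with hR
  have hRpos : 0 < R := by positivity
  have hRQ : R ≤ 1 / Q := by
    rw [hR, one_div]
    apply inv_anti₀ hQ0
    calc Q = Q ^ 1 := (pow_one Q).symm
      _ ≤ Q ^ (n + 1) := pow_le_pow_right₀ hQ1 (by omega)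
  have hRR0 : R ≤ R0 := by
    refine hRQ.trans ?_
    rw [div_le_iff₀ hQ0]
    rw [div_lt_iff₀ hR0] at hQR
    linarith
  have hRε : R < ε := by
    refine lt_of_le_of_lt hRQ ?_
    rw [div_lt_iff₀ hQ0]
    rw [div_lt_iff₀ hε] at hQε
    linarith
  obtain ⟨α, P, hP0, hPn, hPα, hxα, hPH⟩ := happ η hη0.le t x hx1 (hxG.2.2 t (le_max_right _ _))
  obtain ⟨M, hM, hMn, hMH⟩ := hmin α P hP0 hPn hPα
  obtain ⟨hInv, hlo, hhi, htr⟩ := hnext x hxG hxa hxb R hRpos hRR0 α hxα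
  refine ⟨⟨α + R ^ τ' / 2, α + R ^ τ', t1⟩, hInv, ⟨hlo, hhi, ht1, htr⟩, α, M, hM, hMn, ?_⟩
  have hr0 : 0 < R ^ τ' := Real.rpow_pos_of_pos hRpos τ'
  have hR1 : R ≤ 1 := by
    refine hRQ.trans ?_
    rw [div_le_one hQ0]
    exact hQ1
  have hrR : R ^ τ' ≤ R := by
    calc R ^ τ' ≤ R ^ (1 : ℝ) := Real.rpow_le_rpow_of_exponent_ge hRpos hR1 (by linarith)
      _ = R := Real.rpow_one R
  have hH1 : (1 : ℝ) ≤ height M := by exact_mod_cast one_le_height hM.ne_zero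
  have hest := event_estimate n τ η (C2 * C) Q (height M) hτ hη0 (by positivity) hQ1 hQC hH1 (by
    calc (height M : ℝ) ≤ C2 * height P := hMH
      _ ≤ C2 * (C * Q ^ (1 + n * η)) := mul_le_mul_of_nonneg_left hPH hC2.le
      _ = C2 * C * Q ^ (1 + n * η) := by ring)
  intro ξ hξ
  have hξ1 : α + R ^ τ' / 2 ≤ ξ := hξ.1
  have hξ2 : ξ ≤ α + R ^ τ' := hξ.2
  have habs : |ξ - α| = ξ - α := abs_of_pos (by linarith)
  rw [habs]
  refine ⟨by linarith, by linarith, ?_⟩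
  calc ξ - α ≤ R ^ τ' := by linarith
    _ ≤ _ := hest

end Pool.Agent.Lib_helper71.Normal
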