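import Mathlib

/-!
Sublevel sets of polynomials: a polynomial of degree at most `D` that takes a value of absolute
value at least `1` on an interval is small only on a small part of the interval.
-/

set_option autoImplicit false

namespace Pool.Agent.Lib_helper71.Normal

open Polynomial MeasureTheory

/-- The constant of the sublevel estimate. -/
noncomputable def cG (D : ℕ) : ℝ := 1 / ((D + 1) * (2 * (D + 1)) ^ D)

lemma cG_pos (D : ℕ) : 0 < cG D := by unfold cG; positivity

lemma cG_le_one (D : ℕ) : cG D ≤ 1 := by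
  unfold cG
  rw [div_le_one (by positivity)]
  have h1 : (1 : ℝ) ≤ D + 1 := by
    have : (0 : ℝ) ≤ D := Nat.cast_nonneg D
    linarith
  have h2 : (1 : ℝ) ≤ (2 * (D + 1)) ^ D := one_le_pow₀ (by linarith)
  nlinarith

lemma exists_separated (S : Set ℝ) (d : ℝ) (hd : 0 < d) (N : ℕ)
    (h : ENNReal.ofReal (2 * d * N) < volume S) :
    ∃ T : Finset ℝ, T.card = N + 1 ∧ (∀ x ∈ T, x ∈ S) ∧
      ∀ x ∈ T, ∀ y ∈ T, x ≠ y → d ≤ |x - y| := by
  induction N with
  | zero =>
    have : S.Nonempty := by
      by_contra hS
      rw [Set.not_nonempty_iff_eq_empty] at hS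
      rw [hS] at h
      simp at h
    obtain ⟨x, hx⟩ := this
    exact ⟨{x}, by simp, by simpa using hx, by simp⟩
  | succ N ih =>
    have h' : ENNReal.ofReal (2 * d * N) < volume S := by
      refine lt_of_le_of_lt (ENNReal.ofReal_le_ofReal ?_) h
      push_cast
      nlinarith
    obtain ⟨T, hT, hTS, hTd⟩ := ih h'
    have hex : ∃ y ∈ S, ∀ x ∈ T, d ≤ |y - x| := by
      by_contra hcon
      push Not at hcon
      have hsub : S ⊆ ⋃ x ∈ T, Metric.ball x d := by
        intro y hy
        obtain ⟨x, hx, hxy⟩ := hcon y hy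
        simp only [Set.mem_iUnion]
        exact ⟨x, hx, by rwa [Metric.mem_ball, Real.dist_eq]⟩
      have h1 : volume S ≤ ENNReal.ofReal (2 * d * (N + 1 : ℕ)) := by
        calc volume S ≤ volume (⋃ x ∈ T, Metric.ball x d) := measure_mono hsub
          _ ≤ ∑ x ∈ T, volume (Metric.ball x d) := measure_biUnion_finset_le _ _
          _ = ∑ x ∈ T, ENNReal.ofReal (2 * d) := by
              apply Finset.sum_congr rfl
              intro x _
              rw [Real.volume_ball]
          _ = ENNReal.ofReal (2 * d * (N + 1 : ℕ)) := by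
              rw [Finset.sum_const, hT, nsmul_eq_mul, ← ENNReal.ofReal_natCast (N + 1),
                ← ENNReal.ofReal_mul (by positivity)]
              congr 1
              ring
      exact absurd h (not_lt.mpr h1)
    obtain ⟨y, hyS, hy⟩ := hex
    have hyT : y ∉ T := by
      intro hyT
      have := hy y hyT
      simp at this
      linarith
    refine ⟨insert y T, ?_, ?_, ?_⟩
    · rw [Finset.card_insert_of_notMem hyT, hT]
    · intro x hx
      rcases Finset.mem_insert.mp hx with rfl | hx
      · exact hyS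
      · exact hTS x hx
    · intro x hx z hz hxz
      rcases Finset.mem_insert.mp hx with hx1 | hx1 <;>
        rcases Finset.mem_insert.mp hz with hz1 | hz1
      · exact absurd (hx1.trans hz1.symm) hxz
      · rw [hx1]; exact hy z hz1
      · rw [hz1, abs_sub_comm]; exact hy x hx1
      · exact hTd x hx1 z hz1 hxz

lemma eval_le_of_separated (D : ℕ) (p : ℝ[X]) (hp : p.natDegree ≤ D) (a b d s : ℝ)
    (hd : 0 < d) (T : Finset ℝ) (hT : T.card = D + 1) (hTab : ∀ x ∈ T, x ∈ Set.Icc a b)
    (hTd : ∀ x ∈ T, ∀ y ∈ T, x ≠ y → d ≤ |x - y|) (hs : ∀ x ∈ T, |p.eval x| < s)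
    (y : ℝ) (hy : y ∈ Set.Icc a b) : |p.eval y| < (D + 1) * s * ((b - a) / d) ^ D := by
  have hab : a ≤ b := le_trans hy.1 hy.2
  have hTne : T.Nonempty := by
    rw [← Finset.card_pos, hT]; omega
  have hdeg : p.degree < T.card := by
    rw [hT]
    exact lt_of_le_of_lt Polynomial.degree_le_natDegree (by exact_mod_cast Nat.lt_succ_of_le hp)
  have hp' : p = Lagrange.interpolate T id fun i => p.eval (id i) :=
    Lagrange.eq_interpolate (Function.Injective.injOn Function.injective_id) hdeg
  have hb : ∀ x ∈ T, |(Lagrange.basis T id x).eval y| ≤ ((b - a) / d) ^ D := by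
    intro x hx
    unfold Lagrange.basis Lagrange.basisDivisor
    rw [Polynomial.eval_prod, Finset.abs_prod]
    have hc : (T.erase x).card = D := by rw [Finset.card_erase_of_mem hx, hT]; rfl
    calc ∏ j ∈ T.erase x, |Polynomial.eval y (C (id x - id j)⁻¹ * (X - C (id j)))|
        ≤ ∏ j ∈ T.erase x, ((b - a) / d) := by
          apply Finset.prod_le_prod
          · intro j _; exact abs_nonneg _
          · intro j hj
            have hj' := Finset.mem_erase.mp hj
            simp only [id, eval_mul, eval_C, eval_sub, eval_X, abs_mul, abs_inv]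
            have h1 : d ≤ |x - j| := hTd x hx j hj'.2 (Ne.symm hj'.1)
            have h2 : |y - j| ≤ b - a := by
              have h3 := hTab j hj'.2
              rw [abs_le]
              constructor <;> linarith [h3.1, h3.2, hy.1, hy.2]
            rw [div_eq_inv_mul]
            apply mul_le_mul _ h2 (abs_nonneg _) (by positivity)
            exact inv_anti₀ hd h1
      _ = ((b - a) / d) ^ D := by rw [Finset.prod_const, hc]
  have hval : p.eval y = ∑ x ∈ T, p.eval x * (Lagrange.basis T id x).eval y := by
    conv_lhs => rw [hp']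
    rw [Lagrange.interpolate_apply, Polynomial.eval_finsetSum]
    simp
  have hs0 : 0 < s := by
    obtain ⟨x, hx⟩ := hTne
    exact lt_of_le_of_lt (abs_nonneg _) (hs x hx)
  by_cases hK : 0 < ((b - a) / d) ^ D
  · calc |p.eval y| ≤ ∑ x ∈ T, |p.eval x * (Lagrange.basis T id x).eval y| := by
          rw [hval]; exact Finset.abs_sum_le_sum_abs _ _
      _ < ∑ x ∈ T, s * ((b - a) / d) ^ D := by
          apply Finset.sum_lt_sum_of_nonempty hTne
          intro x hx
          rw [abs_mul]
          calc |p.eval x| * |(Lagrange.basis T id x).eval y|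
              ≤ |p.eval x| * ((b - a) / d) ^ D :=
                mul_le_mul_of_nonneg_left (hb x hx) (abs_nonneg _)
            _ < s * ((b - a) / d) ^ D := mul_lt_mul_of_pos_right (hs x hx) hK
      _ = (D + 1) * s * ((b - a) / d) ^ D := by
          rw [Finset.sum_const, hT, nsmul_eq_mul]; push_cast; ring
  · exfalso
    have h0 : (0 : ℝ) ≤ (b - a) / d := div_nonneg (by linarith) hd.le
    rcases Nat.eq_zero_or_pos D with hD | hD
    · rw [hD] at hK; simp at hK
    · have h1 : 1 < T.card := by rw [hT]; omega
      obtain ⟨x, hx, z, hz, hxz⟩ := Finset.one_lt_card.mp h1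
      have h2 := hTd x hx z hz hxz
      have h3 : |x - z| ≤ b - a := by
        have hx' := hTab x hx
        have hz' := hTab z hz
        rw [abs_le]
        constructor <;> linarith [hx'.1, hx'.2, hz'.1, hz'.2]
      apply hK
      have : 0 < (b - a) / d := div_pos (by linarith) hd
      positivity

theorem good_poly (D : ℕ) (p : ℝ[X]) (hp : p.natDegree ≤ D) (a b : ℝ) (hab : a < b)
    (hy : ∃ y ∈ Set.Icc a b, 1 ≤ |p.eval y|) (κ : ℝ) (hκ : 0 < κ) :
    volume {x ∈ Set.Icc a b | |p.eval x| < cG D * κ ^ D} ≤ ENNReal.ofReal (κ * (b - a)) := by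
  by_contra hcon
  push Not at hcon
  set S := {x ∈ Set.Icc a b | |p.eval x| < cG D * κ ^ D} with hS
  have hba : 0 < b - a := by linarith
  set d : ℝ := κ * (b - a) / (2 * (D + 1)) with hd
  have hd0 : 0 < d := by positivity
  have h1 : ENNReal.ofReal (2 * d * D) < volume S := by
    refine lt_of_le_of_lt (ENNReal.ofReal_le_ofReal ?_) hcon
    rw [hd]
    have : 2 * (κ * (b - a) / (2 * ((D : ℝ) + 1))) * D = κ * (b - a) * (D / (D + 1)) := by
      field_simp
    rw [this]
    have h2 : (D : ℝ) / (D + 1) ≤ 1 := by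
      rw [div_le_one (by positivity)]; linarith
    have h3 : 0 ≤ κ * (b - a) := by positivity
    nlinarith
  obtain ⟨T, hT, hTS, hTd⟩ := exists_separated S d hd0 D h1
  obtain ⟨y, hy, hy1⟩ := hy
  have h2 := eval_le_of_separated D p hp a b d (cG D * κ ^ D) hd0 T hT
    (fun x hx => (hTS x hx).1) hTd (fun x hx => (hTS x hx).2) y hy
  have h3 : ((D : ℝ) + 1) * (cG D * κ ^ D) * ((b - a) / d) ^ D = 1 := by
    have h4 : (b - a) / d = 2 * (D + 1) / κ := by
      rw [hd]; field_simp
    rw [h4, div_pow, cG]
    field_simp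
  rw [h3] at h2
  linarith

end Pool.Agent.Lib_helper71.Normal
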