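import Mathlib

/-!
Interpolation between the size of a real polynomial on a small interval and the size of its
coefficients.
-/

set_option autoImplicit false

namespace Pool.Agent.Lib_helper71.Normal

open Polynomial Set

lemma taylor_coeff_bound (n : ℕ) (f : ℝ[X]) (hf : f.natDegree ≤ n) (A : ℝ)
    (hA : ∀ l, |f.coeff l| ≤ A) (β : ℝ) (hβ : |β| ≤ 2) (j : ℕ) :
    |(taylor β f).coeff j| ≤ (n + 1) * 4 ^ n * A := by
  have hA0 : 0 ≤ A := (abs_nonneg _).trans (hA 0)
  have h1 : taylor β f = ∑ i ∈ Finset.range (n + 1), C (f.coeff i) * (X + C β) ^ i := by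
    rw [taylor_apply, Polynomial.comp, Polynomial.eval₂_eq_sum_range' _ (Nat.lt_succ_of_le hf)]
  rw [h1, Polynomial.finsetSum_coeff]
  refine (Finset.abs_sum_le_sum_abs _ _).trans ?_
  calc ∑ i ∈ Finset.range (n + 1), |(C (f.coeff i) * (X + C β) ^ i).coeff j|
      ≤ ∑ _i ∈ Finset.range (n + 1), 4 ^ n * A := by
        apply Finset.sum_le_sum
        intro i hi
        have hi' : i ≤ n := by
          have := Finset.mem_range.mp hi
          omega
        rw [coeff_C_mul, coeff_X_add_C_pow, abs_mul, abs_mul, abs_pow]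
        have h2 : |β| ^ (i - j) ≤ 2 ^ n := by
          calc |β| ^ (i - j) ≤ 2 ^ (i - j) := pow_le_pow_left₀ (abs_nonneg _) hβ _
            _ ≤ 2 ^ n := pow_le_pow_right₀ (by norm_num) (by omega)
        have h3 : |((i.choose j : ℕ) : ℝ)| ≤ 2 ^ n := by
          rw [Nat.abs_cast]
          have h4 : i.choose j ≤ 2 ^ i := Nat.choose_le_two_pow i j
          have h5 : 2 ^ i ≤ 2 ^ n := Nat.pow_le_pow_right (by norm_num) hi'
          exact_mod_cast h4.trans h5
        have h6 : (4 : ℝ) ^ n = 2 ^ n * 2 ^ n := by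
          rw [← mul_pow]; norm_num
        calc |f.coeff i| * (|β| ^ (i - j) * |((i.choose j : ℕ) : ℝ)|)
            ≤ A * (2 ^ n * 2 ^ n) := by
              apply mul_le_mul (hA i) _ (by positivity) hA0
              exact mul_le_mul h2 h3 (abs_nonneg _) (by positivity)
          _ = 4 ^ n * A := by rw [h6]; ring
    _ = (n + 1) * 4 ^ n * A := by
        rw [Finset.sum_const, Finset.card_range, nsmul_eq_mul]
        push_cast
        ring

/-- The coefficients of a polynomial of degree at most `n` are bounded by its values at suitable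
points of `[1/2, 1]`. -/
lemma exists_coeff_bound (n : ℕ) : ∃ C : ℝ, 1 ≤ C ∧ ∀ (c : Fin (n + 1) → ℝ) (s : ℝ),
    (∀ y ∈ Icc (1 / 2 : ℝ) 1, |∑ j : Fin (n + 1), c j * y ^ (j : ℕ)| ≤ s) →
    ∀ j, |c j| ≤ C * s := by
  let p : Fin (n + 1) → ℝ := fun i => 1 / 2 + (i : ℕ) / (2 * (n + 1))
  have hp : Function.Injective p := by
    intro i j hij
    simp only [p] at hij
    have h1 : ((i : ℕ) : ℝ) / (2 * (n + 1)) = ((j : ℕ) : ℝ) / (2 * (n + 1)) := by linarith
    have h2 : ((i : ℕ) : ℝ) = ((j : ℕ) : ℝ) := by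
      field_simp at h1
      exact h1
    exact Fin.ext (by exact_mod_cast h2)
  have hpm : ∀ i, p i ∈ Icc (1 / 2 : ℝ) 1 := by
    intro i
    simp only [p]
    have h1 : ((i : ℕ) : ℝ) ≤ n + 1 := by
      have := i.2
      exact_mod_cast this.le
    constructor
    · have : (0 : ℝ) ≤ (i : ℕ) / (2 * (n + 1)) := by positivity
      linarith
    · have : ((i : ℕ) : ℝ) / (2 * (n + 1)) ≤ 1 / 2 := by
        rw [div_le_iff₀ (by positivity)]
        linarith
      linarith
  let V : Matrix (Fin (n + 1)) (Fin (n + 1)) ℝ := Matrix.vandermonde p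
  have hV : V.det ≠ 0 := Matrix.det_vandermonde_ne_zero_iff.mpr hp
  have hVu : IsUnit V.det := isUnit_iff_ne_zero.mpr hV
  refine ⟨1 + ∑ j, ∑ i, |V⁻¹ j i|, ?_, ?_⟩
  · have : 0 ≤ ∑ j, ∑ i, |V⁻¹ j i| :=
      Finset.sum_nonneg fun j _ => Finset.sum_nonneg fun i _ => abs_nonneg _
    linarith
  · intro c s hs j
    have hs0 : 0 ≤ s := (abs_nonneg _).trans (hs 1 ⟨by norm_num, le_rfl⟩)
    have h1 : V⁻¹.mulVec (V.mulVec c) = c := by
      rw [Matrix.mulVec_mulVec, Matrix.nonsing_inv_mul V hVu, Matrix.one_mulVec]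
    have h2 : c j = ∑ i, V⁻¹ j i * (V.mulVec c) i := by
      conv_lhs => rw [← h1]
      rfl
    have h3 : ∀ i, |(V.mulVec c) i| ≤ s := by
      intro i
      have h4 : (V.mulVec c) i = ∑ j : Fin (n + 1), c j * (p i) ^ (j : ℕ) := by
        rw [Matrix.mulVec, dotProduct]
        apply Finset.sum_congr rfl
        intro l _
        show (Matrix.vandermonde p) i l * c l = c l * p i ^ (l : ℕ)
        rw [Matrix.vandermonde_apply]
        ring
      rw [h4]
      exact hs _ (hpm i)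
    rw [h2]
    calc |∑ i, V⁻¹ j i * (V.mulVec c) i| ≤ ∑ i, |V⁻¹ j i * (V.mulVec c) i| :=
          Finset.abs_sum_le_sum_abs _ _
      _ ≤ ∑ i, |V⁻¹ j i| * s := by
          apply Finset.sum_le_sum
          intro i _
          rw [abs_mul]
          exact mul_le_mul_of_nonneg_left (h3 i) (abs_nonneg _)
      _ = (∑ i, |V⁻¹ j i|) * s := by rw [Finset.sum_mul]
      _ ≤ (1 + ∑ j, ∑ i, |V⁻¹ j i|) * s := by
          apply mul_le_mul_of_nonneg_right _ hs0
          have h5 : ∑ i, |V⁻¹ j i| ≤ ∑ j, ∑ i, |V⁻¹ j i| :=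
            Finset.single_le_sum (f := fun j => ∑ i, |V⁻¹ j i|)
              (fun j _ => Finset.sum_nonneg fun i _ => abs_nonneg _) (Finset.mem_univ j)
          linarith

/-- The Taylor coefficients at `β` are bounded by the values on `[β + r/2, β + r]`. -/
lemma exists_taylor_bound (n : ℕ) : ∃ C : ℝ, 1 ≤ C ∧ ∀ (f : ℝ[X]), f.natDegree ≤ n →
    ∀ (β r s : ℝ), 0 < r → (∀ y ∈ Icc (β + r / 2) (β + r), |f.eval y| ≤ s) →
    ∀ j : ℕ, |(taylor β f).coeff j| * r ^ j ≤ C * s := by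
  obtain ⟨C, hC1, hC⟩ := exists_coeff_bound n
  refine ⟨C, hC1, ?_⟩
  intro f hf β r s hr hs j
  have hs0 : 0 ≤ s := (abs_nonneg _).trans (hs (β + r) ⟨by linarith, le_rfl⟩)
  by_cases hj : j < n + 1
  · have h1 := hC (fun l : Fin (n + 1) => (taylor β f).coeff l * r ^ (l : ℕ)) s (by
      intro y hy
      have h2 : f.eval (β + r * y) = ∑ l : Fin (n + 1), (taylor β f).coeff l * r ^ (l : ℕ) *
          y ^ (l : ℕ) := by
        have h3 : f.eval (β + r * y) = (taylor β f).eval (r * y) := by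
          rw [taylor_eval, add_comm]
        rw [h3, Polynomial.eval_eq_sum_range' (n := n + 1) (by
          rw [natDegree_taylor]; omega), Finset.sum_range]
        apply Finset.sum_congr rfl
        intro l _
        rw [mul_pow]
        ring
      rw [← h2]
      apply hs
      constructor
      · nlinarith [hy.1]
      · nlinarith [hy.2]) ⟨j, hj⟩
    simp only at h1
    rwa [abs_mul, abs_of_pos (by positivity : 0 < r ^ j)] at h1
  · rw [Polynomial.coeff_eq_zero_of_natDegree_lt (by rw [natDegree_taylor]; omega), abs_zero,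
      zero_mul]
    positivity

/-- The interpolation inequality. -/
theorem poly_interp (n : ℕ) : ∃ C : ℝ, 1 ≤ C ∧ ∀ (τ : ℝ), 1 ≤ τ → ∀ (f : ℝ[X]),
    f.natDegree ≤ n → ∀ A : ℝ, (∀ l, |f.coeff l| ≤ A) → ∀ β R : ℝ, |β| ≤ 2 → 0 < R →
    ∀ x, |x - β| ≤ R → ∀ s, (∀ y ∈ Icc (β + R ^ τ / 2) (β + R ^ τ), |f.eval y| ≤ s) →
    |f.eval x| ≤ C * A ^ (1 - 1 / τ) * s ^ (1 / τ) := by
  obtain ⟨C2, hC2, hC2'⟩ := exists_taylor_bound n
  set C1 : ℝ := (n + 1) * 4 ^ n with hC1def
  have hC1 : 1 ≤ C1 := by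
    have h1 : (1 : ℝ) ≤ 4 ^ n := one_le_pow₀ (by norm_num)
    have h2 : (0 : ℝ) ≤ n := Nat.cast_nonneg n
    rw [hC1def]
    nlinarith
  refine ⟨(n + 1) * (C1 * C2), ?_, ?_⟩
  · have h2 : (0 : ℝ) ≤ n := Nat.cast_nonneg n
    have h3 : 1 ≤ C1 * C2 := by nlinarith
    nlinarith
  intro τ hτ f hf A hA β R hβ hR x hx s hs
  have hA0 : 0 ≤ A := (abs_nonneg _).trans (hA 0)
  have hr : 0 < R ^ τ := Real.rpow_pos_of_pos hR τ
  have hs0 : 0 ≤ s := (abs_nonneg _).trans (hs (β + R ^ τ) ⟨by linarith, le_rfl⟩)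
  have hτ0 : 0 < τ := by linarith
  have hτ1 : 0 ≤ 1 - 1 / τ := by
    rw [sub_nonneg, div_le_one hτ0]
    exact hτ
  have hτ2 : 0 ≤ 1 / τ := by positivity
  have hτ3 : 1 / τ ≤ 1 := by linarith
  have hcoef : ∀ j, |(taylor β f).coeff j| * R ^ j ≤ C1 * C2 * (A ^ (1 - 1 / τ) * s ^ (1 / τ)) := by
    intro j
    set c := |(taylor β f).coeff j| with hc
    have hc0 : 0 ≤ c := abs_nonneg _
    have h1 : c ≤ C1 * A := taylor_coeff_bound n f hf A hA β hβ j
    have h2 : c * (R ^ τ) ^ j ≤ C2 * s := hC2' f hf β (R ^ τ) s hr hs j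
    have h3 : R ^ j = ((R ^ τ) ^ j) ^ (1 / τ) := by
      rw [← Real.rpow_natCast (R ^ τ) j, ← Real.rpow_mul hR.le, ← Real.rpow_mul hR.le,
        ← Real.rpow_natCast R j]
      congr 1
      field_simp
    have h4 : c * R ^ j = c ^ (1 - 1 / τ) * (c * (R ^ τ) ^ j) ^ (1 / τ) := by
      rw [Real.mul_rpow hc0 (by positivity), ← mul_assoc, ← h3]
      congr 1
      rw [← Real.rpow_add_of_nonneg hc0 hτ1 hτ2]
      rw [sub_add_cancel, Real.rpow_one]
    rw [h4]
    calc c ^ (1 - 1 / τ) * (c * (R ^ τ) ^ j) ^ (1 / τ)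
        ≤ (C1 * A) ^ (1 - 1 / τ) * (C2 * s) ^ (1 / τ) := by
          apply mul_le_mul
          · exact Real.rpow_le_rpow hc0 h1 hτ1
          · exact Real.rpow_le_rpow (by positivity) h2 hτ2
          · positivity
          · positivity
      _ = (C1 ^ (1 - 1 / τ) * C2 ^ (1 / τ)) * (A ^ (1 - 1 / τ) * s ^ (1 / τ)) := by
          rw [Real.mul_rpow (by linarith) hA0, Real.mul_rpow (by linarith) hs0]
          ring
      _ ≤ C1 * C2 * (A ^ (1 - 1 / τ) * s ^ (1 / τ)) := by
          apply mul_le_mul_of_nonneg_right _ (by positivity)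
          apply mul_le_mul
          · calc C1 ^ (1 - 1 / τ) ≤ C1 ^ (1 : ℝ) :=
                  Real.rpow_le_rpow_of_exponent_le hC1 (by linarith)
              _ = C1 := Real.rpow_one _
          · calc C2 ^ (1 / τ) ≤ C2 ^ (1 : ℝ) :=
                  Real.rpow_le_rpow_of_exponent_le hC2 hτ3
              _ = C2 := Real.rpow_one _
          · positivity
          · positivity
  have hev : f.eval x = ∑ j ∈ Finset.range (n + 1), (taylor β f).coeff j * (x - β) ^ j := by
    have h3 : f.eval x = (taylor β f).eval (x - β) := by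
      rw [taylor_eval]; congr 1; ring
    rw [h3, Polynomial.eval_eq_sum_range' (n := n + 1) (by rw [natDegree_taylor]; omega)]
  rw [hev]
  calc |∑ j ∈ Finset.range (n + 1), (taylor β f).coeff j * (x - β) ^ j|
      ≤ ∑ j ∈ Finset.range (n + 1), |(taylor β f).coeff j * (x - β) ^ j| :=
        Finset.abs_sum_le_sum_abs _ _
    _ ≤ ∑ _j ∈ Finset.range (n + 1), C1 * C2 * (A ^ (1 - 1 / τ) * s ^ (1 / τ)) := by
        apply Finset.sum_le_sum
        intro j _
        rw [abs_mul, abs_pow]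
        refine le_trans ?_ (hcoef j)
        apply mul_le_mul_of_nonneg_left _ (abs_nonneg _)
        exact pow_le_pow_left₀ (abs_nonneg _) hx j
    _ = (n + 1) * (C1 * C2) * A ^ (1 - 1 / τ) * s ^ (1 / τ) := by
        rw [Finset.sum_const, Finset.card_range, nsmul_eq_mul]
        push_cast
        ring

end Pool.Agent.Lib_helper71.Normal
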