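import Mathlib

/-!
The abstract part of the quantitative nondivergence theorem of Kleinbock and Margulis, for
families of functions on a real interval indexed by a partially ordered set with chains of
bounded length.
-/

set_option autoImplicit false

namespace Pool.Agent.Lib_helper71.Normal

open MeasureTheory Metric Set

/-- `V` is comparable with all elements of `F`. -/
def Comp {P : Type*} [PartialOrder P] (F : Finset P) (V : P) : Prop := ∀ U ∈ F, U ≤ V ∨ V ≤ U

/-- `x` is marked relative to the chain `F`. -/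
def Marked {P : Type*} [PartialOrder P] (ψ : P → ℝ → ℝ) (ε : ℝ) (F : Finset P) (x : ℝ) : Prop :=
  ∃ F' : Finset P, F ⊆ F' ∧ IsChain (· ≤ ·) (F' : Set P) ∧
    (∀ V ∈ F', V ∉ F → ε ≤ ψ V x ∧ ψ V x ≤ 1) ∧ ∀ V, V ∉ F' → Comp F' V → 1 ≤ ψ V x

/-- The constants of the theorem. -/
noncomputable def cK : ℕ → ℝ
  | 0 => 0
  | j + 1 => 4 * (Besicovitch.multiplicity ℝ : ℝ) * (cK j + 1)

lemma cK_nonneg (j : ℕ) : 0 ≤ cK j := by
  induction j with
  | zero => simp [cK]
  | succ j ih => unfold cK; positivity

lemma isChain_insert {P : Type*} [PartialOrder P] [DecidableEq P] (F : Finset P)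
    (hF : IsChain (· ≤ ·) (F : Set P)) (V : P) (hV : Comp F V) :
    IsChain (· ≤ ·) ((insert V F : Finset P) : Set P) := by
  rw [Finset.coe_insert]
  apply hF.insert
  intro U hU _
  exact (hV U hU).symm

/-- A covering lemma: a family of intervals centred at the points of `E ⊆ [a, b]`. -/
lemma cover_bound (a b : ℝ) (hab : a < b) (E : Set ℝ) (hE : E ⊆ Icc a b) (r : E → ℝ)
    (hr0 : ∀ x, 0 < r x) (hrb : ∀ x, r x ≤ b - a) (C : ℝ) (hC : 0 ≤ C)
    (h : ∀ x : E, volume (E ∩ ball (x : ℝ) (r x)) ≤ ENNReal.ofReal (C * (4 * r x))) :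
    volume E ≤ ENNReal.ofReal (4 * (Besicovitch.multiplicity ℝ : ℝ) * C * (b - a)) := by
  classical
  let q : Besicovitch.BallPackage E ℝ :=
    { c := fun x => x, r := r, rpos := hr0, r_bound := b - a, r_le := hrb }
  obtain ⟨s, hs1, hs2⟩ := Besicovitch.exist_disjoint_covering_families
    (Besicovitch.one_lt_goodτ ℝ) (Besicovitch.isEmpty_satelliteConfig_multiplicity ℝ) q
  have hcount : ∀ i, (s i).Countable := by
    intro i
    apply (hs1 i).countable_of_nonempty_interior
    intro x _
    refine ⟨x, ?_⟩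
    rw [mem_interior_iff_mem_nhds]
    exact closedBall_mem_nhds _ (hr0 x)
  have hsub : E ⊆ ⋃ i : Fin (Besicovitch.multiplicity ℝ), ⋃ x ∈ s i, E ∩ ball (x : ℝ) (r x) := by
    intro x hx
    have h1 : x ∈ range q.c := ⟨⟨x, hx⟩, rfl⟩
    have h2 := hs2 h1
    simp only [mem_iUnion] at h2 ⊢
    obtain ⟨i, y, hy, hxy⟩ := h2
    exact ⟨i, y, hy, hx, hxy⟩
  have hJ : ∀ x : E, ENNReal.ofReal (r x) ≤ volume (Icc a b ∩ closedBall (x : ℝ) (r x)) := by
    intro x
    have hx := hE x.2
    have h1 : Icc a b ∩ closedBall (x : ℝ) (r x) = Icc (max a (x - r x)) (min b (x + r x)) := by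
      rw [Real.closedBall_eq_Icc, Icc_inter_Icc]
    rw [h1, Real.volume_Icc]
    apply ENNReal.ofReal_le_ofReal
    have h2 := hrb x
    have h3 := hr0 x
    rcases le_total a (x - r x) with h4 | h4 <;> rcases le_total b (x + r x) with h5 | h5
    · rw [max_eq_right h4, min_eq_left h5]; linarith [hx.1, hx.2]
    · rw [max_eq_right h4, min_eq_right h5]; linarith [hx.1, hx.2]
    · rw [max_eq_left h4, min_eq_left h5]; linarith [hx.1, hx.2]
    · rw [max_eq_left h4, min_eq_right h5]; linarith [hx.1, hx.2]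
  have hone : ∀ i, volume (⋃ x ∈ s i, E ∩ ball (x : ℝ) (r x)) ≤
      ENNReal.ofReal (4 * C * (b - a)) := by
    intro i
    calc volume (⋃ x ∈ s i, E ∩ ball (x : ℝ) (r x))
        ≤ ∑' x : s i, volume (E ∩ ball ((x : E) : ℝ) (r x)) := measure_biUnion_le _ (hcount i) _
      _ ≤ ∑' x : s i, ENNReal.ofReal (4 * C) *
            volume (Icc a b ∩ closedBall ((x : E) : ℝ) (r x)) := by
          apply ENNReal.tsum_le_tsum
          intro x
          refine (h x).trans ?_
          have : C * (4 * r x) = (4 * C) * r x := by ring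
          rw [this, ENNReal.ofReal_mul (by positivity)]
          exact mul_le_mul_right (hJ x) _
      _ = ENNReal.ofReal (4 * C) * ∑' x : s i,
            volume (Icc a b ∩ closedBall ((x : E) : ℝ) (r x)) := ENNReal.tsum_mul_left
      _ = ENNReal.ofReal (4 * C) *
            volume (⋃ x ∈ s i, Icc a b ∩ closedBall (x : ℝ) (r x)) := by
          rw [measure_biUnion (hcount i)]
          · intro x hx y hy hxy
            exact (hs1 i hx hy hxy).mono inter_subset_right inter_subset_right
          · intro x _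
            exact measurableSet_Icc.inter measurableSet_closedBall
      _ ≤ ENNReal.ofReal (4 * C) * volume (Icc a b) := by
          gcongr
          exact iUnion₂_subset fun x _ => inter_subset_left
      _ = ENNReal.ofReal (4 * C * (b - a)) := by
          rw [Real.volume_Icc, ← ENNReal.ofReal_mul (by positivity)]
  calc volume E ≤ volume (⋃ i : Fin (Besicovitch.multiplicity ℝ),
        ⋃ x ∈ s i, E ∩ ball (x : ℝ) (r x)) := measure_mono hsub
    _ ≤ ∑ i : Fin (Besicovitch.multiplicity ℝ), volume (⋃ x ∈ s i, E ∩ ball (x : ℝ) (r x)) :=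
        measure_iUnion_fintype_le _ _
    _ ≤ ∑ _i : Fin (Besicovitch.multiplicity ℝ), ENNReal.ofReal (4 * C * (b - a)) :=
        Finset.sum_le_sum fun i _ => hone i
    _ = ENNReal.ofReal (4 * (Besicovitch.multiplicity ℝ : ℝ) * C * (b - a)) := by
        rw [Finset.sum_const, Finset.card_univ, Fintype.card_fin, nsmul_eq_mul,
          ← ENNReal.ofReal_natCast, ← ENNReal.ofReal_mul (by positivity)]
        congr 1
        ring

theorem km_abstract {P : Type*} [PartialOrder P] (ψ : P → ℝ → ℝ) (hc : ∀ V, Continuous (ψ V))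
    (ε κ : ℝ) (hκ : 0 ≤ κ)
    (good : ∀ V a b, a < b → (∃ y ∈ Icc a b, 1 ≤ ψ V y) →
      volume {x ∈ Icc a b | ψ V x < ε} ≤ ENNReal.ofReal (κ * (b - a)))
    (m : ℕ) (hchain : ∀ F : Finset P, IsChain (· ≤ ·) (F : Set P) → F.card ≤ m) :
    ∀ (j : ℕ) (F : Finset P), IsChain (· ≤ ·) (F : Set P) → F.card + j = m → ∀ a b, a < b →
      (∀ V, V ∉ F → Comp F V → ∃ y ∈ Icc a b, 1 ≤ ψ V y) →
      volume {x ∈ Icc a b | ¬ Marked ψ ε F x} ≤ ENNReal.ofReal (cK j * κ * (b - a)) := by
  classical
  intro j
  induction j with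
  | zero =>
    intro F hF hcard a b hab _
    have : {x ∈ Icc a b | ¬ Marked ψ ε F x} = ∅ := by
      rw [Set.eq_empty_iff_forall_notMem]
      rintro x ⟨_, hx⟩
      apply hx
      refine ⟨F, subset_rfl, hF, fun V hV hV' => absurd hV hV', ?_⟩
      intro V hV hVc
      exfalso
      have h1 := hchain (insert V F) (isChain_insert F hF V hVc)
      rw [Finset.card_insert_of_notMem hV] at h1
      omega
    rw [this]
    simp
  | succ j ih =>
    intro F hF hcard a b hab hsup
    set E := {x ∈ Icc a b | ¬ Marked ψ ε F x} with hE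
    let K : P → Set ℝ := fun V => {y ∈ Icc a b | 1 ≤ ψ V y}
    have hKclosed : ∀ V, IsClosed (K V) := fun V =>
      isClosed_Icc.inter (isClosed_le continuous_const (hc V))
    have hKne : ∀ V, V ∉ F → Comp F V → (K V).Nonempty := by
      intro V hV hVc
      obtain ⟨y, hy, hy1⟩ := hsup V hV hVc
      exact ⟨y, hy, hy1⟩
    have hmain : ∀ x : E, ∃ V, V ∉ F ∧ Comp F V ∧ ψ V x < 1 ∧
        ∀ U, U ∉ F → Comp F U → ψ U x < 1 → infDist (x : ℝ) (K U) < 2 * infDist (x : ℝ) (K V) := by
      rintro ⟨x, hx⟩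
      have hxab : x ∈ Icc a b := hx.1
      have hex : ∃ V, V ∉ F ∧ Comp F V ∧ ψ V x < 1 := by
        by_contra hcon
        push Not at hcon
        exact hx.2 ⟨F, subset_rfl, hF, fun V hV hV' => absurd hV hV', hcon⟩
      let D : Set ℝ := {t | ∃ V, V ∉ F ∧ Comp F V ∧ ψ V x < 1 ∧ t = infDist x (K V)}
      have hDne : D.Nonempty := by
        obtain ⟨V, h1, h2, h3⟩ := hex
        exact ⟨_, V, h1, h2, h3, rfl⟩
      have hDb : BddAbove D := by
        refine ⟨b - a, ?_⟩
        rintro t ⟨V, h1, h2, h3, rfl⟩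
        obtain ⟨y, hy⟩ := hKne V h1 h2
        refine (infDist_le_dist_of_mem hy).trans ?_
        rw [Real.dist_eq, abs_le]
        have := hy.1
        constructor <;> linarith [hxab.1, hxab.2, this.1, this.2]
      have hpos : 0 < sSup D := by
        obtain ⟨V, h1, h2, h3⟩ := hex
        have h4 : 0 < infDist x (K V) := by
          rw [← (hKclosed V).notMem_iff_infDist_pos (hKne V h1 h2)]
          intro h5
          exact absurd h5.2 (not_le.mpr h3)
        exact lt_of_lt_of_le h4 (le_csSup hDb ⟨V, h1, h2, h3, rfl⟩)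
      obtain ⟨t, ⟨V, h1, h2, h3, rfl⟩, ht⟩ := exists_lt_of_lt_csSup hDne
        (show sSup D / 2 < sSup D by linarith)
      refine ⟨V, h1, h2, h3, ?_⟩
      intro U hU1 hU2 hU3
      have h4 : infDist x (K U) ≤ sSup D := le_csSup hDb ⟨U, hU1, hU2, hU3, rfl⟩
      show infDist x (K U) < 2 * infDist x (K V)
      linarith
    choose W hW1 hW2 hW3 hW4 using hmain
    let r : E → ℝ := fun x => infDist (x : ℝ) (K (W x))
    have hr0 : ∀ x, 0 < r x := by
      intro x
      have : (x : ℝ) ∉ K (W x) := fun h5 => absurd h5.2 (not_le.mpr (hW3 x))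
      exact ((hKclosed _).notMem_iff_infDist_pos (hKne _ (hW1 x) (hW2 x))).mp this
    have hrb : ∀ x, r x ≤ b - a := by
      intro x
      obtain ⟨y, hy⟩ := hKne _ (hW1 x) (hW2 x)
      refine (infDist_le_dist_of_mem hy).trans ?_
      rw [Real.dist_eq, abs_le]
      have h1 := hy.1
      have h2 := x.2.1
      constructor <;> linarith [h2.1, h2.2, h1.1, h1.2]
    have hcK := cK_nonneg j
    have hfin := cover_bound a b hab E (fun x hx => hx.1) r hr0 hrb ((cK j + 1) * κ)
      (by positivity) ?_
    · refine hfin.trans (le_of_eq ?_)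
      congr 1
      show _ = (4 * (Besicovitch.multiplicity ℝ : ℝ) * (cK j + 1)) * κ * (b - a)
      ring
    · intro x
      have hxab : (x : ℝ) ∈ Icc a b := x.2.1
      have hrx := hr0 x
      set a' := max a (x - 2 * r x) with ha'
      set b' := min b (x + 2 * r x) with hb'
      have hab' : a' < b' := by
        rw [ha', hb', max_lt_iff, lt_min_iff, lt_min_iff]
        refine ⟨⟨hab, ?_⟩, ?_, ?_⟩ <;> linarith [hxab.1, hxab.2]
      have hxab' : (x : ℝ) ∈ Icc a' b' := by
        constructor
        · rw [ha', max_le_iff]; exact ⟨hxab.1, by linarith⟩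
        · rw [hb', le_min_iff]; exact ⟨hxab.2, by linarith⟩
      have hlen : b' - a' ≤ 4 * r x := by
        have h1 : b' ≤ x + 2 * r x := min_le_right _ _
        have h2 : x - 2 * r x ≤ a' := le_max_right _ _
        linarith
      have hnear : ∀ U, (K U).Nonempty → infDist (x : ℝ) (K U) < 2 * r x →
          ∃ y ∈ Icc a' b', 1 ≤ ψ U y := by
        intro U hUne hU
        obtain ⟨y, hy, hxy⟩ := (infDist_lt_iff hUne).mp hU
        rw [Real.dist_eq, abs_lt] at hxy
        refine ⟨y, ⟨?_, ?_⟩, hy.2⟩
        · rw [ha', max_le_iff]; exact ⟨hy.1.1, by linarith⟩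
        · rw [hb', le_min_iff]; exact ⟨hy.1.2, by linarith⟩
      have hsub : E ∩ ball (x : ℝ) (r x) ⊆
          {y ∈ Icc a' b' | ¬ Marked ψ ε (insert (W x) F) y} ∪
          {y ∈ Icc a' b' | ψ (W x) y < ε} := by
        rintro y ⟨hyE, hyx⟩
        rw [mem_ball, Real.dist_eq] at hyx
        have hyx' := abs_lt.mp hyx
        have hyab : y ∈ Icc a b := hyE.1
        have hyab' : y ∈ Icc a' b' := by
          constructor
          · rw [ha', max_le_iff]; exact ⟨hyab.1, by linarith⟩
          · rw [hb', le_min_iff]; exact ⟨hyab.2, by linarith⟩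
        by_cases h1 : ψ (W x) y < ε
        · exact Or.inr ⟨hyab', h1⟩
        · left
          refine ⟨hyab', ?_⟩
          rintro ⟨F', hF1, hF2, hF3, hF4⟩
          apply hyE.2
          refine ⟨F', (Finset.subset_insert _ _).trans hF1, hF2, ?_, hF4⟩
          intro V hV hVF
          by_cases hVW : V = W x
          · rw [hVW]
            refine ⟨not_lt.mp h1, ?_⟩
            by_contra h2
            push Not at h2
            have h3 : y ∈ K (W x) := ⟨hyab, h2.le⟩
            have h4 := infDist_le_dist_of_mem (x := (x : ℝ)) h3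
            rw [Real.dist_eq, abs_sub_comm] at h4
            exact absurd hyx (not_lt.mpr h4)
          · exact hF3 V hV (by rw [Finset.mem_insert]; push Not; exact ⟨hVW, hVF⟩)
      have h1 : volume {y ∈ Icc a' b' | ¬ Marked ψ ε (insert (W x) F) y} ≤
          ENNReal.ofReal (cK j * κ * (b' - a')) := by
        apply ih (insert (W x) F) (isChain_insert F hF _ (hW2 x))
        · rw [Finset.card_insert_of_notMem (hW1 x)]; omega
        · exact hab'
        · intro V hV hVc
          rw [Finset.mem_insert] at hV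
          push Not at hV
          have hVc' : Comp F V := fun U hU => hVc U (Finset.mem_insert_of_mem hU)
          by_cases h2 : ψ V x < 1
          · exact hnear V (hKne V hV.2 hVc') (hW4 x V hV.2 hVc' h2)
          · exact ⟨x, hxab', not_lt.mp h2⟩
      have h2 : volume {y ∈ Icc a' b' | ψ (W x) y < ε} ≤ ENNReal.ofReal (κ * (b' - a')) := by
        apply good (W x) a' b' hab'
        apply hnear (W x) (hKne _ (hW1 x) (hW2 x))
        show r x < 2 * r x
        linarith
      have hba' : 0 ≤ b' - a' := by linarith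
      calc volume (E ∩ ball (x : ℝ) (r x)) ≤ _ := measure_mono hsub
        _ ≤ _ := measure_union_le _ _
        _ ≤ ENNReal.ofReal (cK j * κ * (b' - a')) + ENNReal.ofReal (κ * (b' - a')) :=
            add_le_add h1 h2
        _ = ENNReal.ofReal ((cK j + 1) * κ * (b' - a')) := by
            rw [← ENNReal.ofReal_add (by positivity) (by positivity)]
            congr 1
            ring
        _ ≤ ENNReal.ofReal ((cK j + 1) * κ * (4 * r x)) := by
            apply ENNReal.ofReal_le_ofReal
            exact mul_le_mul_of_nonneg_left hlen (by positivity)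

end Pool.Agent.Lib_helper71.Normal
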