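import Pool.Agent.Lib_helper71.Normal.Lower

/-!
On a fixed interval the sizes of all rational subspaces are at least one somewhere, for all large
parameters.
-/

set_option autoImplicit false

namespace Pool.Agent.Lib_helper71.Normal

open Matrix Module Polynomial Set

/-- A polynomial with a coefficient of absolute value at least one is not small on an interval. -/
lemma exists_large_value (n : ℕ) (a b : ℝ) (hab : a < b) (ha : |a| ≤ 2) :
    ∃ c : ℝ, 0 < c ∧ ∀ f : ℝ[X], f.natDegree ≤ n → (∃ l, 1 ≤ |f.coeff l|) →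
      ∃ y ∈ Icc a b, c ≤ |f.eval y| := by
  obtain ⟨C, hC1, hC⟩ := exists_taylor_bound n
  set r := b - a with hr
  have hr0 : 0 < r := by rw [hr]; linarith
  set ρ := min 1 r with hρ
  have hρ0 : 0 < ρ := lt_min one_pos hr0
  have hρ1 : ρ ≤ 1 := min_le_left _ _
  refine ⟨ρ ^ n / (2 * (C * ((n + 1) * 4 ^ n))), by positivity, ?_⟩
  intro f hf ⟨l, hl⟩
  by_contra hcon
  push Not at hcon
  set s := ρ ^ n / (2 * (C * ((n + 1) * 4 ^ n))) with hs
  have hs0 : 0 < s := by positivity
  have h1 : ∀ j, |(taylor a f).coeff j| ≤ C * s / ρ ^ n := by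
    intro j
    by_cases hj : j ≤ n
    · have h2 := hC f hf a r s hr0 (fun y hy => (hcon y ⟨by linarith [hy.1], by
        have := hy.2; rw [hr] at this; linarith⟩).le) j
      have h3 : ρ ^ n ≤ r ^ j := by
        calc ρ ^ n ≤ ρ ^ j := pow_le_pow_of_le_one hρ0.le hρ1 hj
          _ ≤ r ^ j := pow_le_pow_left₀ hρ0.le (min_le_right _ _) j
      rw [le_div_iff₀ (by positivity)]
      exact (mul_le_mul_of_nonneg_left h3 (abs_nonneg _)).trans h2
    · rw [Polynomial.coeff_eq_zero_of_natDegree_lt (by rw [natDegree_taylor]; omega), abs_zero]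
      positivity
  have h2 := taylor_coeff_bound n (taylor a f) (by rw [natDegree_taylor]; exact hf)
    (C * s / ρ ^ n) h1 (-a) (by rw [abs_neg]; exact ha) l
  rw [taylor_taylor, neg_add_cancel, taylor_zero] at h2
  have h3 : ((n : ℝ) + 1) * 4 ^ n * (C * s / ρ ^ n) = 1 / 2 := by
    rw [hs]
    field_simp
  rw [h3] at h2
  linarith

theorem psi_large (n : ℕ) (a b : ℝ) (hab : a < b) (ha : |a| ≤ 2) :
    ∃ Q1 : ℝ, 1 ≤ Q1 ∧ ∀ Q : ℝ, Q1 ≤ Q → ∀ V : Submodule ℚ (Fin (n + 1) → ℚ), V ≠ ⊥ →
      ∃ y ∈ Icc a b, 1 ≤ psi (hQ n Q) V y := by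
  obtain ⟨c, hc0, hc⟩ := exists_large_value n a b hab ha
  refine ⟨max 1 (1 / c), le_max_left _ _, ?_⟩
  intro Q hQge V hV
  have hQ1 : 1 ≤ Q := (le_max_left _ _).trans hQge
  have hQc : 1 / c ≤ Q := (le_max_right _ _).trans hQge
  have hQ0 : 0 < Q := by linarith
  set k := finrank ℚ V with hk
  have hk0 : 0 < k := by
    rw [hk]
    exact Nat.pos_of_ne_zero fun h => hV (Submodule.finrank_eq_zero.mp h)
  have hkn : k ≤ n + 1 := by
    have := Submodule.finrank_le V
    rwa [finrank_fin_fun] at this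
  set B := bV V with hB
  obtain ⟨S, hS⟩ := exists_minor_ne_zero _ (bV_tuple V).1
  have hS' : minor B S ≠ 0 := by
    intro h0
    apply hS
    rw [← minor_cast, h0, Int.cast_zero]
  have hS1 : (1 : ℝ) ≤ |((minor B S : ℤ) : ℝ)| := by
    rw [← Int.cast_abs]
    exact_mod_cast Int.one_le_abs hS'
  -- it suffices to bound the first coordinate
  suffices h : ∃ y ∈ Icc a b, Q ^ k ≤ Q ^ (n + 1) * FF B y by
    obtain ⟨y, hy, hy1⟩ := h
    refine ⟨y, hy, ?_⟩
    unfold psi
    rw [nu_hQ hk0 _ Q hQ0 y]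
    calc (1 : ℝ) = (Q⁻¹) ^ k * Q ^ k := by
          rw [← mul_pow, inv_mul_cancel₀ hQ0.ne', one_pow]
      _ ≤ (Q⁻¹) ^ k * max (intNu (bV V) : ℝ) (Q ^ (n + 1) * FF (bV V) y) :=
          mul_le_mul_of_nonneg_left (le_max_of_le_right hy1) (by positivity)
  by_cases hkn' : k = n + 1
  · -- the whole space
    have hinj : Function.Injective S := by
      intro i j hij
      by_contra hne
      apply hS'
      unfold minor
      apply Matrix.det_zero_of_column_eq hne
      intro l
      simp [hij]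
    have hbij : Function.Bijective S := by
      rw [Fintype.bijective_iff_injective_and_card]
      refine ⟨hinj, ?_⟩
      rw [Fintype.card_fin, Fintype.card_fin]
      exact hkn'
    obtain ⟨j0, hj0⟩ := hbij.2 0
    refine ⟨a, ⟨le_rfl, hab.le⟩, ?_⟩
    have h1 : (gp B S j0).eval a = ((minor B S : ℤ) : ℝ) := by
      rw [gp_eval, Finset.sum_eq_single 0]
      · have h2 : Function.update S j0 0 = S := by
          rw [← hj0]; exact Function.update_eq_self _ _
        rw [h2]
        simp
      · intro l _ hl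
        obtain ⟨j1, hj1⟩ := hbij.2 l
        have hne : j1 ≠ j0 := by
          rintro rfl
          exact hl (hj1.symm.trans hj0)
        have h2 : minor B (Function.update S j0 l) = 0 := by
          unfold minor
          apply Matrix.det_zero_of_column_eq hne
          intro i
          simp [Function.update_of_ne hne, hj1]
        rw [h2]
        simp
      · simp
    have h2 := abs_gp_le_FF B S j0 a
    rw [h1] at h2
    rw [hkn']
    have h3 : (0 : ℝ) < Q ^ (n + 1) := by positivity
    nlinarith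
  · have hkn2 : k ≤ n := by omega
    set j0 : Fin k := ⟨0, hk0⟩ with hj0
    have h1 : (1 : ℝ) ≤ |(gp B S j0).coeff (S j0)| := by
      rw [gp_coeff, Function.update_eq_self]
      exact hS1
    obtain ⟨y, hy, hy1⟩ := hc (gp B S j0) (gp_natDegree B S j0) ⟨_, h1⟩
    refine ⟨y, hy, ?_⟩
    have h2 : c ≤ FF B y := hy1.trans (abs_gp_le_FF B S j0 y)
    have h3 : 1 ≤ Q * FF B y := by
      calc (1 : ℝ) = (1 / c) * c := by field_simp
        _ ≤ Q * FF B y := mul_le_mul hQc h2 hc0.le hQ0.le
    calc Q ^ k ≤ Q ^ n := pow_le_pow_right₀ hQ1 hkn2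
      _ = Q ^ n * 1 := (mul_one _).symm
      _ ≤ Q ^ n * (Q * FF B y) := mul_le_mul_of_nonneg_left h3 (by positivity)
      _ = Q ^ (n + 1) * FF B y := by rw [pow_succ]; ring

end Pool.Agent.Lib_helper71.Normal
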