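import Pool.Agent.Lib_helper71.Normal.Hq
import Pool.Agent.Lib_helper71.Normal.Interp

/-!
Lower bounds for the sizes of rational subspaces on small intervals.
-/

set_option autoImplicit false

namespace Pool.Agent.Lib_helper71.Normal

open Matrix Module Polynomial Set

lemma one_le_intNu {m : ℕ} (V : Submodule ℚ (Fin m → ℚ)) : 1 ≤ intNu (bV V) := by
  obtain ⟨S0, hS0⟩ := exists_minor_ne_zero _ (bV_tuple V).1
  refine le_trans ?_ (le_intNu (bV V) S0)
  rw [Nat.one_le_iff_ne_zero, Int.natAbs_ne_zero]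
  intro h0
  apply hS0
  rw [← minor_cast, h0, Int.cast_zero]

lemma sum_ne_zero_of_tuple {m k : ℕ} {V : Submodule ℚ (Fin m → ℚ)} (b : Fin k → Fin m → ℤ)
    (hb : IsTuple V b) (z : Fin k → ℤ) (hz : z ≠ 0) : (fun s => ∑ i, z i * b i s) ≠ 0 := by
  intro h0
  apply hz
  have h1 := Fintype.linearIndependent_iff.mp hb.1 (fun i => (z i : ℚ)) (by
    funext s
    have h2 := congrFun h0 s
    rw [Finset.sum_apply]
    simp only [Pi.smul_apply, smul_eq_mul, cQ, Pi.zero_apply] at h2 ⊢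
    have h3 : ((∑ i, z i * b i s : ℤ) : ℚ) = 0 := by rw [h2]; simp
    push_cast at h3
    exact h3)
  funext i
  have := h1 i
  simpa using this

/-- The lower bound for the size of subspaces on `[β + r/2, β + r]`, `r = R ^ τ`, where `x` is a
point with good lower bounds and `|x - β| ≤ R`. -/
theorem psi_lower (n : ℕ) (τ η : ℝ) (hτ : 1 ≤ τ) (hη : 0 ≤ η) (hη1 : η ≤ 1) (T : ℕ) :
    ∃ c' : ℝ, 0 < c' ∧ ∀ x, (∀ t ≥ T, Dlb n 1 η t x) → ∀ β R : ℝ, |β| ≤ 2 → 0 < R →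
      |x - β| ≤ R → ∀ Q : ℝ, 1 ≤ Q → ∀ V : Submodule ℚ (Fin (n + 1) → ℚ), V ≠ ⊥ →
      ∃ y ∈ Icc (β + R ^ τ / 2) (β + R ^ τ),
        (c' * Q ^ (-(1 - (1 - η) / τ))) ^ (finrank ℚ V) ≤ psi (hQ n Q) V y := by
  obtain ⟨C, hC1, hC⟩ := poly_interp n
  set K : ℝ := (((2 : ℝ) ^ (T + 1)) ^ (n + 1) * C) ^ τ with hK
  have hτ0 : 0 < τ := by linarith
  have hK1 : 1 ≤ K := by
    apply Real.one_le_rpow _ hτ0.le
    have h1 : (1 : ℝ) ≤ ((2 : ℝ) ^ (T + 1)) ^ (n + 1) := one_le_pow₀ (one_le_pow₀ (by norm_num))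
    nlinarith
  refine ⟨1 / (K * (n + 1)), by positivity, ?_⟩
  intro x hx β R hβ hR hxβ Q hQge V hV
  set k := finrank ℚ V with hk
  have hk0 : 0 < k := by
    rw [hk]
    exact Nat.pos_of_ne_zero fun h => hV (Submodule.finrank_eq_zero.mp h)
  have hkn : k ≤ n + 1 := by
    have := Submodule.finrank_le V
    rwa [finrank_fin_fun] at this
  have hkR : (0 : ℝ) < k := by exact_mod_cast hk0
  have hkR1 : (k : ℝ) ≤ n + 1 := by exact_mod_cast hkn
  set b := bV V with hb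
  have hA1 : (1 : ℝ) ≤ intNu b := by exact_mod_cast one_le_intNu V
  have hQ0 : 0 < Q := by linarith
  set u : ℝ := (1 - η) / τ with hu
  have hu0 : 0 ≤ u := div_nonneg (by linarith) hτ0.le
  have hr : 0 < R ^ τ := Real.rpow_pos_of_pos hR τ
  -- it suffices to bound the maximum
  suffices h : ∃ y ∈ Icc (β + R ^ τ / 2) (β + R ^ τ),
      (1 / (K * (n + 1)) * Q ^ u) ^ k ≤ max (intNu b : ℝ) (Q ^ (n + 1) * FF b y) by
    obtain ⟨y, hy, hy1⟩ := h
    refine ⟨y, hy, ?_⟩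
    unfold psi
    rw [nu_hQ hk0 _ Q hQ0 y]
    calc (1 / (K * (n + 1)) * Q ^ (-(1 - u))) ^ k
        = (Q⁻¹) ^ k * (1 / (K * (n + 1)) * Q ^ u) ^ k := by
          rw [← mul_pow]
          congr 1
          rw [show -(1 - u) = u + (-1) by ring, Real.rpow_add hQ0, Real.rpow_neg_one]
          ring
      _ ≤ _ := mul_le_mul_of_nonneg_left hy1 (by positivity)
  by_cases hcase : (1 / (K * (n + 1)) * Q ^ u) ^ k ≤ (intNu b : ℝ)
  · exact ⟨β + R ^ τ, ⟨by linarith, le_rfl⟩, le_max_of_le_left hcase⟩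
  push Not at hcase
  -- choice of the time
  obtain ⟨s, hs1, hs2⟩ := exists_nat_pow_near (x := Q ^ (1 / τ)) (y := (2 : ℝ))
    (Real.one_le_rpow hQge (by positivity)) (by norm_num)
  set t := T + (s + 1) with ht
  set Q' : ℝ := 2 ^ t with hQ'
  have hQ'0 : 0 < Q' := by positivity
  have hQ'1 : Q ^ (1 / τ) ≤ Q' := by
    rw [hQ', ht, pow_add]
    have : (1 : ℝ) ≤ 2 ^ T := one_le_pow₀ (by norm_num)
    nlinarith [Real.rpow_nonneg hQ0.le (1 / τ)]
  have hQ'2 : Q' ≤ 2 ^ (T + 1) * Q ^ (1 / τ) := by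
    rw [hQ', ht, show T + (s + 1) = (T + 1) + s by ring, pow_add]
    exact mul_le_mul_of_nonneg_left hs1 (by positivity)
  have hD := hx t (by omega)
  set δ : ℝ := (2 : ℝ) ^ (-(η * t)) with hδ
  have hδ0 : 0 < δ := Real.rpow_pos_of_pos (by norm_num) _
  have hnu := nu_hQ hk0 b Q' hQ'0 x
  have hnupos : 0 < nu (fun i => hQ n Q' x (cR (b i))) := by
    rw [hnu]
    exact mul_pos (by positivity) (lt_max_of_lt_left (by linarith))
  have hlow := nu_lower hk0 (by omega) (hQ n Q' x) b hnupos δ hδ0 (by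
    intro z hz
    have := hD (fun s => ∑ i, z i * b i s) (sum_ne_zero_of_tuple b (bV_tuple V) z hz)
    rwa [one_mul] at this)
  rw [hnu] at hlow
  set Y : ℝ := δ * Q' / k with hY
  have hY0 : 0 < Y := by positivity
  have hYk : Y ^ k ≤ max (intNu b : ℝ) (Q' ^ (n + 1) * FF b x) := by
    have h1 : Y ^ k = Q' ^ k * (δ / k) ^ k := by
      rw [← mul_pow]; congr 1; rw [hY]; ring
    rw [h1]
    calc Q' ^ k * (δ / k) ^ k ≤ Q' ^ k * ((Q'⁻¹) ^ k * max (intNu b : ℝ) (Q' ^ (n + 1) * FF b x)) :=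
          mul_le_mul_of_nonneg_left hlow (by positivity)
      _ = _ := by
          rw [← mul_assoc, ← mul_pow, mul_inv_cancel₀ hQ'0.ne', one_pow, one_mul]
  have hYlow : Q ^ u / (n + 1) ≤ Y := by
    have h1 : δ * Q' = Q' ^ (1 - η) := by
      rw [hδ, hQ', ← Real.rpow_natCast 2 t, ← Real.rpow_mul (by norm_num),
        ← Real.rpow_add (by norm_num)]
      congr 1; ring
    rw [hY, h1]
    apply div_le_div₀ (by positivity) _ hkR hkR1
    calc Q ^ u = (Q ^ (1 / τ)) ^ (1 - η) := by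
          rw [← Real.rpow_mul hQ0.le]; congr 1; rw [hu]; field_simp
      _ ≤ Q' ^ (1 - η) := Real.rpow_le_rpow (by positivity) hQ'1 (by linarith)
  have hcY : 1 / (K * (n + 1)) * Q ^ u ≤ (1 / K) * Y := by
    calc 1 / (K * (n + 1)) * Q ^ u = (1 / K) * (Q ^ u / (n + 1)) := by field_simp
      _ ≤ (1 / K) * Y := mul_le_mul_of_nonneg_left hYlow (by positivity)
  have hcY0 : 0 ≤ 1 / (K * (n + 1)) * Q ^ u := by positivity
  have hKinv : 1 / K ≤ 1 := by rw [div_le_one (by positivity)]; exact hK1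
  have hAY : (intNu b : ℝ) < Y ^ k := by
    refine lt_of_lt_of_le hcase (pow_le_pow_left₀ hcY0 (hcY.trans ?_) k)
    nlinarith
  have hYF : Y ^ k ≤ Q' ^ (n + 1) * FF b x := by
    rcases le_max_iff.mp hYk with h1 | h1
    · linarith
    · exact h1
  -- interpolation
  obtain ⟨S, j0, hS⟩ := exists_FF hk0 b x
  have hcont : ContinuousOn (fun y => |(gp b S j0).eval y|) (Icc (β + R ^ τ / 2) (β + R ^ τ)) :=
    (gp b S j0).continuous.abs.continuousOn
  obtain ⟨y, hy, hymax⟩ := isCompact_Icc.exists_isMaxOn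
    (nonempty_Icc.mpr (by linarith : β + R ^ τ / 2 ≤ β + R ^ τ)) hcont
  refine ⟨y, hy, le_max_of_le_right ?_⟩
  set sy : ℝ := |(gp b S j0).eval y| with hsy
  have hint := hC τ hτ (gp b S j0) (gp_natDegree b S j0) (intNu b) (gp_coeff_le b S j0) β R hβ hR
    x hxβ sy (fun z hz => hymax hz)
  rw [hS] at hint
  have hsy0 : 0 ≤ sy := abs_nonneg _
  have hτ1 : 0 ≤ 1 - 1 / τ := by
    rw [sub_nonneg, div_le_one hτ0]; exact hτ
  have h3 : Y ^ k ≤ Q' ^ (n + 1) * C * ((Y ^ k) ^ (1 - 1 / τ) * sy ^ (1 / τ)) := by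
    calc Y ^ k ≤ Q' ^ (n + 1) * FF b x := hYF
      _ ≤ Q' ^ (n + 1) * (C * (intNu b : ℝ) ^ (1 - 1 / τ) * sy ^ (1 / τ)) :=
          mul_le_mul_of_nonneg_left hint (by positivity)
      _ = Q' ^ (n + 1) * C * ((intNu b : ℝ) ^ (1 - 1 / τ) * sy ^ (1 / τ)) := by ring
      _ ≤ _ := by
          apply mul_le_mul_of_nonneg_left _ (by positivity)
          apply mul_le_mul_of_nonneg_right _ (by positivity)
          exact Real.rpow_le_rpow (by positivity) hAY.le hτ1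
  have hYk0 : 0 < Y ^ k := by positivity
  have h4 : (Y ^ k) ^ (1 / τ) ≤ Q' ^ (n + 1) * C * sy ^ (1 / τ) := by
    have h5 : (Y ^ k : ℝ) = (Y ^ k) ^ (1 - 1 / τ) * (Y ^ k) ^ (1 / τ) := by
      rw [← Real.rpow_add hYk0, sub_add_cancel, Real.rpow_one]
    have h6 : 0 < (Y ^ k) ^ (1 - 1 / τ) := Real.rpow_pos_of_pos hYk0 _
    have h7 : (Y ^ k) ^ (1 - 1 / τ) * (Y ^ k) ^ (1 / τ) ≤
        (Y ^ k) ^ (1 - 1 / τ) * (Q' ^ (n + 1) * C * sy ^ (1 / τ)) := by
      rw [← h5]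
      refine h3.trans (le_of_eq ?_)
      ring
    exact le_of_mul_le_mul_left h7 h6
  have h8 : Y ^ k ≤ (Q' ^ (n + 1) * C) ^ τ * sy := by
    have h9 := Real.rpow_le_rpow (by positivity) h4 hτ0.le
    rwa [← Real.rpow_mul hYk0.le, one_div_mul_cancel hτ0.ne', Real.rpow_one,
      Real.mul_rpow (by positivity) (by positivity), ← Real.rpow_mul hsy0,
      one_div_mul_cancel hτ0.ne', Real.rpow_one] at h9
  have h10 : (Q' ^ (n + 1) * C) ^ τ ≤ K * Q ^ (n + 1) := by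
    calc (Q' ^ (n + 1) * C) ^ τ ≤ ((2 ^ (T + 1) * Q ^ (1 / τ)) ^ (n + 1) * C) ^ τ := by
          apply Real.rpow_le_rpow (by positivity) _ hτ0.le
          apply mul_le_mul_of_nonneg_right _ (by linarith)
          exact pow_le_pow_left₀ hQ'0.le hQ'2 _
      _ = K * Q ^ (n + 1) := by
          rw [hK, mul_pow, show ((2 : ℝ) ^ (T + 1)) ^ (n + 1) * (Q ^ (1 / τ)) ^ (n + 1) * C =
            (((2 : ℝ) ^ (T + 1)) ^ (n + 1) * C) * (Q ^ (1 / τ)) ^ (n + 1) by ring,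
            Real.mul_rpow (by positivity) (by positivity)]
          congr 1
          rw [← Real.rpow_natCast (Q ^ (1 / τ)) (n + 1), ← Real.rpow_mul hQ0.le,
            ← Real.rpow_mul hQ0.le, ← Real.rpow_natCast Q (n + 1)]
          congr 1
          field_simp
  calc (1 / (K * (n + 1)) * Q ^ u) ^ k ≤ ((1 / K) * Y) ^ k := pow_le_pow_left₀ hcY0 hcY k
    _ = (1 / K) ^ k * Y ^ k := mul_pow _ _ _
    _ ≤ (1 / K) * Y ^ k := by
        apply mul_le_mul_of_nonneg_right _ hYk0.le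
        calc (1 / K) ^ k ≤ (1 / K) ^ 1 := pow_le_pow_of_le_one (by positivity) hKinv hk0
          _ = 1 / K := pow_one _
    _ ≤ (1 / K) * ((Q' ^ (n + 1) * C) ^ τ * sy) := mul_le_mul_of_nonneg_left h8 (by positivity)
    _ ≤ (1 / K) * ((K * Q ^ (n + 1)) * sy) := by
        apply mul_le_mul_of_nonneg_left _ (by positivity)
        exact mul_le_mul_of_nonneg_right h10 hsy0
    _ = Q ^ (n + 1) * sy := by field_simp
    _ ≤ Q ^ (n + 1) * FF b y :=
        mul_le_mul_of_nonneg_left (abs_gp_le_FF b S j0 y) (by positivity)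

end Pool.Agent.Lib_helper71.Normal
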