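import Pool.Agent.Lib_helper71.Normal.Tuple

/-!
Minkowski's theorem on linear forms, and the lower bound for the size of a subspace in terms of
the length of the shortest vector.
-/

set_option autoImplicit false

namespace Pool.Agent.Lib_helper71.Normal

open Matrix Module MeasureTheory Set

theorem minkowski_forms {k : ℕ} (A : Matrix (Fin k) (Fin k) ℝ) (hA : A.det ≠ 0)
    (c : Fin k → ℝ) (hc : ∀ j, 0 < c j) (h : |A.det| < ∏ j, c j) :
    ∃ z : Fin k → ℤ, z ≠ 0 ∧ ∀ j, |∑ i, A j i * (z i : ℝ)| < c j := by
  classical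
  let s : Set (Fin k → ℝ) := (Matrix.toLin' A) ⁻¹' (Set.pi univ fun j => Ioo (-c j) (c j))
  have hvol : volume s = ENNReal.ofReal (|A.det|⁻¹ * (2 ^ k * ∏ j, c j)) := by
    have h1 : LinearMap.det (Matrix.toLin' A) ≠ 0 := by rwa [LinearMap.det_toLin']
    rw [Measure.addHaar_preimage_linearMap volume h1, LinearMap.det_toLin', Real.volume_pi_Ioo,
      abs_inv, ENNReal.ofReal_mul (by positivity)]
    congr 1
    rw [← ENNReal.ofReal_prod_of_nonneg (fun j _ => by linarith [hc j])]
    congr 1
    have h2 : ∀ j ∈ (Finset.univ : Finset (Fin k)), c j - -c j = 2 * c j := fun j _ => by ring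
    rw [Finset.prod_congr rfl h2, Finset.prod_mul_distrib]
    simp
  have hsymm : ∀ x ∈ s, -x ∈ s := by
    intro x hx j hj
    have h1 := hx j hj
    rw [map_neg, Pi.neg_apply]
    constructor <;> linarith [h1.1, h1.2]
  have hconv : Convex ℝ s := by
    apply Convex.linear_preimage
    exact convex_pi fun j _ => convex_Ioo _ _
  have hlt : volume (ZSpan.fundamentalDomain (Pi.basisFun ℝ (Fin k))) *
      2 ^ finrank ℝ (Fin k → ℝ) < volume s := by
    rw [ZSpan.fundamentalDomain_pi_basisFun, Real.volume_pi_Ico, hvol, finrank_fin_fun]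
    simp only [sub_zero, ENNReal.ofReal_one, Finset.prod_const_one, one_mul]
    rw [show (2 : ENNReal) ^ k = ENNReal.ofReal (2 ^ k) by
      rw [ENNReal.ofReal_pow (by norm_num)]; norm_num]
    rw [ENNReal.ofReal_lt_ofReal_iff']
    have h1 : 0 < |A.det| := abs_pos.mpr hA
    have h2 : 0 < ∏ j, c j := Finset.prod_pos fun j _ => hc j
    refine ⟨?_, by positivity⟩
    rw [inv_mul_eq_div, lt_div_iff₀ h1]
    have h3 : (0 : ℝ) < 2 ^ k := by positivity
    nlinarith
  have : Countable (Submodule.span ℤ (Set.range (Pi.basisFun ℝ (Fin k)))).toAddSubgroup := by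
    change Countable (Submodule.span ℤ (Set.range (Pi.basisFun ℝ (Fin k))))
    infer_instance
  obtain ⟨x, hx0, hxs⟩ := exists_ne_zero_mem_lattice_of_measure_mul_two_pow_lt_measure
    (ZSpan.isAddFundamentalDomain' (Pi.basisFun ℝ (Fin k)) volume) hsymm hconv hlt
  have hx1 : (x : Fin k → ℝ) ∈ Submodule.span ℤ (Set.range (Pi.basisFun ℝ (Fin k))) := x.2
  have hx2 := ((Pi.basisFun ℝ (Fin k)).mem_span_iff_repr_mem ℤ _).mp hx1
  choose z hz using hx2
  have hz' : ∀ i, (z i : ℝ) = (x : Fin k → ℝ) i := by
    intro i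
    have := hz i
    simpa using this
  refine ⟨z, ?_, ?_⟩
  · intro h0
    apply hx0
    apply Subtype.ext
    funext i
    rw [← hz' i, h0]
    simp
  · intro j
    have h1 := hxs j (mem_univ j)
    rw [Matrix.toLin'_apply, Matrix.mulVec, dotProduct] at h1
    have h2 : ∑ i, A j i * (z i : ℝ) = ∑ i, A j i * (x : Fin k → ℝ) i := by
      apply Finset.sum_congr rfl
      intro i _
      rw [hz' i]
    rw [h2, abs_lt]
    exact h1

/-- A lower bound for the size of a tuple in terms of the length of the shortest vector. -/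
theorem nu_lower {k m M : ℕ} (hk : 0 < k) (hM : 0 < M) (h : (Fin m → ℝ) →ₗ[ℝ] (Fin M → ℝ))
    (b : Fin k → Fin m → ℤ) (hnu : 0 < nu (fun i => h (cR (b i)))) (δ : ℝ) (hδ : 0 < δ)
    (hv : ∀ z : Fin k → ℤ, z ≠ 0 → δ ≤ ‖h (cR (fun s => ∑ i, z i * b i s))‖) :
    (δ / k) ^ k ≤ nu (fun i => h (cR (b i))) := by
  by_contra hlt
  push Not at hlt
  obtain ⟨S, hS⟩ := exists_minor_eq hM (fun i => h (cR (b i)))
  let G : Matrix (Fin k) (Fin k) ℝ := Matrix.of (fun i j => h (cR (b i)) (S j))
  have hG : |G.det| = nu (fun i => h (cR (b i))) := hS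
  have hG0 : G.det ≠ 0 := by
    rw [← abs_pos, hG]
    exact hnu
  have hkR : (0 : ℝ) < k := by exact_mod_cast hk
  obtain ⟨z, hz, hz1⟩ := minkowski_forms Gᵀ (by rwa [Matrix.det_transpose]) (fun _ => δ / k)
    (fun _ => by positivity) (by
      rw [Matrix.det_transpose, hG, Finset.prod_const, Finset.card_univ, Fintype.card_fin]
      exact hlt)
  have h1 := hv z hz
  -- the vector
  have hvec : h (cR (fun s => ∑ i, z i * b i s)) = ∑ i, (z i : ℝ) • h (cR (b i)) := by
    have : cR (fun s => ∑ i, z i * b i s) = ∑ i, (z i : ℝ) • cR (b i) := by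
      funext s
      simp [cR, Finset.sum_apply]
    rw [this, map_sum]
    simp only [map_smul]
  rw [hvec] at h1
  have h2 : ‖∑ i, (z i : ℝ) • h (cR (b i))‖ < δ := by
    rw [pi_norm_lt_iff hδ]
    intro s
    rw [Real.norm_eq_abs, Finset.sum_apply]
    simp only [Pi.smul_apply, smul_eq_mul]
    -- Cramer's rule
    let g : Fin k → ℝ := fun i => h (cR (b i)) s
    have hcr := Matrix.mulVec_cramer G g
    have hg : ∀ i, G.det * g i = ∑ j, G i j * (Matrix.cramer G g) j := by
      intro i
      have := congrFun hcr i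
      rw [Matrix.mulVec, dotProduct, Pi.smul_apply, smul_eq_mul] at this
      exact this.symm
    have hcb : ∀ j, |(Matrix.cramer G g) j| ≤ |G.det| := by
      intro j
      rw [Matrix.cramer_apply, hG]
      have : (G.updateCol j g) = Matrix.of (fun i l => h (cR (b i)) ((Function.update S j s) l)) := by
        ext i l
        by_cases hl : l = j
        · subst hl
          simp [g]
        · simp [G, Matrix.updateCol_ne hl, Function.update_of_ne hl]
      rw [this]
      exact abs_minor_le (fun i => h (cR (b i))) (Function.update S j s)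
    have hsum : G.det * ∑ i, (z i : ℝ) * g i =
        ∑ j, (Matrix.cramer G g) j * ∑ i, Gᵀ j i * (z i : ℝ) := by
      calc G.det * ∑ i, (z i : ℝ) * g i = ∑ i, (z i : ℝ) * (G.det * g i) := by
            rw [Finset.mul_sum]
            apply Finset.sum_congr rfl
            intro i _
            ring
        _ = ∑ i, (z i : ℝ) * ∑ j, G i j * (Matrix.cramer G g) j := by
            apply Finset.sum_congr rfl
            intro i _
            rw [hg i]
        _ = ∑ i, ∑ j, (Matrix.cramer G g) j * (Gᵀ j i * (z i : ℝ)) := by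
            apply Finset.sum_congr rfl
            intro i _
            rw [Finset.mul_sum]
            apply Finset.sum_congr rfl
            intro j _
            rw [Matrix.transpose_apply]
            ring
        _ = _ := by
            rw [Finset.sum_comm]
            apply Finset.sum_congr rfl
            intro j _
            rw [Finset.mul_sum]
    have hdpos : 0 < |G.det| := abs_pos.mpr hG0
    have hb1 : |G.det| * |∑ i, (z i : ℝ) * g i| < |G.det| * δ := by
      rw [← abs_mul, hsum]
      have : Nonempty (Fin k) := ⟨⟨0, hk⟩⟩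
      calc |∑ j, (Matrix.cramer G g) j * ∑ i, Gᵀ j i * (z i : ℝ)|
          ≤ ∑ j, |(Matrix.cramer G g) j * ∑ i, Gᵀ j i * (z i : ℝ)| :=
            Finset.abs_sum_le_sum_abs _ _
        _ < ∑ _j : Fin k, |G.det| * (δ / k) := by
            apply Finset.sum_lt_sum_of_nonempty Finset.univ_nonempty
            intro j _
            rw [abs_mul]
            calc |(Matrix.cramer G g) j| * |∑ i, Gᵀ j i * (z i : ℝ)|
                ≤ |G.det| * |∑ i, Gᵀ j i * (z i : ℝ)| :=
                  mul_le_mul_of_nonneg_right (hcb j) (abs_nonneg _)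
              _ < |G.det| * (δ / k) := mul_lt_mul_of_pos_left (hz1 j) hdpos
        _ = |G.det| * δ := by
            rw [Finset.sum_const, Finset.card_univ, Fintype.card_fin, nsmul_eq_mul]
            field_simp
    exact lt_of_mul_lt_mul_left hb1 hdpos.le
  linarith

end Pool.Agent.Lib_helper71.Normal
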