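import Pool.Agent.Lib_helper71.Normal.Stage

/-!
States (an interval and a time) and the passage from one state to the next.
-/

set_option autoImplicit false

namespace Pool.Agent.Lib_helper71.Normal

open Matrix Module Polynomial Set MeasureTheory

/-- An interval together with a time. -/
structure St where
  a : ℝ
  b : ℝ
  t : ℕ

/-- Most points of the interval have lower bounds with exponent `θ` from the time on. -/
def Inv (n : ℕ) (θ : ℝ) (s : St) : Prop :=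
  s.a < s.b ∧ 0 ≤ s.a ∧ s.b ≤ 1 ∧
    volume {y ∈ Icc s.a s.b | ∃ t ≥ s.t, ¬ Dlb n 1 θ t y} ≤ ENNReal.ofReal ((s.b - s.a) / 8)

/-- The good points of a state. -/
def Good (n : ℕ) (θ η : ℝ) (T : ℕ) (s : St) : Set ℝ :=
  {x ∈ Icc s.a s.b | (∀ t ≥ s.t, Dlb n 1 θ t x) ∧ ∀ t ≥ T, Dlb n 1 η t x}

lemma bad_small (n : ℕ) (hn : 1 ≤ n) (θ η : ℝ) (hη : 0 < η) (s : St) (hs : Inv n θ s) :
    ∃ T : ℕ, volume (Icc s.a s.b \ Good n θ η T s) ≤ ENNReal.ofReal ((s.b - s.a) / 4) := by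
  obtain ⟨h1, h2, h3, h4⟩ := hs
  obtain ⟨T, hT⟩ := stage_fixed n hn η (1 / 8) hη (by norm_num) s.a s.b h1
    (by rw [abs_le]; constructor <;> linarith)
  refine ⟨T, ?_⟩
  have hsub : Icc s.a s.b \ Good n θ η T s ⊆
      {y ∈ Icc s.a s.b | ∃ t ≥ s.t, ¬ Dlb n 1 θ t y} ∪
      {y ∈ Icc s.a s.b | ∃ t ≥ T, ¬ Dlb n 1 η t y} := by
    rintro y ⟨hy, hyG⟩
    by_contra hcon
    apply hyG
    rw [mem_union] at hcon
    push Not at hcon
    refine ⟨hy, ?_, ?_⟩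
    · intro t ht
      by_contra h5
      exact hcon.1 ⟨hy, t, ht, h5⟩
    · intro t ht
      by_contra h5
      exact hcon.2 ⟨hy, t, ht, h5⟩
  calc volume (Icc s.a s.b \ Good n θ η T s) ≤ _ := measure_mono hsub
    _ ≤ _ := measure_union_le _ _
    _ ≤ ENNReal.ofReal ((s.b - s.a) / 8) + ENNReal.ofReal (1 / 8 * (s.b - s.a)) := add_le_add h4 hT
    _ = ENNReal.ofReal ((s.b - s.a) / 4) := by
        rw [← ENNReal.ofReal_add (by linarith) (by linarith)]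
        congr 1
        ring

lemma pow_sub_le (x y : ℝ) (hx : |x| ≤ 1) (hy : |y| ≤ 1) (j : ℕ) :
    |x ^ j - y ^ j| ≤ j * |x - y| := by
  induction j with
  | zero => simp
  | succ j ih =>
    have h1 : x ^ (j + 1) - y ^ (j + 1) = x * (x ^ j - y ^ j) + (x - y) * y ^ j := by ring
    rw [h1]
    refine (abs_add_le _ _).trans ?_
    rw [abs_mul, abs_mul, abs_pow]
    have h2 : |y| ^ j ≤ 1 := pow_le_one₀ (abs_nonneg _) hy
    push_cast
    have h3 := abs_nonneg (x - y)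
    have h4 := abs_nonneg (x ^ j - y ^ j)
    have h5 : |x| * |x ^ j - y ^ j| ≤ 1 * |x ^ j - y ^ j| := mul_le_mul_of_nonneg_right hx h4
    have h6 : |x - y| * |y| ^ j ≤ |x - y| * 1 := mul_le_mul_of_nonneg_left h2 h3
    linarith

lemma evL_sub_le (n : ℕ) (x y : ℝ) (hx : |x| ≤ 1) (hy : |y| ≤ 1) (v : Fin (n + 1) → ℝ) :
    |evL n x v - evL n y v| ≤ n * (n + 1) * ‖v‖ * |x - y| := by
  rw [evL_apply, evL_apply, ← Finset.sum_sub_distrib]
  refine (Finset.abs_sum_le_sum_abs _ _).trans ?_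
  calc ∑ j : Fin (n + 1), |x ^ (j : ℕ) * v j - y ^ (j : ℕ) * v j|
      ≤ ∑ _j : Fin (n + 1), n * ‖v‖ * |x - y| := by
        apply Finset.sum_le_sum
        intro j _
        rw [← sub_mul, abs_mul]
        have h1 := pow_sub_le x y hx hy j
        have h2 : |v j| ≤ ‖v‖ := by
          have := norm_le_pi_norm v j
          rwa [Real.norm_eq_abs] at this
        have h3 : ((j : ℕ) : ℝ) ≤ n := by
          have := j.2
          exact_mod_cast Nat.lt_succ_iff.mp this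
        calc |x ^ (j : ℕ) - y ^ (j : ℕ)| * |v j| ≤ ((n : ℝ) * |x - y|) * ‖v‖ := by
              apply mul_le_mul _ h2 (abs_nonneg _) (by positivity)
              exact h1.trans (mul_le_mul_of_nonneg_right h3 (abs_nonneg _))
          _ = n * ‖v‖ * |x - y| := by ring
    _ = n * (n + 1) * ‖v‖ * |x - y| := by
        rw [Finset.sum_const, Finset.card_univ, Fintype.card_fin, nsmul_eq_mul]
        push_cast
        ring

/-- Transfer of a lower bound to a close point. -/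
lemma transfer (n : ℕ) (θ : ℝ) (t : ℕ) (x ξ : ℝ) (hx : |x| ≤ 1) (hξ : |ξ| ≤ 1)
    (h : n * (n + 1) * |x - ξ| * ((2 : ℝ) ^ t) ^ (n + 1) ≤ 1) (hD : Dlb n 1 θ t x) :
    Dlb n (1 / 2) θ t ξ := by
  intro v hv
  have h1 := hD v hv
  by_contra hcon
  push Not at hcon
  set Q : ℝ := 2 ^ t with hQ'
  have hQ0 : 0 < Q := by positivity
  have hR0 : 0 < (2 : ℝ) ^ (-(θ * t)) := Real.rpow_pos_of_pos (by norm_num) _
  rw [norm_hQ n Q ξ hQ0, max_lt_iff] at hcon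
  rw [norm_hQ n Q x hQ0, one_mul] at h1
  have h2 := evL_sub_le n x ξ hx hξ (cR v)
  have h3 : ‖cR v‖ < Q * (1 / 2 * (2 : ℝ) ^ (-(θ * t))) := by
    have h4 := mul_lt_mul_of_pos_left hcon.2 hQ0
    rwa [← mul_assoc, mul_inv_cancel₀ hQ0.ne', one_mul] at h4
  have h5 : Q ^ n * |evL n x (cR v) - evL n ξ (cR v)| ≤ 1 / 2 * (2 : ℝ) ^ (-(θ * t)) := by
    calc Q ^ n * |evL n x (cR v) - evL n ξ (cR v)|
        ≤ Q ^ n * (n * (n + 1) * ‖cR v‖ * |x - ξ|) := mul_le_mul_of_nonneg_left h2 (by positivity)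
      _ ≤ Q ^ n * (n * (n + 1) * (Q * (1 / 2 * (2 : ℝ) ^ (-(θ * t)))) * |x - ξ|) := by
          gcongr
      _ = (n * (n + 1) * |x - ξ| * Q ^ (n + 1)) * (1 / 2 * (2 : ℝ) ^ (-(θ * t))) := by
          rw [pow_succ]; ring
      _ ≤ 1 * (1 / 2 * (2 : ℝ) ^ (-(θ * t))) := mul_le_mul_of_nonneg_right h (by positivity)
      _ = _ := one_mul _
  have h6 : Q ^ n * |evL n x (cR v)| < (2 : ℝ) ^ (-(θ * t)) := by
    have h7 : |evL n x (cR v)| ≤ |evL n x (cR v) - evL n ξ (cR v)| + |evL n ξ (cR v)| := by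
      have := abs_add_le (evL n x (cR v) - evL n ξ (cR v)) (evL n ξ (cR v))
      rwa [sub_add_cancel] at this
    have h8 := mul_le_mul_of_nonneg_left h7 (by positivity : (0 : ℝ) ≤ Q ^ n)
    rw [mul_add] at h8
    linarith [hcon.1]
  rcases le_max_iff.mp h1 with h7 | h7
  · linarith
  · linarith [hcon.2]

/-- The next state at a good point `x`, for an interval next to a point `β` close to `x`. -/
theorem next_state (n : ℕ) (hn : 1 ≤ n) (θ τ' η θ' : ℝ) (hτ' : 1 ≤ τ') (hη : 0 ≤ η) (hη1 : η ≤ 1)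
    (hθ' : 1 - (1 - η) / τ' < θ') (s : St) (hs : Inv n θ s) (T : ℕ) :
    ∃ t1 : ℕ, s.t < t1 ∧ ∀ δ : ℝ, 0 < δ → ∃ R0 : ℝ, 0 < R0 ∧ ∀ x ∈ Good n θ η T s,
      s.a + δ ≤ x → x ≤ s.b - δ → ∀ R : ℝ, 0 < R → R ≤ R0 → ∀ β : ℝ, |x - β| ≤ R →
      Inv n θ' ⟨β + R ^ τ' / 2, β + R ^ τ', t1⟩ ∧ s.a < β + R ^ τ' / 2 ∧ β + R ^ τ' < s.b ∧
      ∀ ξ ∈ Icc (β + R ^ τ' / 2) (β + R ^ τ'), ∀ t, s.t ≤ t → t ≤ t1 → Dlb n (1 / 2) θ t ξ := by
  obtain ⟨h1, h2, h3, _⟩ := hs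
  obtain ⟨t0, ht0⟩ := stage_event n hn τ' η θ' (1 / 8) hτ' hη hη1 hθ' (by norm_num) T
  refine ⟨max t0 (s.t + 1), lt_of_lt_of_le (Nat.lt_succ_self _) (le_max_right _ _), ?_⟩
  intro δ hδ
  set t1 := max t0 (s.t + 1) with ht1
  set K : ℝ := n * (n + 1) * ((2 : ℝ) ^ t1) ^ (n + 1) with hK
  have hK0 : 0 < K := by
    have : (0 : ℝ) < n := by exact_mod_cast hn
    positivity
  refine ⟨min (min 1 (δ / 3)) (1 / (2 * K)), by positivity, ?_⟩
  intro x hx hxa hxb R hR hRR0 β hβ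
  have hR1 : R ≤ 1 := hRR0.trans ((min_le_left _ _).trans (min_le_left _ _))
  have hRδ : R ≤ δ / 3 := hRR0.trans ((min_le_left _ _).trans (min_le_right _ _))
  have hRK : R ≤ 1 / (2 * K) := hRR0.trans (min_le_right _ _)
  have hβ' := abs_le.mp hβ
  have hr0 : 0 < R ^ τ' := Real.rpow_pos_of_pos hR τ'
  have hrR : R ^ τ' ≤ R := by
    calc R ^ τ' ≤ R ^ (1 : ℝ) := Real.rpow_le_rpow_of_exponent_ge hR hR1 hτ'
      _ = R := Real.rpow_one R
  have hx01 : 0 ≤ x ∧ x ≤ 1 := ⟨h2.trans hx.1.1, hx.1.2.trans h3⟩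
  have hlo : s.a < β + R ^ τ' / 2 := by linarith
  have hhi : β + R ^ τ' < s.b := by linarith
  refine ⟨⟨?_, ?_, ?_, ?_⟩, hlo, hhi, ?_⟩
  · show β + R ^ τ' / 2 < β + R ^ τ'
    linarith
  · show 0 ≤ β + R ^ τ' / 2
    linarith
  · show β + R ^ τ' ≤ 1
    linarith
  · have h4 := ht0 x hx.2.2 β R (by rw [abs_le]; constructor <;> linarith) hR hβ t1
      (le_max_left _ _)
    refine h4.trans (le_of_eq ?_)
    congr 1
    show 1 / 8 * (R ^ τ' / 2) = ((β + R ^ τ') - (β + R ^ τ' / 2)) / 8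
    ring
  · intro ξ hξ t ht htt1
    have hξx : |x - ξ| ≤ 2 * R := by
      rw [abs_le]
      constructor <;> linarith [hξ.1, hξ.2]
    apply transfer n θ t x ξ
    · rw [abs_le]; constructor <;> linarith
    · rw [abs_le]; constructor <;> linarith [hξ.1, hξ.2]
    · have hpow : ((2 : ℝ) ^ t) ^ (n + 1) ≤ ((2 : ℝ) ^ t1) ^ (n + 1) :=
        pow_le_pow_left₀ (by positivity) (pow_le_pow_right₀ (by norm_num) htt1) _
      calc n * (n + 1) * |x - ξ| * ((2 : ℝ) ^ t) ^ (n + 1)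
          ≤ n * (n + 1) * (2 * R) * ((2 : ℝ) ^ t1) ^ (n + 1) := by gcongr
        _ = (2 * K) * R := by rw [hK]; ring
        _ ≤ (2 * K) * (1 / (2 * K)) := mul_le_mul_of_nonneg_left hRK (by positivity)
        _ = 1 := by field_simp
    · exact hx.2.1 t ht

end Pool.Agent.Lib_helper71.Normal
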