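import Pool.Agent.Lib_helper71.Normal.Construct
import Pool.Agent.Lib_helper71.Normal.ZeroBlocks

/-!
Numbers with prescribed exponents that are simply normal in no base.
-/

set_option autoImplicit false

namespace Pool.Agent.Lib_helper71.Normal

open Matrix Module Polynomial Set MeasureTheory Filter Topology

/-- The second kind of event: a long block of zeros in base `b`. -/
def EvB (b N0 : ℕ) (τ : ℝ) (s : St) : Prop :=
  ∃ N ≥ N0, ∀ ξ ∈ Icc s.a s.b, ∀ j : ℕ, N < j → (j : ℝ) ≤ τ * N → digit b ξ j = 0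

/-- The second kind of step. -/
theorem step_B (n : ℕ) (hn : 1 ≤ n) (τ : ℝ) (hτ : 1 < τ) (θ θ' : ℝ)
    (hθ' : 1 - 1 / τ < θ') (s : St) (hs : Inv n θ s) (b N0 : ℕ) (hb : 2 ≤ b) :
    ∃ s' : St, Inv n θ' s' ∧ Nest n θ s s' ∧ EvB b N0 τ s' := by
  obtain ⟨η, hη0, hη1, hη⟩ := exists_eta n τ θ' hτ hθ'
  set τ' := tauE n τ η with hτ'
  have hττ' : τ < τ' := tauE_gt n τ η hτ hη0
  obtain ⟨T, hT⟩ := bad_small n hn θ η hη0 s hs
  obtain ⟨x, hxG, hxa, hxb⟩ := exists_good n θ η s hs T hT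
  obtain ⟨t1, ht1, hnext⟩ := next_state n hn θ τ' η θ' (by linarith) hη0.le hη1.le hη s hs T
  obtain ⟨R0, hR0, hnext⟩ := hnext ((s.b - s.a) / 4) (by linarith [hs.1])
  have hbR : (1 : ℝ) < b := by exact_mod_cast hb
  have hb0 : (0 : ℝ) < b := by linarith
  obtain ⟨N1, hN1⟩ := pow_unbounded_of_one_lt (1 / R0) hbR
  set N := max (max N0 N1) 1 with hN
  have hNN0 : N0 ≤ N := (le_max_left _ _).trans (le_max_left _ _)
  have hNN1 : N1 ≤ N := (le_max_right _ _).trans (le_max_left _ _)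
  have hN1' : 1 ≤ N := le_max_right _ _
  set R : ℝ := ((b : ℝ) ^ N)⁻¹ with hR
  have hRpos : 0 < R := by positivity
  have hRR0 : R ≤ R0 := by
    have h1 : 1 / R0 ≤ (b : ℝ) ^ N := hN1.le.trans (pow_le_pow_right₀ hbR.le hNN1)
    rw [hR, inv_le_comm₀ (by positivity) hR0, ← one_div]
    exact h1
  set a0 : ℤ := ⌊(b : ℝ) ^ N * x⌋ with ha0
  set β : ℝ := (a0 : ℝ) / (b : ℝ) ^ N with hβ
  have hbN : (0 : ℝ) < (b : ℝ) ^ N := by positivity
  have hxβ : |x - β| ≤ R := by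
    have h1 := Int.floor_le ((b : ℝ) ^ N * x)
    have h2 := Int.lt_floor_add_one ((b : ℝ) ^ N * x)
    have h3 : x - β = ((b : ℝ) ^ N * x - a0) * R := by
      rw [hβ, hR]; field_simp
    rw [h3, abs_mul, abs_of_pos hRpos]
    have h4 : |(b : ℝ) ^ N * x - a0| ≤ 1 := by
      rw [abs_le]; constructor <;> linarith
    calc |(b : ℝ) ^ N * x - a0| * R ≤ 1 * R := mul_le_mul_of_nonneg_right h4 hRpos.le
      _ = R := one_mul R
  obtain ⟨hInv, hlo, hhi, htr⟩ := hnext x hxG hxa hxb R hRpos hRR0 β hxβ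
  refine ⟨⟨β + R ^ τ' / 2, β + R ^ τ', t1⟩, hInv, ⟨hlo, hhi, ht1, htr⟩, N, hNN0, ?_⟩
  have hr0 : 0 < R ^ τ' := Real.rpow_pos_of_pos hRpos τ'
  intro ξ hξ j hj hjτ
  have hξ1 : β + R ^ τ' / 2 ≤ ξ := hξ.1
  have hξ2 : ξ ≤ β + R ^ τ' := hξ.2
  have hjfl : j ≤ ⌊τ * N⌋₊ := Nat.le_floor hjτ
  apply digit_eq_zero b N ⌊τ * N⌋₊ hb a0 ξ _ _ j hj hjfl
  · show 0 ≤ ξ - β
    linarith
  · show ξ - β < _
    have h1 : R ^ τ' = ((b : ℝ) ^ ((N : ℝ) * τ'))⁻¹ := by
      rw [hR, Real.inv_rpow (by positivity), ← Real.rpow_natCast, ← Real.rpow_mul hb0.le]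
    have h2 : ((b : ℝ) ^ ((N : ℝ) * τ'))⁻¹ < ((b : ℝ) ^ (⌊τ * N⌋₊))⁻¹ := by
      apply inv_strictAnti₀ (by positivity)
      rw [← Real.rpow_natCast]
      apply Real.rpow_lt_rpow_of_exponent_lt hbR
      have h3 : ((⌊τ * N⌋₊ : ℕ) : ℝ) ≤ τ * N := Nat.floor_le (by positivity)
      have h4 : (1 : ℝ) ≤ N := by exact_mod_cast hN1'
      nlinarith
    calc ξ - β ≤ R ^ τ' := by linarith
      _ = _ := h1
      _ < _ := h2

/-- There is a number with the prescribed exponents that is simply normal in no base. -/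
theorem exists_nonnormal (n : ℕ) (hn : 1 ≤ n) (hA : ApproxProp n) (τ : ℝ) (hτ : 1 < τ) :
    ∃ ξ : ℝ, mahlerExponent n ξ = ((τ * (n + 1) - 1 : ℝ) : EReal) ∧
      koksmaExponent n ξ = ((τ * (n + 1) - 1 : ℝ) : EReal) ∧
      ∀ b : ℕ, 2 ≤ b → ¬ SimplyNormal b ξ := by
  classical
  obtain ⟨s0, hs0⟩ := initial_state n hn τ hτ
  let Ev : ℕ → St → Prop := fun k s' =>
    if Even k then EvA n τ (1 / (k + 1)) s' else EvB ((Nat.unpair (k / 2)).1 + 2) k τ s'
  obtain ⟨s, _, hInv, hR⟩ := seq_exists (fun k s => Inv n (thK τ k) s)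
    (fun k s s' => Nest n (thK τ k) s s' ∧ Ev k s') s0 hs0 (by
      intro k s hs
      by_cases hk : Even k
      · obtain ⟨s', h1, h2, h3⟩ := step_A n hn hA τ hτ (thK τ k) (thK τ (k + 1))
          (thK_gt τ (k + 1)) s hs (1 / (k + 1)) (by positivity)
        refine ⟨s', h1, h2, ?_⟩
        show if Even k then _ else _
        rw [if_pos hk]
        exact h3
      · obtain ⟨s', h1, h2, h3⟩ := step_B n hn τ hτ (thK τ k) (thK τ (k + 1))
          (thK_gt τ (k + 1)) s hs ((Nat.unpair (k / 2)).1 + 2) k (by omega)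
        refine ⟨s', h1, h2, ?_⟩
        show if Even k then _ else _
        rw [if_neg hk]
        exact h3)
  obtain ⟨ξ, hξ, hM, hnv⟩ := limit_point n hn τ hτ s hInv (fun k => (hR k).1)
  have hK : ((τ * (n + 1) - 1 : ℝ) : EReal) ≤ koksmaExponent n ξ := by
    apply koksma_ge
    intro ε hε
    obtain ⟨K, hK⟩ := exists_nat_one_div_lt hε
    have h1 : Ev (2 * K) (s (2 * K + 1)) := (hR (2 * K)).2
    have h2 : EvA n τ (1 / (((2 * K : ℕ) : ℝ) + 1)) (s (2 * K + 1)) := by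
      have : Even (2 * K) := even_two_mul K
      simp only [Ev, if_pos this] at h1
      exact h1
    obtain ⟨α, M, hM1, hM2, hM3⟩ := h2
    obtain ⟨h3, h4, h5⟩ := hM3 ξ (hξ (2 * K + 1))
    refine ⟨α, M, hM1, hM2, h3, ?_, h5⟩
    have h6 : (1 : ℝ) / (((2 * K : ℕ) : ℝ) + 1) ≤ 1 / (K + 1) := by
      apply one_div_le_one_div_of_le (by positivity)
      push_cast
      have : (0 : ℝ) ≤ K := Nat.cast_nonneg K
      linarith
    linarith
  have hKM := koksma_le_mahler n ξ hnv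
  refine ⟨ξ, le_antisymm hM (hK.trans hKM), le_antisymm (hKM.trans hM) hK, ?_⟩
  intro b hb
  apply not_simplyNormal_of_zero_blocks b hb ξ τ hτ
  intro N0
  set j := Nat.pair (b - 2) N0 with hj
  have h1 : Ev (2 * j + 1) (s (2 * j + 2)) := (hR (2 * j + 1)).2
  have h2 : EvB b (2 * j + 1) τ (s (2 * j + 2)) := by
    have hodd : ¬ Even (2 * j + 1) := by
      rw [Nat.not_even_iff_odd]
      exact odd_two_mul_add_one j
    simp only [Ev, if_neg hodd] at h1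
    have h3 : (2 * j + 1) / 2 = j := by omega
    rw [h3, hj, Nat.unpair_pair] at h1
    have h4 : (b - 2, N0).1 + 2 = b := by
      show b - 2 + 2 = b
      omega
    rw [h4] at h1
    exact h1
  obtain ⟨N, hN, hN2⟩ := h2
  refine ⟨N, ?_, hN2 ξ (hξ (2 * j + 2))⟩
  have h5 : N0 ≤ j := Nat.right_le_pair _ _
  omega

end Pool.Agent.Lib_helper71.Normal
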