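import Pool.Agent.Lib_helper71.Normal.StepN2
import Pool.Agent.Lib_helper71.Normal.Blocks

/-!
Normal numbers with prescribed exponents.
-/

set_option autoImplicit false

namespace Pool.Agent.Lib_helper71.Normal

open Matrix Module Polynomial Set MeasureTheory Filter Topology

/-- A short initial state. -/
theorem initial_state' (n : ℕ) (hn : 1 ≤ n) (τ : ℝ) (hτ : 1 < τ) (X : ℕ) :
    ∃ s : St, Inv n (thK τ 0) s ∧ ∀ b, 2 ≤ b → b ≤ 2 → X ≤ Js s b := by
  have hθ : 0 < thK τ 0 := by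
    unfold thK
    have : 1 / τ < 1 := by rw [div_lt_one (by linarith)]; exact hτ
    simp
    rw [one_div] at this
    linarith
  set c : ℝ := 1 / 2 ^ (X + 1) with hc
  have hc0 : 0 < c := by positivity
  have hc1 : c ≤ 1 := by
    rw [hc, div_le_one (by positivity)]
    exact one_le_pow₀ (by norm_num)
  obtain ⟨T, hT⟩ := stage_fixed n hn (thK τ 0) (1 / 8) hθ (by norm_num) 0 c hc0
    (by norm_num)
  refine ⟨⟨0, c, T⟩, ⟨hc0, le_rfl, hc1, ?_⟩, ?_⟩
  · refine hT.trans (le_of_eq ?_)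
    congr 1
    show 1 / 8 * (c - 0) = (c - 0) / 8
    ring
  · intro b hb hb2
    apply le_jj_of_pow_lt b 2 X hb hb2
    show ((2 : ℕ) : ℝ) ^ X < 1 / (c - 0)
    rw [sub_zero, hc, one_div_one_div]
    push_cast
    exact pow_lt_pow_right₀ (by norm_num) (Nat.lt_succ_self X)

/-- There is a normal number with the prescribed exponents. -/
theorem exists_normal (n : ℕ) (hn : 1 ≤ n) (hA : ApproxProp n) (τ : ℝ) (hτ : 1 < τ) :
    ∃ ξ : ℝ, mahlerExponent n ξ = ((τ * (n + 1) - 1 : ℝ) : EReal) ∧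
      koksmaExponent n ξ = ((τ * (n + 1) - 1 : ℝ) : EReal) ∧ IsNormal ξ := by
  have hstep := fun k : ℕ => step_N n hn hA τ hτ (thK τ k) (thK τ (k + 1)) (thK_gt τ (k + 1))
    (k + 2) (1 / ((k : ℝ) + 1)) (by positivity)
  choose N1 hN1 using hstep
  obtain ⟨s0, hs0, hs0'⟩ := initial_state' n hn τ hτ (N1 0)
  obtain ⟨s, _, hInv, hR⟩ := seq_exists
    (fun k s => Inv n (thK τ k) s ∧ ∀ b, 2 ≤ b → b ≤ k + 2 → N1 k ≤ Js s b)
    (fun k s s' => Nest n (thK τ k) s s' ∧ EvA n τ (1 / ((k : ℝ) + 1)) s' ∧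
      WeylOK (k + 2) (1 / ((k : ℝ) + 1)) s s' ∧
      ∀ b, 2 ≤ b → b ≤ k + 2 → (k + 1) * (Js s b + 1) ≤ Js s' b) s0 ⟨hs0, hs0'⟩ (by
      intro k s hs
      obtain ⟨s', h1, h2, h3, h4, h5⟩ := hN1 k s hs.1 hs.2 (1 / ((k : ℝ) + 1)) (by positivity)
        (k + 3) (max (N1 (k + 1)) ((k + 1) * (Js s 2 + 1)))
      refine ⟨s', ⟨h1, ?_⟩, h2, h3, h5, ?_⟩
      · intro b hb hbk
        exact (le_max_left _ _).trans (h4 b hb (by omega))
      · intro b hb hbk
        refine le_trans ?_ ((le_max_right _ _).trans (h4 b hb (by omega)))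
        have : Js s b ≤ Js s 2 := jj_anti b 2 le_rfl hb _
        gcongr)
  obtain ⟨ξ, hξ, hM, hnv⟩ := limit_point n hn τ hτ s (fun k => (hInv k).1) (fun k => (hR k).1)
  have hK : ((τ * (n + 1) - 1 : ℝ) : EReal) ≤ koksmaExponent n ξ := by
    apply koksma_ge
    intro ε hε
    obtain ⟨K, hK⟩ := exists_nat_one_div_lt hε
    obtain ⟨α, M, hM1, hM2, hM3⟩ := (hR K).2.1
    obtain ⟨h3, h4, h5⟩ := hM3 ξ (hξ (K + 1))
    exact ⟨α, M, hM1, hM2, h3, h4.trans hK, h5⟩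
  have hKM := koksma_le_mahler n ξ hnv
  refine ⟨ξ, le_antisymm hM (hK.trans hKM), le_antisymm (hKM.trans hM) hK, ?_⟩
  apply normal_of_blocks ξ (fun k b => Js (s k) b)
  · intro k b m N hb hbk hm hmk hN
    exact (hR k).2.2.1 b m N hb hbk hm hmk hN ξ (hξ (k + 1))
  · intro k b hb hbk
    exact (hR k).2.2.2 b hb hbk

end Pool.Agent.Lib_helper71.Normal
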