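import Mathlib

/-!
The norm `nu w` of the exterior product of a tuple `w` of vectors (the largest absolute value of
a minor), and minimal integer tuples of rational subspaces.
-/

set_option autoImplicit false

namespace Pool.Agent.Lib_helper71.Normal

open Matrix Module

/-- The minor of the tuple `w` with columns `S`. -/
def minor {R : Type*} [CommRing R] {k M : ℕ} (w : Fin k → Fin M → R) (S : Fin k → Fin M) : R :=
  Matrix.det (Matrix.of (fun i j => w i (S j)))

/-- The largest absolute value of a minor. -/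
noncomputable def nu {k M : ℕ} (w : Fin k → Fin M → ℝ) : ℝ :=
  ‖(fun S : Fin k → Fin M => minor w S)‖

lemma nu_nonneg {k M : ℕ} (w : Fin k → Fin M → ℝ) : 0 ≤ nu w := norm_nonneg _

lemma abs_minor_le {k M : ℕ} (w : Fin k → Fin M → ℝ) (S : Fin k → Fin M) :
    |minor w S| ≤ nu w := by
  have := norm_le_pi_norm (fun S : Fin k → Fin M => minor w S) S
  rwa [Real.norm_eq_abs] at this

lemma nu_le {k M : ℕ} (w : Fin k → Fin M → ℝ) (c : ℝ) (hc : 0 ≤ c)
    (h : ∀ S, |minor w S| ≤ c) : nu w ≤ c := by
  unfold nu
  rw [pi_norm_le_iff_of_nonneg hc]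
  intro S
  rw [Real.norm_eq_abs]
  exact h S

lemma exists_minor_eq {k M : ℕ} (hM : 0 < M) (w : Fin k → Fin M → ℝ) :
    ∃ S, |minor w S| = nu w := by
  have : Nonempty (Fin M) := ⟨⟨0, hM⟩⟩
  obtain ⟨S, hS⟩ := Finite.exists_max (fun S : Fin k → Fin M => |minor w S|)
  exact ⟨S, le_antisymm (abs_minor_le w S) (nu_le w _ (abs_nonneg _) hS)⟩

lemma minor_mul {R : Type*} [CommRing R] {k M : ℕ} (A : Matrix (Fin k) (Fin k) R)
    (w : Fin k → Fin M → R) (S : Fin k → Fin M) :
    minor (fun i s => ∑ l, A i l * w l s) S = A.det * minor w S := by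
  unfold minor
  rw [← Matrix.det_mul]
  congr 1

lemma nu_mul {k M : ℕ} (A : Matrix (Fin k) (Fin k) ℝ) (w : Fin k → Fin M → ℝ) :
    nu (fun i s => ∑ l, A i l * w l s) = |A.det| * nu w := by
  unfold nu
  have : (fun S : Fin k → Fin M => minor (fun i s => ∑ l, A i l * w l s) S) =
      A.det • (fun S : Fin k → Fin M => minor w S) := by
    funext S
    rw [minor_mul]
    rfl
  rw [this, norm_smul, Real.norm_eq_abs]

lemma nu_zero {M : ℕ} (w : Fin 0 → Fin M → ℝ) : nu w = 1 := by
  unfold nu minor
  have : (fun S : Fin 0 → Fin M => Matrix.det (Matrix.of (fun i j => w i (S j)))) =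
      fun _ => (1 : ℝ) := by
    funext S
    exact Matrix.det_isEmpty
  rw [this]
  apply le_antisymm
  · rw [pi_norm_le_iff_of_nonneg zero_le_one]
    intro _
    simp
  · have := norm_le_pi_norm (fun _ : Fin 0 → Fin M => (1 : ℝ)) (fun i => i.elim0)
    simpa using this

lemma nu_smul {k M : ℕ} (c : ℝ) (w : Fin k → Fin M → ℝ) :
    nu (fun i s => c * w i s) = |c| ^ k * nu w := by
  have h := nu_mul (Matrix.diagonal (fun _ : Fin k => c)) w
  rw [Matrix.det_diagonal, Finset.prod_const, Finset.card_univ, Fintype.card_fin, abs_pow] at h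
  rw [← h]
  congr 1
  funext i s
  rw [Finset.sum_eq_single i]
  · rw [Matrix.diagonal_apply_eq]
  · intro l _ hl
    rw [Matrix.diagonal_apply_ne _ (Ne.symm hl), zero_mul]
  · simp

lemma nu_cons_le {k M : ℕ} (u : Fin M → ℝ) (w : Fin k → Fin M → ℝ) :
    nu (Fin.cons u w : Fin (k + 1) → Fin M → ℝ) ≤ (k + 1) * ‖u‖ * nu w := by
  apply nu_le
  · have := nu_nonneg w
    positivity
  · intro S
    unfold minor
    rw [Matrix.det_succ_row_zero]
    refine (Finset.abs_sum_le_sum_abs _ _).trans ?_
    calc ∑ j : Fin (k + 1), |(-1) ^ (j : ℕ) *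
          (Matrix.of fun i j => (Fin.cons u w : Fin (k + 1) → Fin M → ℝ) i (S j)) 0 j *
          ((Matrix.of fun i j => (Fin.cons u w : Fin (k + 1) → Fin M → ℝ) i (S j)).submatrix
            Fin.succ j.succAbove).det|
        ≤ ∑ _j : Fin (k + 1), ‖u‖ * nu w := by
          apply Finset.sum_le_sum
          intro j _
          rw [abs_mul, abs_mul, abs_pow, abs_neg, abs_one, one_pow, one_mul]
          apply mul_le_mul _ _ (abs_nonneg _) (norm_nonneg _)
          · simp only [Matrix.of_apply, Fin.cons_zero]
            have := norm_le_pi_norm u (S j)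
            rwa [Real.norm_eq_abs] at this
          · have h1 : ((Matrix.of fun i j => (Fin.cons u w : Fin (k + 1) → Fin M → ℝ) i
                (S j)).submatrix Fin.succ j.succAbove).det =
                minor w (fun j' => S (j.succAbove j')) := by
              unfold minor
              congr 1
            rw [h1]
            exact abs_minor_le w _
      _ = (k + 1) * ‖u‖ * nu w := by
          rw [Finset.sum_const, Finset.card_univ, Fintype.card_fin, nsmul_eq_mul]
          push_cast
          ring

/-- Linearly independent rows have a nonzero maximal minor. -/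
lemma exists_minor_ne_zero {k m : ℕ} (w : Fin k → Fin m → ℚ) (hw : LinearIndependent ℚ w) :
    ∃ S : Fin k → Fin m, minor w S ≠ 0 := by
  classical
  let A : Matrix (Fin k) (Fin m) ℚ := Matrix.of w
  have hr : A.rank = k := by
    have : LinearIndependent ℚ A.row := hw
    rw [this.rank_matrix, Fintype.card_fin]
  rw [Matrix.rank_eq_finrank_span_cols] at hr
  obtain ⟨κ, a, ha, hsp, hli⟩ := exists_linearIndependent' ℚ A.col
  have : Finite κ := Finite.of_injective a ha
  have := Fintype.ofFinite κ
  have hcard : Fintype.card κ = k := by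
    rw [← finrank_span_eq_card hli, hsp, hr]
  let φ : κ ≃ Fin k := Fintype.equivFinOfCardEq hcard
  refine ⟨fun j => a (φ.symm j), ?_⟩
  unfold minor
  let B : Matrix (Fin k) (Fin k) ℚ := Matrix.of (fun i j => w i (a (φ.symm j)))
  have hB : LinearIndependent ℚ B.col := by
    have h2 : B.col = (A.col ∘ a) ∘ φ.symm := by
      funext j i
      rfl
    rw [h2]
    exact hli.comp _ φ.symm.injective
  have h3 : IsUnit B := Matrix.linearIndependent_cols_iff_isUnit.mp hB
  have h4 : IsUnit B.det := (Matrix.isUnit_iff_isUnit_det B).mp h3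
  exact h4.ne_zero

end Pool.Agent.Lib_helper71.Normal
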