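import Pool.Agent.Lib_helper71.Normal.Large

/-!
The stage lemmas: most points of an interval have good lower bounds for all large times.
-/

set_option autoImplicit false

namespace Pool.Agent.Lib_helper71.Normal

open Matrix Module Polynomial Set MeasureTheory

theorem stage_sum (n : ℕ) (hn : 1 ≤ n) (c' σ θ ζ : ℝ) (hc' : 0 < c') (hσ : σ < θ) (hζ : 0 < ζ) :
    ∃ t0 : ℕ, ∀ a b : ℝ, a < b → ∀ t1 : ℕ, t0 ≤ t1 →
      (∀ t : ℕ, t1 ≤ t → ∀ V : Submodule ℚ (Fin (n + 1) → ℚ), V ≠ ⊥ → ∃ y ∈ Icc a b,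
        (c' * (2 : ℝ) ^ (-(σ * t))) ^ (finrank ℚ V) ≤ psi (hQ n (2 ^ t)) V y) →
      volume {y ∈ Icc a b | ∃ t ≥ t1, ¬ Dlb n 1 θ t y} ≤ ENNReal.ofReal (ζ * (b - a)) := by
  have hn0 : (0 : ℝ) < n := by exact_mod_cast hn
  set lam : ℝ := (2 : ℝ) ^ (-((θ - σ) / n)) with hlam
  have hlam0 : 0 < lam := Real.rpow_pos_of_pos (by norm_num) _
  have hlam1 : lam < 1 := by
    apply Real.rpow_lt_one_of_one_lt_of_neg (by norm_num)
    have : 0 < (θ - σ) / n := div_pos (by linarith) hn0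
    linarith
  set C : ℝ := (n + 1) / (c' * cG n) with hC
  have hcG := cG_pos n
  have hC0 : 0 < C := by positivity
  set K : ℝ := max 1 C with hK
  have hK1 : 1 ≤ K := le_max_left _ _
  have hKC : C ≤ K ^ n := by
    calc C ≤ K := le_max_right _ _
      _ = K ^ 1 := (pow_one _).symm
      _ ≤ K ^ n := pow_le_pow_right₀ hK1 hn
  have hcK := cK_nonneg (n + 1)
  -- choice of `t0`
  obtain ⟨t0, ht0⟩ := exists_pow_lt_of_lt_one
    (show 0 < min (1 / K) (ζ * (1 - lam) / ((cK (n + 1) + 1) * K)) by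
      have : 0 < 1 - lam := by linarith
      exact lt_min (by positivity) (by positivity)) hlam1
  have ht01 : K * lam ^ t0 ≤ 1 := by
    have := ht0.le.trans (min_le_left _ _)
    rwa [le_div_iff₀' (by linarith)] at this
  have ht02 : cK (n + 1) * K * lam ^ t0 / (1 - lam) ≤ ζ := by
    have h1 := ht0.le.trans (min_le_right _ _)
    have h2 : 0 < 1 - lam := by linarith
    rw [le_div_iff₀ (by positivity)] at h1
    rw [div_le_iff₀ h2]
    have h3 : 0 ≤ K * lam ^ t0 := by positivity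
    nlinarith
  refine ⟨t0, ?_⟩
  intro a b hab t1 ht1 hsup
  have hba : 0 < b - a := by linarith
  have hsub : {y ∈ Icc a b | ∃ t ≥ t1, ¬ Dlb n 1 θ t y} ⊆
      ⋃ s : ℕ, {y ∈ Icc a b | ¬ Dlb n 1 θ (t1 + s) y} := by
    rintro y ⟨hy, t, ht, hty⟩
    rw [mem_iUnion]
    refine ⟨t - t1, hy, ?_⟩
    rwa [Nat.add_sub_cancel' ht]
  have hone : ∀ s : ℕ, volume {y ∈ Icc a b | ¬ Dlb n 1 θ (t1 + s) y} ≤
      ENNReal.ofReal (cK (n + 1) * (K * lam ^ t1) * (b - a) * lam ^ s) := by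
    intro s
    set t := t1 + s with ht
    have hpow : lam ^ t ≤ lam ^ t0 := pow_le_pow_of_le_one hlam0.le hlam1.le (by omega)
    have hκ1 : K * lam ^ t ≤ 1 := by
      refine le_trans ?_ ht01
      exact mul_le_mul_of_nonneg_left hpow (by linarith)
    have h1 := km_scaled (by omega : 0 < n + 2) (hQ n (2 ^ t)) (polyMinors_hQ n (2 ^ t)) a b hab
      (K * lam ^ t) (by positivity) hκ1 (c' * (2 : ℝ) ^ (-(σ * t)))
      (mul_pos hc' (Real.rpow_pos_of_pos (by norm_num) _)) (hsup t (by omega))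
    refine (measure_mono ?_).trans (h1.trans (le_of_eq ?_))
    · rintro y ⟨hy, hy1⟩
      refine ⟨hy, ?_⟩
      unfold Dlb at hy1
      push Not at hy1
      obtain ⟨v, hv, hv1⟩ := hy1
      refine ⟨v, hv, ?_⟩
      rw [one_mul] at hv1
      have h2 : (2 : ℝ) ^ (-(θ * t)) = (2 : ℝ) ^ (-(σ * t)) * lam ^ (n * t) := by
        rw [hlam, ← Real.rpow_natCast, ← Real.rpow_mul (by norm_num), ← Real.rpow_add (by norm_num)]
        congr 1
        push_cast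
        field_simp
        ring
      have h3 : (((n + 1 : ℕ) : ℝ)) * (2 : ℝ) ^ (-(θ * t)) ≤
          c' * (2 : ℝ) ^ (-(σ * t)) * (cG n * (K * lam ^ t) ^ n) := by
        rw [h2, mul_pow, ← pow_mul, mul_comm t n]
        have h4 : ((n + 1 : ℕ) : ℝ) ≤ c' * cG n * K ^ n := by
          have h5 : ((n + 1 : ℕ) : ℝ) = c' * cG n * C := by
            rw [hC]; push_cast; field_simp
          rw [h5]
          exact mul_le_mul_of_nonneg_left hKC (by positivity)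
        have h6 : (0 : ℝ) ≤ (2 : ℝ) ^ (-(σ * t)) * lam ^ (n * t) := by positivity
        calc ((n + 1 : ℕ) : ℝ) * ((2 : ℝ) ^ (-(σ * t)) * lam ^ (n * t))
            ≤ (c' * cG n * K ^ n) * ((2 : ℝ) ^ (-(σ * t)) * lam ^ (n * t)) :=
              mul_le_mul_of_nonneg_right h4 h6
          _ = _ := by ring
      have h7 : (0 : ℝ) < ((n + 1 : ℕ) : ℝ) := by positivity
      calc ((n + 1 : ℕ) : ℝ) * ‖hQ n (2 ^ t) y (cR v)‖
          < ((n + 1 : ℕ) : ℝ) * (2 : ℝ) ^ (-(θ * t)) := mul_lt_mul_of_pos_left hv1 h7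
        _ ≤ _ := h3
    · congr 1
      rw [ht, pow_add]
      ring
  calc volume {y ∈ Icc a b | ∃ t ≥ t1, ¬ Dlb n 1 θ t y}
      ≤ volume (⋃ s : ℕ, {y ∈ Icc a b | ¬ Dlb n 1 θ (t1 + s) y}) := measure_mono hsub
    _ ≤ ∑' s : ℕ, volume {y ∈ Icc a b | ¬ Dlb n 1 θ (t1 + s) y} := measure_iUnion_le _
    _ ≤ ∑' s : ℕ, ENNReal.ofReal (cK (n + 1) * (K * lam ^ t1) * (b - a) * lam ^ s) :=
        ENNReal.tsum_le_tsum hone
    _ = ENNReal.ofReal (∑' s : ℕ, cK (n + 1) * (K * lam ^ t1) * (b - a) * lam ^ s) := by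
        rw [ENNReal.ofReal_tsum_of_nonneg]
        · intro s; positivity
        · exact (summable_geometric_of_lt_one hlam0.le hlam1).mul_left _
    _ ≤ ENNReal.ofReal (ζ * (b - a)) := by
        apply ENNReal.ofReal_le_ofReal
        rw [tsum_mul_left, tsum_geometric_of_lt_one hlam0.le hlam1]
        have h1 : lam ^ t1 ≤ lam ^ t0 := pow_le_pow_of_le_one hlam0.le hlam1.le ht1
        have h2 : 0 < 1 - lam := by linarith
        calc cK (n + 1) * (K * lam ^ t1) * (b - a) * (1 - lam)⁻¹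
            ≤ cK (n + 1) * (K * lam ^ t0) * (b - a) * (1 - lam)⁻¹ := by gcongr
          _ = (cK (n + 1) * K * lam ^ t0 / (1 - lam)) * (b - a) := by
              field_simp
          _ ≤ ζ * (b - a) := mul_le_mul_of_nonneg_right ht02 hba.le

/-- Most points of a fixed interval are good for all large times. -/
theorem stage_fixed (n : ℕ) (hn : 1 ≤ n) (η ζ : ℝ) (hη : 0 < η) (hζ : 0 < ζ) (a b : ℝ)
    (hab : a < b) (ha : |a| ≤ 2) :
    ∃ T : ℕ, volume {y ∈ Icc a b | ∃ t ≥ T, ¬ Dlb n 1 η t y} ≤ ENNReal.ofReal (ζ * (b - a)) := by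
  obtain ⟨Q1, hQ1, h1⟩ := psi_large n a b hab ha
  obtain ⟨t0, ht0⟩ := stage_sum n hn 1 0 η ζ one_pos hη hζ
  obtain ⟨t2, ht2⟩ := pow_unbounded_of_one_lt Q1 (by norm_num : (1 : ℝ) < 2)
  refine ⟨max t0 t2, ht0 a b hab _ (le_max_left _ _) ?_⟩
  intro t ht V hV
  obtain ⟨y, hy, hy1⟩ := h1 (2 ^ t) (by
    refine ht2.le.trans ?_
    exact pow_le_pow_right₀ (by norm_num) ((le_max_right _ _).trans ht)) V hV
  refine ⟨y, hy, ?_⟩
  simpa using hy1

/-- Most points of the interval `[β + r/2, β + r]` are good for all large times. -/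
theorem stage_event (n : ℕ) (hn : 1 ≤ n) (τ η θ ζ : ℝ) (hτ : 1 ≤ τ) (hη : 0 ≤ η) (hη1 : η ≤ 1)
    (hθ : 1 - (1 - η) / τ < θ) (hζ : 0 < ζ) (T : ℕ) :
    ∃ t0 : ℕ, ∀ x, (∀ t ≥ T, Dlb n 1 η t x) → ∀ β R : ℝ, |β| ≤ 2 → 0 < R → |x - β| ≤ R →
      ∀ t1 ≥ t0, volume {y ∈ Icc (β + R ^ τ / 2) (β + R ^ τ) | ∃ t ≥ t1, ¬ Dlb n 1 θ t y} ≤
        ENNReal.ofReal (ζ * (R ^ τ / 2)) := by
  obtain ⟨c', hc', h1⟩ := psi_lower n τ η hτ hη hη1 T
  obtain ⟨t0, ht0⟩ := stage_sum n hn c' (1 - (1 - η) / τ) θ ζ hc' hθ hζ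
  refine ⟨t0, ?_⟩
  intro x hx β R hβ hR hxβ t1 ht1
  have hr : 0 < R ^ τ := Real.rpow_pos_of_pos hR τ
  have h2 := ht0 (β + R ^ τ / 2) (β + R ^ τ) (by linarith) t1 ht1 (by
    intro t _ V hV
    obtain ⟨y, hy, hy1⟩ := h1 x hx β R hβ hR hxβ (2 ^ t) (one_le_pow₀ (by norm_num)) V hV
    refine ⟨y, hy, ?_⟩
    have h3 : ((2 : ℝ) ^ t) ^ (-(1 - (1 - η) / τ)) = (2 : ℝ) ^ (-((1 - (1 - η) / τ) * t)) := by
      rw [← Real.rpow_natCast 2 t, ← Real.rpow_mul (by norm_num)]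
      congr 1; ring
    rwa [h3] at hy1)
  refine h2.trans (le_of_eq ?_)
  congr 1
  ring

end Pool.Agent.Lib_helper71.Normal
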