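import Pool.Agent.Lib_helper71.Normal.Defs

/-!
Module W3 for MP_f09850_nt: exponential sums along `b ^ j` at rational shifts `α + s / D`.
-/

set_option autoImplicit false

namespace Pool.Agent.Lib_helper71.Normal.W3

open Filter Topology

lemma e_add (x y : ℝ) : e (x + y) = e x * e y := by
  unfold e
  rw [← Complex.exp_add]
  congr 1
  push_cast
  ring

lemma norm_e (x : ℝ) : ‖e x‖ = 1 := by
  unfold e
  rw [show (2 * Real.pi * x * Complex.I : ℂ) = ((2 * Real.pi * x : ℝ) : ℂ) * Complex.I by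
    push_cast; ring]
  exact Complex.norm_exp_ofReal_mul_I _

lemma conj_e (x : ℝ) : (starRingEnd ℂ) (e x) = e (-x) := by
  unfold e
  rw [← Complex.exp_conj]
  congr 1
  simp only [map_mul, Complex.conj_ofReal, Complex.conj_I, map_ofNat]
  push_cast
  ring

lemma e_eq_one_iff (x : ℝ) : e x = 1 ↔ ∃ n : ℤ, x = n := by
  unfold e
  rw [Complex.exp_eq_one_iff]
  constructor
  · rintro ⟨n, hn⟩
    refine ⟨n, ?_⟩
    have hpi : (2 * Real.pi * Complex.I : ℂ) ≠ 0 := Complex.two_pi_I_ne_zero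
    have h2 : (x : ℂ) * (2 * Real.pi * Complex.I) = n * (2 * Real.pi * Complex.I) := by
      rw [← hn]; ring
    have h3 := mul_right_cancel₀ hpi h2
    exact_mod_cast h3
  · rintro ⟨n, rfl⟩
    refine ⟨n, ?_⟩
    push_cast
    ring

lemma e_nat_mul (n : ℕ) (x : ℝ) : e (n * x) = e x ^ n := by
  unfold e
  rw [← Complex.exp_nat_mul]
  congr 1
  push_cast
  ring

/-- Orthogonality of characters mod `D`. -/
lemma sum_char (D : ℕ) (hD : 0 < D) (K : ℤ) :
    ∑ s ∈ Finset.range D, e (K * ((s : ℝ) / D)) = if (D : ℤ) ∣ K then (D : ℂ) else 0 := by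
  have hD' : (D : ℝ) ≠ 0 := by exact_mod_cast hD.ne'
  have hterm : ∀ s : ℕ, e (K * ((s : ℝ) / D)) = e (K / D) ^ s := by
    intro s
    rw [← e_nat_mul]
    congr 1
    ring
  simp only [hterm]
  split_ifs with h
  · obtain ⟨q, hq⟩ := h
    have : e (K / D) = 1 := by
      rw [e_eq_one_iff]
      refine ⟨q, ?_⟩
      rw [hq]
      push_cast
      field_simp
    simp [this]
  · have hne : e (K / D) ≠ 1 := by
      rw [Ne, e_eq_one_iff]
      rintro ⟨n, hn⟩
      apply h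
      refine ⟨n, ?_⟩
      have : (K : ℝ) = D * n := by
        rw [← hn]
        field_simp
      exact_mod_cast this
    rw [geom_sum_eq hne]
    have : e (K / D) ^ D = 1 := by
      rw [← e_nat_mul, e_eq_one_iff]
      refine ⟨K, ?_⟩
      field_simp
    rw [this, sub_self, zero_div]

/-- The second moment over all shifts `s / D`. -/
lemma orth (D : ℕ) (hD : 0 < D) (F : Finset ℕ) (u : ℕ → ℤ)
    (h : ∀ i ∈ F, ∀ j ∈ F, i ≠ j → ¬ (D : ℤ) ∣ u j - u i) (α : ℝ) :
    ∑ s ∈ Finset.range D, ‖∑ j ∈ F, e (u j * (α + s / D))‖ ^ 2 = D * F.card := by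
  have key : ((∑ s ∈ Finset.range D, ‖∑ j ∈ F, e (u j * (α + s / D))‖ ^ 2 : ℝ) : ℂ) =
      ((D * F.card : ℝ) : ℂ) := by
    push_cast
    have h1 : ∀ s ∈ Finset.range D, ((‖∑ j ∈ F, e (u j * (α + s / D))‖ : ℂ)) ^ 2 =
        ∑ j ∈ F, ∑ i ∈ F, e ((u j - u i : ℤ) * α) * e ((u j - u i : ℤ) * ((s : ℝ) / D)) := by
      intro s _
      rw [← Complex.mul_conj', map_sum, Finset.sum_mul_sum]
      apply Finset.sum_congr rfl
      intro j _
      apply Finset.sum_congr rfl
      intro i _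
      rw [conj_e, ← e_add, ← e_add]
      congr 1
      push_cast
      ring
    rw [Finset.sum_congr rfl h1, Finset.sum_comm]
    have h2 : ∀ j ∈ F, ∑ s ∈ Finset.range D, ∑ i ∈ F,
        e ((u j - u i : ℤ) * α) * e ((u j - u i : ℤ) * ((s : ℝ) / D)) = D := by
      intro j hj
      rw [Finset.sum_comm]
      simp only [← Finset.mul_sum]
      rw [Finset.sum_eq_single_of_mem j hj]
      · rw [sum_char D hD]
        simp [e]
      · intro i hi hij
        rw [sum_char D hD, if_neg (h i hi j hj hij), mul_zero]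
    rw [Finset.sum_congr rfl h2]
    simp [mul_comm]
  exact_mod_cast key


lemma not_dvd_aux {D B g b m i j : ℕ} (hp : D.Prime) (hDg : B ^ g < D) (hDB : B < D)
    (hb : 2 ≤ b) (hbB : b ≤ B) (hm : 1 ≤ m) (hmB : m ≤ B) (hij : i < j) (hjg : j < i + g) :
    ¬ D ∣ m * b ^ i * (b ^ (j - i) - 1) := by
  intro h
  have hb1 : 2 ≤ b ^ (j - i) := by
    calc 2 ≤ b := hb
      _ = b ^ 1 := (pow_one b).symm
      _ ≤ b ^ (j - i) := Nat.pow_le_pow_right (by omega) (by omega)
  have hb2 : b ^ (j - i) ≤ B ^ g := by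
    calc b ^ (j - i) ≤ B ^ (j - i) := Nat.pow_le_pow_left hbB _
      _ ≤ B ^ g := Nat.pow_le_pow_right (by omega) (by omega)
  rcases (Nat.Prime.dvd_mul hp).1 h with h | h
  · rcases (Nat.Prime.dvd_mul hp).1 h with h | h
    · have := Nat.le_of_dvd (by omega) h
      omega
    · have := Nat.le_of_dvd (by omega) (hp.dvd_of_dvd_pow h)
      omega
  · have := Nat.le_of_dvd (by omega) h
    omega

lemma not_dvd {D B g b m a i j : ℕ} (hp : D.Prime) (hDg : B ^ g < D) (hDB : B < D)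
    (hb : 2 ≤ b) (hbB : b ≤ B) (hm : 1 ≤ m) (hmB : m ≤ B)
    (hi : i ∈ Finset.Ico a (a + g)) (hj : j ∈ Finset.Ico a (a + g)) (hij : i ≠ j) :
    ¬ (D : ℤ) ∣ (m * b ^ j : ℤ) - (m * b ^ i : ℤ) := by
  rw [Finset.mem_Ico] at hi hj
  rcases lt_or_gt_of_ne hij with h | h
  · have h1 := not_dvd_aux hp hDg hDB hb hbB hm hmB h (by omega : j < i + g)
    intro h2
    apply h1
    have h3 : ((m * b ^ i * (b ^ (j - i) - 1) : ℕ) : ℤ) = (m * b ^ j : ℤ) - (m * b ^ i : ℤ) := by
      have hpow : b ^ j = b ^ i * b ^ (j - i) := by rw [← pow_add]; congr 1; omega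
      have h1b : 1 ≤ b ^ (j - i) := Nat.one_le_pow _ _ (by omega)
      have hpow' : (b : ℤ) ^ j = b ^ i * b ^ (j - i) := by exact_mod_cast hpow
      push_cast [h1b]
      rw [hpow']
      ring
    rw [← h3] at h2
    exact_mod_cast h2
  · have h1 := not_dvd_aux hp hDg hDB hb hbB hm hmB h (by omega : i < j + g)
    intro h2
    apply h1
    have h3 : ((m * b ^ j * (b ^ (i - j) - 1) : ℕ) : ℤ) = -((m * b ^ j : ℤ) - (m * b ^ i : ℤ)) := by
      have hpow : b ^ i = b ^ j * b ^ (i - j) := by rw [← pow_add]; congr 1; omega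
      have h1b : 1 ≤ b ^ (i - j) := Nat.one_le_pow _ _ (by omega)
      have hpow' : (b : ℤ) ^ i = b ^ j * b ^ (i - j) := by exact_mod_cast hpow
      push_cast [h1b]
      rw [hpow']
      ring
    have h4 := (dvd_neg (a := (D : ℤ))).2 h2
    rw [← h3] at h4
    exact_mod_cast h4

/-- The first moment of one block over the shifts `s < R ≤ D`. -/
lemma block_sum {D B g b m R : ℕ} (hp : D.Prime) (hDg : B ^ g < D) (hDB : B < D)
    (hb : 2 ≤ b) (hbB : b ≤ B) (hm : 1 ≤ m) (hmB : m ≤ B) (hR : R ≤ D) (a : ℕ) (α : ℝ) :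
    ∑ s ∈ Finset.range R, ‖∑ j ∈ Finset.Ico a (a + g), e (m * b ^ j * (α + s / D))‖ ≤
      Real.sqrt (R * (D * g)) := by
  apply Real.le_sqrt_of_sq_le
  refine (sq_sum_le_card_mul_sum_sq).trans ?_
  rw [Finset.card_range]
  apply mul_le_mul_of_nonneg_left _ (Nat.cast_nonneg R)
  have h1 := orth D hp.pos (Finset.Ico a (a + g)) (fun j => (m * b ^ j : ℤ))
    (fun i hi j hj hij => not_dvd hp hDg hDB hb hbB hm hmB hi hj hij) α
  rw [Nat.card_Ico, Nat.add_sub_cancel_left] at h1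
  rw [← h1]
  push_cast
  apply Finset.sum_le_sum_of_subset_of_nonneg (Finset.range_subset_range.2 hR)
  intro s _ _
  positivity

lemma sum_blocks (f : ℕ → ℂ) (J g q : ℕ) :
    ‖∑ j ∈ Finset.Ico J (J + q * g), f j‖ ≤
      ∑ k ∈ Finset.range q, ‖∑ j ∈ Finset.Ico (J + k * g) (J + k * g + g), f j‖ := by
  induction q with
  | zero => simp
  | succ q ih =>
    rw [Finset.sum_range_succ, ← Finset.sum_Ico_consecutive f (n := J + q * g) (by omega)
      (by nlinarith)]
    have : J + (q + 1) * g = J + q * g + g := by ring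
    rw [this]
    exact (norm_add_le _ _).trans (add_le_add_left ih _)

lemma norm_sum_le_blocks (f : ℕ → ℂ) (hf : ∀ j, ‖f j‖ ≤ 1) (J g L N : ℕ) (hg : 0 < g)
    (hN : N ≤ L) :
    ‖∑ j ∈ Finset.Ico J (J + N), f j‖ ≤
      (∑ k ∈ Finset.range (L / g), ‖∑ j ∈ Finset.Ico (J + k * g) (J + k * g + g), f j‖) + g := by
  have hqN : N / g * g ≤ N := Nat.div_mul_le_self N g
  rw [← Finset.sum_Ico_consecutive f (n := J + N / g * g) (by omega) (by omega)]
  refine (norm_add_le _ _).trans (add_le_add ?_ ?_)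
  · refine (sum_blocks f J g (N / g)).trans ?_
    apply Finset.sum_le_sum_of_subset_of_nonneg
      (Finset.range_subset_range.2 (Nat.div_le_div_right hN))
    intro k _ _
    positivity
  · refine (norm_sum_le _ _).trans ?_
    calc ∑ j ∈ Finset.Ico (J + N / g * g) (J + N), ‖f j‖
        ≤ ∑ j ∈ Finset.Ico (J + N / g * g) (J + N), (1 : ℝ) :=
          Finset.sum_le_sum (fun j _ => hf j)
      _ ≤ g := by
          rw [Finset.sum_const, Nat.card_Ico, nsmul_eq_mul, mul_one]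
          have h1 := Nat.div_add_mod' N g
          have h2 := Nat.mod_lt N hg
          exact_mod_cast (by omega : J + N - (J + N / g * g) ≤ g)

/-- The number of bad shifts for one pair `(b, m)`. -/
lemma bad_card {D B E g b m R L : ℕ} (hp : D.Prime) (hDg : B ^ g < D) (hDB : B < D) (hg : 0 < g)
    (hb : 2 ≤ b) (hbB : b ≤ B) (hm : 1 ≤ m) (hmB : m ≤ B) (hR : R ≤ D) (hDR : D ≤ 2 * E * R)
    (J : ℕ) (α ε η : ℝ) (hε : 0 < ε) (hη : 0 < η) (hη2 : 2 * E ≤ g * (η * ε) ^ 2)
    (S : Finset ℕ) (hS : S ⊆ Finset.range R)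
    (hbad : ∀ s ∈ S, ε * L < ∑ k ∈ Finset.range (L / g),
      ‖∑ j ∈ Finset.Ico (J + k * g) (J + k * g + g), e (m * b ^ j * (α + s / D))‖) :
    (S.card : ℝ) ≤ η * R := by
  rcases Nat.eq_zero_or_pos L with hL | hL
  · subst hL
    have : S = ∅ := by
      rw [Finset.eq_empty_iff_forall_notMem]
      intro s hs
      have := hbad s hs
      simp at this
    rw [this]
    simp only [Finset.card_empty, Nat.cast_zero]
    positivity
  have hL' : (0 : ℝ) < L := by exact_mod_cast hL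
  have hg' : (0 : ℝ) < g := by exact_mod_cast hg
  have h1 : (S.card : ℝ) * (ε * L) ≤ ∑ s ∈ S, ∑ k ∈ Finset.range (L / g),
      ‖∑ j ∈ Finset.Ico (J + k * g) (J + k * g + g), e (m * b ^ j * (α + s / D))‖ := by
    rw [← nsmul_eq_mul]
    apply Finset.card_nsmul_le_sum
    intro s hs
    exact (hbad s hs).le
  have h2 : ∑ s ∈ S, ∑ k ∈ Finset.range (L / g),
      ‖∑ j ∈ Finset.Ico (J + k * g) (J + k * g + g), e (m * b ^ j * (α + s / D))‖ ≤
      ∑ k ∈ Finset.range (L / g), Real.sqrt (R * (D * g)) := by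
    rw [Finset.sum_comm]
    apply Finset.sum_le_sum
    intro k _
    refine le_trans ?_ (block_sum hp hDg hDB hb hbB hm hmB hR (J + k * g) α)
    apply Finset.sum_le_sum_of_subset_of_nonneg hS
    intro s _ _
    positivity
  have h3 : Real.sqrt (R * (D * g)) ≤ R * g * (η * ε) := by
    apply Real.sqrt_le_iff.2
    refine ⟨by positivity, ?_⟩
    have hDR' : (D : ℝ) ≤ 2 * E * R := by exact_mod_cast hDR
    calc (R : ℝ) * (D * g) ≤ R * ((2 * E * R) * g) := by gcongr
      _ = (R : ℝ) ^ 2 * g * (2 * E) := by ring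
      _ ≤ (R : ℝ) ^ 2 * g * (g * (η * ε) ^ 2) := by gcongr
      _ = (R * g * (η * ε)) ^ 2 := by ring
  have h4 : ∑ k ∈ Finset.range (L / g), Real.sqrt (R * (D * g)) ≤ L * (R * (η * ε)) := by
    rw [Finset.sum_const, Finset.card_range, nsmul_eq_mul]
    have h5 : ((L / g : ℕ) : ℝ) * g ≤ L := by exact_mod_cast Nat.div_mul_le_self L g
    calc ((L / g : ℕ) : ℝ) * Real.sqrt (R * (D * g)) ≤ ((L / g : ℕ) : ℝ) * (R * g * (η * ε)) := by
          gcongr
      _ = (((L / g : ℕ) : ℝ) * g) * (R * (η * ε)) := by ring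
      _ ≤ L * (R * (η * ε)) := by gcongr
  have h6 : (S.card : ℝ) * (ε * L) ≤ (η * R) * (ε * L) := by
    calc (S.card : ℝ) * (ε * L) ≤ _ := h1
      _ ≤ _ := h2
      _ ≤ L * (R * (η * ε)) := h4
      _ = (η * R) * (ε * L) := by ring
  exact le_of_mul_le_mul_right h6 (by positivity)

end Pool.Agent.Lib_helper71.Normal.W3

namespace Pool.Agent.Lib_helper71.Normal

open W3

open Classical in
theorem weyl_shift (B E : ℕ) (hE : 1 ≤ E) (ε ζ : ℝ) (hε : 0 < ε) (hζ : 0 < ζ) :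
    ∃ D N0 : ℕ, E ≤ D ∧ ∀ (α : ℝ) (L : ℕ) (J : ℕ → ℕ),
      (((Finset.range (D / E)).filter (fun s : ℕ => ∃ b m N : ℕ, 2 ≤ b ∧ b ≤ B ∧ 1 ≤ m ∧ m ≤ B ∧
        N ≤ L ∧ ε * L + N0 < ‖∑ j ∈ Finset.Ico (J b) (J b + N),
          e (m * b ^ j * (α + s / D))‖)).card : ℝ) ≤ ζ * ((D / E : ℕ) : ℝ) := by
  set η : ℝ := ζ / ((B : ℝ) + 1) ^ 2 with hη
  have hη0 : 0 < η := by positivity
  obtain ⟨g, hg⟩ := exists_nat_gt (2 * E / (η * ε) ^ 2)
  have hg0 : 0 < g := by
    have : (0 : ℝ) < g := lt_of_le_of_lt (by positivity) hg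
    exact_mod_cast this
  have hg2 : (2 * E : ℝ) ≤ g * (η * ε) ^ 2 := by
    rw [div_lt_iff₀ (by positivity)] at hg
    exact hg.le
  obtain ⟨D, hD, hp⟩ := Nat.exists_infinite_primes (B ^ g + B + 2 * E + 1)
  refine ⟨D, g, by omega, ?_⟩
  intro α L J
  set R := D / E with hR
  have hRD : R ≤ D := Nat.div_le_self D E
  have hDR : D ≤ 2 * E * R := by
    have h1 := Nat.div_add_mod D E
    have h2 := Nat.mod_lt D (by omega : 0 < E)
    have h3 : 1 ≤ R := by
      rw [hR, Nat.one_le_div_iff (by omega)]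
      omega
    rw [← hR] at h1
    nlinarith
  set T : ℕ → ℕ → ℕ → ℝ := fun b m s => ∑ k ∈ Finset.range (L / g),
      ‖∑ j ∈ Finset.Ico (J b + k * g) (J b + k * g + g), e (m * b ^ j * (α + s / D))‖ with hT
  have hsub : (Finset.range R).filter (fun s : ℕ => ∃ b m N : ℕ, 2 ≤ b ∧ b ≤ B ∧ 1 ≤ m ∧ m ≤ B ∧
        N ≤ L ∧ ε * L + g < ‖∑ j ∈ Finset.Ico (J b) (J b + N),
          e (m * b ^ j * (α + s / D))‖) ⊆
      (Finset.Icc 2 B).biUnion (fun b => (Finset.Icc 1 B).biUnion (fun m =>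
        (Finset.range R).filter (fun s => ε * L < T b m s))) := by
    intro s hs
    rw [Finset.mem_filter] at hs
    obtain ⟨hsR, b, m, N, hb, hbB, hm, hmB, hN, hbig⟩ := hs
    rw [Finset.mem_biUnion]
    refine ⟨b, Finset.mem_Icc.2 ⟨hb, hbB⟩, ?_⟩
    rw [Finset.mem_biUnion]
    refine ⟨m, Finset.mem_Icc.2 ⟨hm, hmB⟩, ?_⟩
    rw [Finset.mem_filter]
    refine ⟨hsR, ?_⟩
    have := norm_sum_le_blocks (fun j => e (m * b ^ j * (α + s / D))) (fun j => (norm_e _).le)
      (J b) g L N hg0 hN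
    simp only [hT]
    linarith
  have hcard : ∀ b ∈ Finset.Icc 2 B, ∀ m ∈ Finset.Icc 1 B,
      (((Finset.range R).filter (fun s => ε * L < T b m s)).card : ℝ) ≤ η * R := by
    intro b hb m hm
    rw [Finset.mem_Icc] at hb hm
    apply bad_card (D := D) (B := B) (E := E) (g := g) (b := b) (m := m) (R := R) (L := L) hp
      (by omega) (by omega) hg0 hb.1 hb.2 hm.1 hm.2 hRD hDR (J b) α ε η hε hη0 hg2 _
      (Finset.filter_subset _ _)
    intro s hs
    rw [Finset.mem_filter] at hs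
    exact hs.2
  calc _ ≤ (((Finset.Icc 2 B).biUnion (fun b => (Finset.Icc 1 B).biUnion (fun m =>
        (Finset.range R).filter (fun s => ε * L < T b m s)))).card : ℝ) := by
        exact_mod_cast Finset.card_le_card hsub
    _ ≤ ∑ b ∈ Finset.Icc 2 B, ∑ m ∈ Finset.Icc 1 B,
        (((Finset.range R).filter (fun s => ε * L < T b m s)).card : ℝ) := by
        have h1 := Finset.card_biUnion_le (s := Finset.Icc 2 B) (t := fun b =>
          (Finset.Icc 1 B).biUnion (fun m => (Finset.range R).filter (fun s => ε * L < T b m s)))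
        have h2 : ∀ b ∈ Finset.Icc 2 B, ((Finset.Icc 1 B).biUnion (fun m =>
            (Finset.range R).filter (fun s => ε * L < T b m s))).card ≤
            ∑ m ∈ Finset.Icc 1 B, ((Finset.range R).filter (fun s => ε * L < T b m s)).card :=
          fun b _ => Finset.card_biUnion_le
        exact_mod_cast h1.trans (Finset.sum_le_sum h2)
    _ ≤ ∑ b ∈ Finset.Icc 2 B, ∑ m ∈ Finset.Icc 1 B, η * R :=
        Finset.sum_le_sum (fun b hb => Finset.sum_le_sum (fun m hm => hcard b hb m hm))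
    _ ≤ ζ * (R : ℝ) := by
        rw [Finset.sum_const, Finset.sum_const, Nat.card_Icc, Nat.card_Icc, nsmul_eq_mul,
          nsmul_eq_mul]
        have h1 : ((B + 1 - 2 : ℕ) : ℝ) ≤ (B : ℝ) + 1 := by
          have : B + 1 - 2 ≤ B + 1 := Nat.sub_le _ _
          exact_mod_cast this
        have h2 : ((B + 1 - 1 : ℕ) : ℝ) ≤ (B : ℝ) + 1 := by
          have : B + 1 - 1 ≤ B + 1 := Nat.sub_le _ _
          exact_mod_cast this
        calc ((B + 1 - 2 : ℕ) : ℝ) * (((B + 1 - 1 : ℕ) : ℝ) * (η * R))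
            ≤ ((B : ℝ) + 1) * (((B : ℝ) + 1) * (η * R)) := by gcongr
          _ = ζ * R := by
            rw [hη]
            field_simp

end Pool.Agent.Lib_helper71.Normal
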