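import Pool.Agent.Lib_helper71.Normal.Defs

/-!
Tools for the normality part: averaging over shifts, comparison of exponential sums at close
points, and the scale function.
-/

set_option autoImplicit false

namespace Pool.Agent.Lib_helper71.Normal

open Set MeasureTheory

/-- The smallest `j` with `y ≤ b ^ j`. -/
noncomputable def jj (b : ℕ) (y : ℝ) : ℕ := Nat.clog b ⌈y⌉₊

lemma jj_le_iff (b : ℕ) (hb : 2 ≤ b) (y : ℝ) (j : ℕ) : jj b y ≤ j ↔ y ≤ (b : ℝ) ^ j := by
  unfold jj
  rw [Nat.clog_le_iff_le_pow (by omega), Nat.ceil_le]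
  push_cast
  rfl

lemma le_pow_jj (b : ℕ) (hb : 2 ≤ b) (y : ℝ) : y ≤ (b : ℝ) ^ (jj b y) :=
  (jj_le_iff b hb y _).mp le_rfl

lemma pow_jj_le (b : ℕ) (hb : 2 ≤ b) (y : ℝ) (hy : 1 ≤ y) : (b : ℝ) ^ (jj b y) ≤ b * y := by
  have hbR : (1 : ℝ) ≤ b := by exact_mod_cast (by omega : 1 ≤ b)
  rcases Nat.eq_zero_or_pos (jj b y) with h0 | h0
  · rw [h0, pow_zero]
    nlinarith
  · obtain ⟨j, hj⟩ : ∃ j, jj b y = j + 1 := ⟨jj b y - 1, by omega⟩
    have h1 : ¬ jj b y ≤ j := by omega
    rw [jj_le_iff b hb] at h1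
    push Not at h1
    rw [hj, pow_succ, mul_comm]
    exact mul_le_mul_of_nonneg_left h1.le (by linarith)

lemma jj_anti (b c : ℕ) (hc : 2 ≤ c) (hcb : c ≤ b) (y : ℝ) : jj b y ≤ jj c y := by
  rw [jj_le_iff b (hc.trans hcb)]
  refine (le_pow_jj c hc y).trans ?_
  apply pow_le_pow_left₀ (by positivity)
  exact_mod_cast hcb

lemma jj_two_le (b B : ℕ) (hb : 2 ≤ b) (hbB : b ≤ B) (y : ℝ) : jj 2 y ≤ B * jj b y := by
  rw [jj_le_iff 2 le_rfl]
  refine (le_pow_jj b hb y).trans ?_
  rw [pow_mul]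
  apply pow_le_pow_left₀ (by positivity)
  have h1 : b ≤ 2 ^ B := hbB.trans (Nat.lt_two_pow_self).le
  exact_mod_cast h1

lemma norm_e (x : ℝ) : ‖e x‖ = 1 := by
  unfold e
  rw [show (2 * Real.pi * x * Complex.I : ℂ) = ((2 * Real.pi * x : ℝ) : ℂ) * Complex.I by
    push_cast; ring]
  exact Complex.norm_exp_ofReal_mul_I _

lemma norm_e_sub_le (x y : ℝ) : ‖e x - e y‖ ≤ 2 * Real.pi * |x - y| := by
  have h1 : e x - e y = e y * (Complex.exp (Complex.I * ((2 * Real.pi * (x - y) : ℝ) : ℂ)) - 1) := by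
    unfold e
    rw [mul_sub, ← Complex.exp_add, mul_one]
    congr 2
    push_cast
    ring
  rw [h1, norm_mul, norm_e, one_mul]
  refine (Real.norm_exp_I_mul_ofReal_sub_one_le).trans ?_
  rw [Real.norm_eq_abs, abs_mul, abs_of_pos (by positivity : (0 : ℝ) < 2 * Real.pi)]

lemma sum_pow_le (b : ℕ) (hb : 2 ≤ b) (J N : ℕ) :
    ∑ j ∈ Finset.Ico J (J + N), (b : ℝ) ^ j ≤ (b : ℝ) ^ (J + N) := by
  induction N with
  | zero => simp
  | succ N ih =>
    rw [← add_assoc, Finset.sum_Ico_succ_top (by omega)]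
    have h1 : (2 : ℝ) ≤ b := by exact_mod_cast hb
    have h2 : (0 : ℝ) < (b : ℝ) ^ (J + N) := by positivity
    rw [pow_succ]
    nlinarith

/-- Comparison of exponential sums at close points. -/
lemma sum_e_compare (b m J N : ℕ) (hb : 2 ≤ b) (ξ x : ℝ) :
    ‖∑ j ∈ Finset.Ico J (J + N), e (m * b ^ j * ξ)‖ ≤
      ‖∑ j ∈ Finset.Ico J (J + N), e (m * b ^ j * x)‖ +
        2 * Real.pi * m * |ξ - x| * (b : ℝ) ^ (J + N) := by
  have h1 : ∑ j ∈ Finset.Ico J (J + N), e (m * b ^ j * ξ) =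
      ∑ j ∈ Finset.Ico J (J + N), e (m * b ^ j * x) +
      ∑ j ∈ Finset.Ico J (J + N), (e (m * b ^ j * ξ) - e (m * b ^ j * x)) := by
    rw [← Finset.sum_add_distrib]
    apply Finset.sum_congr rfl
    intro j _
    ring
  rw [h1]
  refine (norm_add_le _ _).trans ?_
  gcongr
  refine (norm_sum_le _ _).trans ?_
  calc ∑ j ∈ Finset.Ico J (J + N), ‖e (m * b ^ j * ξ) - e (m * b ^ j * x)‖
      ≤ ∑ j ∈ Finset.Ico J (J + N), (2 * Real.pi * m * |ξ - x|) * (b : ℝ) ^ j := by
        apply Finset.sum_le_sum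
        intro j _
        refine (norm_e_sub_le _ _).trans (le_of_eq ?_)
        rw [← mul_sub, abs_mul, abs_of_nonneg (by positivity : (0 : ℝ) ≤ m * (b : ℝ) ^ j)]
        ring
    _ = (2 * Real.pi * m * |ξ - x|) * ∑ j ∈ Finset.Ico J (J + N), (b : ℝ) ^ j := by
        rw [Finset.mul_sum]
    _ ≤ (2 * Real.pi * m * |ξ - x|) * (b : ℝ) ^ (J + N) :=
        mul_le_mul_of_nonneg_left (sum_pow_le b hb J N) (by positivity)

open Classical in
/-- Averaging over shifts. -/
lemma averaging (H : Set ℝ) (D S : ℕ) (hS : 1 ≤ S) (γ lam : ℝ) (hγ : 0 ≤ γ) (hlam : 0 < lam)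
    (hH : volume H ≤ ENNReal.ofReal γ) :
    volume {x : ℝ | lam * S ≤
      (((Finset.range S).filter (fun σ : ℕ => x + (σ : ℝ) / D ∈ H)).card : ℝ)} ≤
      ENNReal.ofReal (γ / lam) := by
  have hS0 : (0 : ℝ) < S := by exact_mod_cast hS
  set H' := toMeasurable volume H with hH'
  have hH'm : MeasurableSet H' := measurableSet_toMeasurable _ _
  have hH'v : volume H' ≤ ENNReal.ofReal γ := by rw [hH', measure_toMeasurable]; exact hH
  have hsub' : H ⊆ H' := subset_toMeasurable _ _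
  let f : ℝ → ENNReal := fun x => ∑ σ ∈ Finset.range S, H'.indicator 1 (x + (σ : ℝ) / D)
  have hf : Measurable f := by
    apply Finset.measurable_sum
    intro σ _
    exact (measurable_one.indicator hH'm).comp (measurable_add_const _)
  have hint : ∫⁻ x, f x = S * volume H' := by
    have h0 : ∫⁻ x, f x = ∑ σ ∈ Finset.range S,
        ∫⁻ x, H'.indicator (1 : ℝ → ENNReal) (x + (σ : ℝ) / D) := by
      apply lintegral_finsetSum
      intro σ _
      exact (measurable_one.indicator hH'm).comp (measurable_add_const _)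
    rw [h0]
    have h1 : ∀ σ ∈ Finset.range S, ∫⁻ x, H'.indicator (1 : ℝ → ENNReal) (x + (σ : ℝ) / D) =
        volume H' := by
      intro σ _
      rw [lintegral_add_right_eq_self (fun x => H'.indicator (1 : ℝ → ENNReal) x)]
      rw [lintegral_indicator_one hH'm]
    rw [Finset.sum_congr rfl h1, Finset.sum_const, Finset.card_range, nsmul_eq_mul]
  have hsub : {x : ℝ | lam * S ≤
      (((Finset.range S).filter (fun σ : ℕ => x + (σ : ℝ) / D ∈ H)).card : ℝ)} ⊆
      {x | ENNReal.ofReal (lam * S) ≤ f x} := by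
    intro x hx
    rw [mem_ofPred_eq] at hx ⊢
    have h1 : (((Finset.range S).filter (fun σ : ℕ => x + (σ : ℝ) / D ∈ H)).card : ENNReal) ≤
        f x := by
      rw [Finset.card_filter]
      push_cast
      apply Finset.sum_le_sum
      intro σ _
      by_cases h : x + (σ : ℝ) / D ∈ H
      · rw [if_pos h, indicator_of_mem (hsub' h)]
        simp
      · rw [if_neg h]
        simp
    refine le_trans ?_ h1
    rw [← ENNReal.ofReal_natCast]
    exact ENNReal.ofReal_le_ofReal hx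
  have hmark := mul_meas_ge_le_lintegral (μ := volume) hf (ENNReal.ofReal (lam * S))
  rw [hint] at hmark
  have hpos : ENNReal.ofReal (lam * S) ≠ 0 := by
    rw [Ne, ENNReal.ofReal_eq_zero]
    push Not
    positivity
  calc volume {x : ℝ | lam * S ≤
        (((Finset.range S).filter (fun σ : ℕ => x + (σ : ℝ) / D ∈ H)).card : ℝ)}
      ≤ volume {x | ENNReal.ofReal (lam * S) ≤ f x} := measure_mono hsub
    _ ≤ (S * volume H') / ENNReal.ofReal (lam * S) := by
        rw [ENNReal.le_div_iff_mul_le (Or.inl hpos) (Or.inl ENNReal.ofReal_ne_top), mul_comm]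
        exact hmark
    _ ≤ (ENNReal.ofReal S * ENNReal.ofReal γ) / ENNReal.ofReal (lam * S) := by
        gcongr
        rw [ENNReal.ofReal_natCast]
    _ = ENNReal.ofReal (γ / lam) := by
        rw [← ENNReal.ofReal_mul hS0.le, ← ENNReal.ofReal_div_of_pos (by positivity)]
        congr 1
        field_simp

end Pool.Agent.Lib_helper71.Normal
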