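import Pool.Agent.Lib_helper71.Normal.Construct
import Pool.Agent.Lib_helper71.Normal.WeylTools
import Pool.Agent.Lib_helper71.Normal.W2
import Pool.Agent.Lib_helper71.Normal.W3

/-!
The step of the construction of normal numbers.
-/

set_option autoImplicit false

namespace Pool.Agent.Lib_helper71.Normal

open Matrix Module Polynomial Set MeasureTheory Filter Topology

/-- The number of digits in base `b` that describes the length of the interval. -/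
noncomputable def Js (s : St) (b : ℕ) : ℕ := jj b (1 / (s.b - s.a))

/-- The exponential sums over the new digits are small. -/
def WeylOK (B : ℕ) (ε : ℝ) (s s' : St) : Prop :=
  ∀ b m N : ℕ, 2 ≤ b → b ≤ B → 1 ≤ m → m ≤ B → Js s b + N ≤ Js s' b →
    ∀ ξ ∈ Icc s'.a s'.b,
      ‖∑ j ∈ Finset.Ico (Js s b) (Js s b + N), e (m * b ^ j * ξ)‖ ≤ ε * (Js s b + N)

/-- The points with small exponential sums. -/
def GoodW (B : ℕ) (ε : ℝ) (N0 : ℕ) (s : St) : Set ℝ :=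
  {x ∈ Icc s.a s.b | ∀ b m N : ℕ, 2 ≤ b → b ≤ B → 1 ≤ m → m ≤ B →
    ‖∑ j ∈ Finset.Ico (Js s b) (Js s b + N), e (m * b ^ j * x)‖ ≤ ε * N + N0}

lemma bad_small' (n : ℕ) (hn : 1 ≤ n) (θ η : ℝ) (hη : 0 < η) (s : St) (hs : Inv n θ s) :
    ∃ T : ℕ, volume (Icc s.a s.b \ Good n θ η T s) ≤ ENNReal.ofReal (5 / 32 * (s.b - s.a)) := by
  obtain ⟨h1, h2, h3, h4⟩ := hs
  obtain ⟨T, hT⟩ := stage_fixed n hn η (1 / 32) hη (by norm_num) s.a s.b h1
    (by rw [abs_le]; constructor <;> linarith)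
  refine ⟨T, ?_⟩
  have hsub : Icc s.a s.b \ Good n θ η T s ⊆
      {y ∈ Icc s.a s.b | ∃ t ≥ s.t, ¬ Dlb n 1 θ t y} ∪
      {y ∈ Icc s.a s.b | ∃ t ≥ T, ¬ Dlb n 1 η t y} := by
    rintro y ⟨hy, hyG⟩
    by_contra hcon
    apply hyG
    rw [mem_union] at hcon
    push Not at hcon
    refine ⟨hy, ?_, ?_⟩
    · intro t ht
      by_contra h5
      exact hcon.1 ⟨hy, t, ht, h5⟩
    · intro t ht
      by_contra h5
      exact hcon.2 ⟨hy, t, ht, h5⟩
  calc volume (Icc s.a s.b \ Good n θ η T s) ≤ _ := measure_mono hsub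
    _ ≤ _ := measure_union_le _ _
    _ ≤ ENNReal.ofReal ((s.b - s.a) / 8) + ENNReal.ofReal (1 / 32 * (s.b - s.a)) :=
        add_le_add h4 hT
    _ = ENNReal.ofReal (5 / 32 * (s.b - s.a)) := by
        rw [← ENNReal.ofReal_add (by linarith) (by linarith)]
        congr 1
        ring

lemma badW_small (B : ℕ) (ε : ℝ) (N0 : ℕ)
    (hW : ∀ c d : ℝ, c < d → ∀ J : ℕ → ℕ,
      (∀ b, 2 ≤ b → b ≤ B → 1 ≤ (d - c) * (b : ℝ) ^ J b) →
      volume {x ∈ Icc c d | ∃ b m N : ℕ, 2 ≤ b ∧ b ≤ B ∧ 1 ≤ m ∧ m ≤ B ∧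
        ε * N + N0 < ‖∑ j ∈ Finset.Ico (J b) (J b + N), e (m * b ^ j * x)‖} ≤
        ENNReal.ofReal (1 / 32 * (d - c)))
    (s : St) (hs : s.a < s.b) :
    volume (Icc s.a s.b \ GoodW B ε N0 s) ≤ ENNReal.ofReal (1 / 32 * (s.b - s.a)) := by
  refine (measure_mono ?_).trans (hW s.a s.b hs (Js s) ?_)
  · rintro x ⟨hx, hx1⟩
    refine ⟨hx, ?_⟩
    by_contra hcon
    apply hx1
    refine ⟨hx, ?_⟩
    intro b m N h1 h2 h3 h4
    by_contra h5
    push Not at h5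
    exact hcon ⟨b, m, N, h1, h2, h3, h4, h5⟩
  · intro b hb _
    have h1 : 0 < s.b - s.a := by linarith
    have h2 := le_pow_jj b hb (1 / (s.b - s.a))
    rw [div_le_iff₀ h1] at h2
    unfold Js
    linarith

/-- Choice of the good shift. -/
lemma exists_shift (H : Set ℝ) (x : ℝ) (D S : ℕ) (bad : ℕ → Prop) (hS : 1 ≤ S)
    [DecidablePred (fun σ : ℕ => x + (σ : ℝ) / D ∈ H)] [DecidablePred bad]
    (h1 : ¬ (7 / 8 * (S : ℝ) ≤ (((Finset.range S).filter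
      (fun σ : ℕ => x + (σ : ℝ) / D ∈ H)).card : ℝ)))
    (h2 : (((Finset.range S).filter bad).card : ℝ) ≤ 1 / 16 * S) :
    ∃ σ < S, x + (σ : ℝ) / D ∉ H ∧ ¬ bad σ := by
  by_contra hcon
  push Not at hcon
  have hsub : Finset.range S ⊆
      (Finset.range S).filter (fun σ : ℕ => x + (σ : ℝ) / D ∈ H) ∪
      (Finset.range S).filter bad := by
    intro σ hσ
    rw [Finset.mem_union, Finset.mem_filter, Finset.mem_filter]
    by_cases h : x + (σ : ℝ) / D ∈ H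
    · exact Or.inl ⟨hσ, h⟩
    · exact Or.inr ⟨hσ, hcon σ (Finset.mem_range.mp hσ) h⟩
  have h3 := Finset.card_le_card hsub
  have h4 := h3.trans (Finset.card_union_le _ _)
  rw [Finset.card_range] at h4
  have h5 : (S : ℝ) ≤ (((Finset.range S).filter (fun σ : ℕ => x + (σ : ℝ) / D ∈ H)
     ).card : ℝ) +
      (((Finset.range S).filter bad).card : ℝ) := by exact_mod_cast h4
  push Not at h1
  have h6 : (0 : ℝ) < S := by exact_mod_cast hS
  linarith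

/-- The exponential sums of a point `ξ` that is close to `x'` and very close to `α'`. -/
lemma weyl_check (B b m : ℕ) (hb : 2 ≤ b) (hbB : b ≤ B) (hmB : m ≤ B)
    (ε R r : ℝ) (hε : 0 < ε) (hR : 0 < R) (hr : 0 < r) (J JR J' N0 N0' L K : ℕ)
    (hJJR : J ≤ JR) (hbJR : (b : ℝ) ^ JR ≤ b * (1 / R)) (hbJ' : (b : ℝ) ^ J' ≤ b * (2 / r))
    (ξ x' α' : ℝ) (hξx : |ξ - x'| ≤ 2 * R) (hξα : |ξ - α'| ≤ r)
    (hx' : ∀ N : ℕ, ‖∑ j ∈ Finset.Ico J (J + N), e (m * b ^ j * x')‖ ≤ ε / 8 * N + N0)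
    (hα' : ∀ N ≤ L, ‖∑ j ∈ Finset.Ico JR (JR + N), e (m * b ^ j * α')‖ ≤ ε / (8 * K) * L + N0')
    (hJ : (N0 : ℝ) + 13 * (B : ℝ) ^ 2 ≤ ε / 4 * J)
    (hJR : (N0' : ℝ) + 13 * (B : ℝ) ^ 2 ≤ ε / 4 * JR) (hL : L ≤ K * JR) (hJ'L : J' ≤ L)
    (hK : 1 ≤ K) (N : ℕ) (hN : J + N ≤ J') :
    ‖∑ j ∈ Finset.Ico J (J + N), e (m * b ^ j * ξ)‖ ≤ ε * (J + N) := by
  have hpi : Real.pi < 3.15 := Real.pi_lt_d2
  have hpi0 := Real.pi_pos
  have hb0 : (0 : ℝ) < b := by exact_mod_cast (by omega : 0 < b)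
  have hb1 : (1 : ℝ) ≤ b := by exact_mod_cast (by omega : 1 ≤ b)
  have hbB' : (b : ℝ) ≤ B := by exact_mod_cast hbB
  have hmB' : (m : ℝ) ≤ B := by exact_mod_cast hmB
  have hm0 : (0 : ℝ) ≤ m := Nat.cast_nonneg m
  have hKR : (1 : ℝ) ≤ K := by exact_mod_cast hK
  have hmb : (m : ℝ) * b ≤ (B : ℝ) ^ 2 := by
    rw [pow_two]
    exact mul_le_mul hmB' hbB' hb0.le (by linarith)
  have hconst : 4 * Real.pi * (m * b) ≤ 13 * (B : ℝ) ^ 2 := by
    have h1 : 0 ≤ (m : ℝ) * b := by positivity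
    nlinarith
  have hJ0 : (0 : ℝ) ≤ J := Nat.cast_nonneg J
  have hN0 : (0 : ℝ) ≤ N := Nat.cast_nonneg N
  -- first part
  have hA : ∀ N' : ℕ, J + N' ≤ JR →
      ‖∑ j ∈ Finset.Ico J (J + N'), e (m * b ^ j * ξ)‖ ≤ ε / 8 * N' + ε / 4 * J := by
    intro N' hN'
    have h1 := sum_e_compare b m J N' hb ξ x'
    have h2 : 2 * Real.pi * m * |ξ - x'| * (b : ℝ) ^ (J + N') ≤ 13 * (B : ℝ) ^ 2 := by
      have h3 : (b : ℝ) ^ (J + N') ≤ b * (1 / R) :=
        (pow_le_pow_right₀ hb1 hN').trans hbJR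
      calc 2 * Real.pi * m * |ξ - x'| * (b : ℝ) ^ (J + N')
          ≤ 2 * Real.pi * m * (2 * R) * (b * (1 / R)) := by gcongr
        _ = 4 * Real.pi * (m * b) := by field_simp; ring
        _ ≤ _ := hconst
    have h4 := hx' N'
    linarith
  -- second part
  have hBd : ∀ N' : ℕ, JR + N' ≤ J' →
      ‖∑ j ∈ Finset.Ico JR (JR + N'), e (m * b ^ j * ξ)‖ ≤ ε / 8 * JR + ε / 4 * JR := by
    intro N' hN'
    have h1 := sum_e_compare b m JR N' hb ξ α'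
    have h2 : 2 * Real.pi * m * |ξ - α'| * (b : ℝ) ^ (JR + N') ≤ 13 * (B : ℝ) ^ 2 := by
      have h3 : (b : ℝ) ^ (JR + N') ≤ b * (2 / r) :=
        (pow_le_pow_right₀ hb1 hN').trans hbJ'
      calc 2 * Real.pi * m * |ξ - α'| * (b : ℝ) ^ (JR + N')
          ≤ 2 * Real.pi * m * r * (b * (2 / r)) := by gcongr
        _ = 4 * Real.pi * (m * b) := by field_simp; ring
        _ ≤ _ := hconst
    have h4 := hα' N' (by omega)
    have h5 : ε / (8 * K) * L ≤ ε / 8 * JR := by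
      have h6 : (L : ℝ) ≤ K * JR := by exact_mod_cast hL
      calc ε / (8 * K) * L ≤ ε / (8 * K) * (K * JR) :=
            mul_le_mul_of_nonneg_left h6 (by positivity)
        _ = ε / 8 * JR := by field_simp
    linarith
  by_cases hcase : J + N ≤ JR
  · have h1 := hA N hcase
    have h2 : 0 ≤ ε * J := by positivity
    have h3 : 0 ≤ ε * N := by positivity
    nlinarith
  · push Not at hcase
    obtain ⟨N1, hN1⟩ : ∃ N1, JR = J + N1 := ⟨JR - J, by omega⟩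
    obtain ⟨N2, hN2⟩ : ∃ N2, J + N = JR + N2 := ⟨J + N - JR, by omega⟩
    have h1 := hA N1 (by omega)
    have h2 := hBd N2 (by omega)
    have h3 : ∑ j ∈ Finset.Ico J (J + N), e (m * b ^ j * ξ) =
        ∑ j ∈ Finset.Ico J (J + N1), e (m * b ^ j * ξ) +
        ∑ j ∈ Finset.Ico JR (JR + N2), e (m * b ^ j * ξ) := by
      rw [hN2, ← hN1, Finset.sum_Ico_consecutive _ hJJR (by omega)]
    rw [h3]
    refine (norm_add_le _ _).trans ?_
    have h4 : (JR : ℝ) ≤ J + N := by exact_mod_cast hcase.le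
    have h5 : (JR : ℝ) = J + N1 := by exact_mod_cast hN1
    have h6 : (0 : ℝ) ≤ N1 := Nat.cast_nonneg N1
    have h7 : ε * (N1 : ℝ) ≤ ε * (J + N) := by
      apply mul_le_mul_of_nonneg_left _ hε.le
      linarith
    have h8 : ε * (JR : ℝ) ≤ ε * (J + N) := mul_le_mul_of_nonneg_left h4 hε.le
    have h9 : ε * (J : ℝ) ≤ ε * (J + N) := by
      apply mul_le_mul_of_nonneg_left _ hε.le
      linarith
    have h10 : 0 ≤ ε * ((J : ℝ) + N) := by positivity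
    linarith

end Pool.Agent.Lib_helper71.Normal
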