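import Pool.Agent.Lib_helper71.Normal.StepN

/-!
The step of the construction of normal numbers: the main theorem.
-/

set_option autoImplicit false

namespace Pool.Agent.Lib_helper71.Normal

open Matrix Module Polynomial Set MeasureTheory Filter Topology

/-- Choice of the point `x` in the middle part of the interval. -/
lemma exists_x (s : St) (hs : s.a < s.b) (H H2 : Set ℝ)
    (hH : volume (Icc s.a s.b ∩ H) ≤ ENNReal.ofReal (6 / 32 * (s.b - s.a)))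
    (hH2 : volume H2 ≤ ENNReal.ofReal (6 / 28 * (s.b - s.a))) :
    ∃ x, s.a + (s.b - s.a) / 8 ≤ x ∧ x ≤ s.b - (s.b - s.a) / 4 ∧ x ∉ H ∧ x ∉ H2 := by
  by_contra hcon
  push Not at hcon
  have hsub : Icc (s.a + (s.b - s.a) / 8) (s.b - (s.b - s.a) / 4) ⊆ (Icc s.a s.b ∩ H) ∪ H2 := by
    intro x hx
    by_cases h : x ∈ H
    · left
      exact ⟨⟨by linarith [hx.1], by linarith [hx.2]⟩, h⟩
    · right
      exact hcon x hx.1 hx.2 h
  have h1 := (measure_mono (μ := volume) hsub).trans (measure_union_le _ _)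
  have h2 := h1.trans (add_le_add hH hH2)
  rw [Real.volume_Icc, ← ENNReal.ofReal_add (by linarith) (by linarith),
    ENNReal.ofReal_le_ofReal_iff (by linarith)] at h2
  linarith

/-- The time is large enough. -/
lemma exists_time_large (R0 ε' c : ℝ) (T X2 B B' X : ℕ) :
    ∃ t : ℕ, T ≤ t ∧ R0 < (2 : ℝ) ^ t ∧ ε' < (2 : ℝ) ^ t ∧ c ≤ (2 : ℝ) ^ t ∧
      (B : ℝ) ^ X2 < (2 : ℝ) ^ t ∧ (B' : ℝ) ^ X < (2 : ℝ) ^ t := by
  obtain ⟨t0, ht0⟩ := pow_unbounded_of_one_lt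
    (max (max (max R0 ε') c) (max ((B : ℝ) ^ X2) ((B' : ℝ) ^ X))) (by norm_num : (1 : ℝ) < 2)
  have hge : (2 : ℝ) ^ t0 ≤ 2 ^ (max t0 T) := pow_le_pow_right₀ (by norm_num) (le_max_left _ _)
  refine ⟨max t0 T, le_max_right _ _, ?_, ?_, ?_, ?_, ?_⟩
  · exact lt_of_le_of_lt ((le_max_left _ _).trans ((le_max_left _ _).trans (le_max_left _ _)))
      (lt_of_lt_of_le ht0 hge)
  · exact lt_of_le_of_lt ((le_max_right _ _).trans ((le_max_left _ _).trans (le_max_left _ _)))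
      (lt_of_lt_of_le ht0 hge)
  · exact ((le_max_right _ _).trans (le_max_left _ _)).trans (lt_of_lt_of_le ht0 hge).le
  · exact lt_of_le_of_lt ((le_max_left _ _).trans (le_max_right _ _)) (lt_of_lt_of_le ht0 hge)
  · exact lt_of_le_of_lt ((le_max_right _ _).trans (le_max_right _ _)) (lt_of_lt_of_le ht0 hge)

lemma le_jj_of_pow_lt (b B X : ℕ) (hb : 2 ≤ b) (hbB : b ≤ B) (y : ℝ) (h : (B : ℝ) ^ X < y) :
    X ≤ jj b y := by
  by_contra hlt
  push Not at hlt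
  have h1 : jj b y ≤ X := hlt.le
  rw [jj_le_iff b hb] at h1
  have h2 : (b : ℝ) ^ X ≤ (B : ℝ) ^ X := by
    apply pow_le_pow_left₀ (by positivity)
    exact_mod_cast hbB
  linarith

theorem step_N (n : ℕ) (hn : 1 ≤ n) (hA : ApproxProp n) (τ : ℝ) (hτ : 1 < τ) (θ θ' : ℝ)
    (hθ' : 1 - 1 / τ < θ') (B : ℕ) (ε : ℝ) (hε : 0 < ε) :
    ∃ N1 : ℕ, ∀ s : St, Inv n θ s → (∀ b, 2 ≤ b → b ≤ B → N1 ≤ Js s b) →
      ∀ ε' : ℝ, 0 < ε' → ∀ B' X : ℕ, ∃ s' : St, Inv n θ' s' ∧ Nest n θ s s' ∧ EvA n τ ε' s' ∧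
        (∀ b, 2 ≤ b → b ≤ B' → X ≤ Js s' b) ∧ WeylOK B ε s s' := by
  classical
  obtain ⟨N0, hW2⟩ := weyl_interval B (ε / 8) (1 / 32) (by positivity) (by norm_num)
  refine ⟨⌈((N0 : ℝ) + 13 * (B : ℝ) ^ 2) * (4 / ε)⌉₊, ?_⟩
  intro s hs hJ1 ε' hε' B' X
  set ℓ := s.b - s.a with hℓ
  have hℓ0 : 0 < ℓ := by linarith [hs.1]
  have hℓ1 : ℓ ≤ 1 := by linarith [hs.2.1, hs.2.2.1]
  have hJ : ∀ b, 2 ≤ b → b ≤ B → (N0 : ℝ) + 13 * (B : ℝ) ^ 2 ≤ ε / 4 * Js s b := by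
    intro b hb hbB
    have h1 := Nat.le_ceil (((N0 : ℝ) + 13 * (B : ℝ) ^ 2) * (4 / ε))
    have h2 : (⌈((N0 : ℝ) + 13 * (B : ℝ) ^ 2) * (4 / ε)⌉₊ : ℝ) ≤ Js s b := by
      exact_mod_cast hJ1 b hb hbB
    have h3 := h1.trans h2
    calc (N0 : ℝ) + 13 * (B : ℝ) ^ 2 = ε / 4 * (((N0 : ℝ) + 13 * (B : ℝ) ^ 2) * (4 / ε)) := by
          field_simp
      _ ≤ ε / 4 * Js s b := mul_le_mul_of_nonneg_left h3 (by positivity)
  obtain ⟨η, hη0, hη1, hη⟩ := exists_eta n τ θ' hτ hθ'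
  set τ' := tauE n τ η with hτ'
  have hττ' : τ < τ' := tauE_gt n τ η hτ hη0
  obtain ⟨T, hT⟩ := bad_small' n hn θ η hη0 s hs
  have hT2 := badW_small B (ε / 8) N0 hW2 s hs.1
  set H := Icc s.a s.b \ (Good n θ η T s ∩ GoodW B (ε / 8) N0 s) with hH
  have hHv : volume H ≤ ENNReal.ofReal (6 / 32 * ℓ) := by
    have hsub : H ⊆ (Icc s.a s.b \ Good n θ η T s) ∪ (Icc s.a s.b \ GoodW B (ε / 8) N0 s) := by
      rintro y ⟨hy, hy1⟩
      by_cases h : y ∈ Good n θ η T s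
      · right
        exact ⟨hy, fun h' => hy1 ⟨h, h'⟩⟩
      · left
        exact ⟨hy, h⟩
    calc volume H ≤ _ := measure_mono hsub
      _ ≤ _ := measure_union_le _ _
      _ ≤ ENNReal.ofReal (5 / 32 * ℓ) + ENNReal.ofReal (1 / 32 * ℓ) := add_le_add hT hT2
      _ = ENNReal.ofReal (6 / 32 * ℓ) := by
          rw [← ENNReal.ofReal_add (by positivity) (by positivity)]
          congr 1
          ring
  -- the shifts
  set E : ℕ := ⌈16 / ℓ⌉₊ with hE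
  have hE16 : 16 / ℓ ≤ E := Nat.le_ceil _
  have hE1 : 1 ≤ E := by
    have h1 : (0 : ℝ) < E := lt_of_lt_of_le (by positivity) hE16
    exact_mod_cast h1
  set Tc : ℕ := ⌈τ'⌉₊ with hTc
  have hTc' : τ' ≤ Tc := Nat.le_ceil _
  set K : ℕ := Tc * B + 1 with hK
  have hK1 : 1 ≤ K := by omega
  have hKR : (0 : ℝ) < K := by exact_mod_cast (by omega : 0 < K)
  obtain ⟨D, N0', hED, hW3⟩ := weyl_shift B E hE1 (ε / (8 * K)) (1 / 16) (by positivity)
    (by norm_num)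
  set S := D / E with hS
  have hS1 : 1 ≤ S := Nat.div_pos hED (by omega)
  have hD1 : 1 ≤ D := hE1.trans hED
  have hDR : (0 : ℝ) < D := by exact_mod_cast (by omega : 0 < D)
  have hshift : ∀ σ : ℕ, σ < S → (σ : ℝ) / D ≤ ℓ / 16 := by
    intro σ hσ
    have h1 : σ * E ≤ D := by
      calc σ * E ≤ S * E := Nat.mul_le_mul_right _ hσ.le
        _ ≤ D := Nat.div_mul_le_self D E
    have h2 : (σ : ℝ) * E ≤ D := by exact_mod_cast h1
    have hER : (0 : ℝ) < E := by exact_mod_cast (by omega : 0 < E)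
    have h3 : (σ : ℝ) / D ≤ 1 / E := by
      rw [div_le_div_iff₀ hDR hER]
      linarith
    refine h3.trans ?_
    rw [div_le_iff₀ hER]
    have h4 : ℓ / 16 * (16 / ℓ) = 1 := by field_simp
    calc (1 : ℝ) = ℓ / 16 * (16 / ℓ) := h4.symm
      _ ≤ ℓ / 16 * E := mul_le_mul_of_nonneg_left hE16 (by positivity)
  have hav := averaging H D S hS1 (6 / 32 * ℓ) (7 / 8) (by positivity) (by norm_num) hHv
  obtain ⟨x, hxa, hxb, hxH, hxH2⟩ := exists_x s hs.1 H _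
    ((measure_mono inter_subset_right).trans hHv) (hav.trans (le_of_eq (by
      congr 1
      ring)))
  have hxI : x ∈ Icc s.a s.b := ⟨by linarith, by linarith⟩
  have hxG : x ∈ Good n θ η T s := by
    by_contra h
    exact hxH ⟨hxI, fun h' => h h'.1⟩
  obtain ⟨t1, ht1, hnext⟩ := next_state n hn θ τ' η θ' (by linarith) hη0.le hη1.le hη s hs T
  obtain ⟨R0, hR0, hnext⟩ := hnext (ℓ / 8) (by positivity)
  obtain ⟨C, hC, happ⟩ := hA
  obtain ⟨C2, hC2, hmin⟩ := minpoly_height n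
  obtain ⟨C3, hC3, hshp⟩ := shift_poly n D hD1
  have hx1 : |x| ≤ 1 := by
    have h1 := hs.2.1
    have h2 := hs.2.2.1
    rw [abs_le]
    constructor <;> linarith [hxI.1, hxI.2]
  -- choice of the time
  set X2 : ℕ := max (Js s 2) ⌈((N0' : ℝ) + 13 * (B : ℝ) ^ 2) * (4 / ε)⌉₊ + 1 with hX2
  obtain ⟨t, htT, hQR, hQε, hQc, hQX2, hQX⟩ := exists_time_large (1 / R0) (1 / ε')
    (((C2 * (C3 * C)) ^ τ) ^ (1 / η)) T X2 B B' X
  set Q : ℝ := 2 ^ t with hQ'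
  have hQ1 : 1 ≤ Q := one_le_pow₀ (by norm_num)
  have hQ0 : 0 < Q := by linarith
  have hQC : (C2 * (C3 * C)) ^ τ ≤ Q ^ η := by
    have h2 := Real.rpow_le_rpow (by positivity) hQc hη0.le
    rwa [← Real.rpow_mul (by positivity), one_div_mul_cancel hη0.ne', Real.rpow_one] at h2
  set R : ℝ := (Q ^ (n + 1))⁻¹ with hR
  have hRpos : 0 < R := by positivity
  have hQR' : Q ≤ 1 / R := by
    rw [hR, one_div, inv_inv]
    calc Q = Q ^ 1 := (pow_one Q).symm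
      _ ≤ Q ^ (n + 1) := pow_le_pow_right₀ hQ1 (by omega)
  have hRQ : R ≤ 1 / Q := by
    rw [le_div_iff₀ hQ0]
    rw [le_div_iff₀ hRpos] at hQR'
    linarith
  have hRR0 : R ≤ R0 := by
    refine hRQ.trans ?_
    rw [div_le_iff₀ hQ0]
    rw [div_lt_iff₀ hR0] at hQR
    linarith
  have hRε : R < ε' := by
    refine lt_of_le_of_lt hRQ ?_
    rw [div_lt_iff₀ hQ0]
    rw [div_lt_iff₀ hε'] at hQε
    linarith
  have hR1 : R ≤ 1 := by
    refine hRQ.trans ?_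
    rw [div_le_one hQ0]
    exact hQ1
  have h1R : 1 ≤ 1 / R := by rw [le_div_iff₀ hRpos]; linarith
  obtain ⟨α, P, hP0, hPn, hPα, hxα, hPH⟩ := happ η hη0.le t x hx1 (hxG.2.2 t htT)
  -- choice of the shift
  set L : ℕ := Tc * jj 2 (1 / R) + 1 with hL
  have hW3' := hW3 α L (fun b => jj b (1 / R))
  obtain ⟨σ, hσS, hσH, hσW⟩ := exists_shift H x D S
    (fun σ : ℕ => ∃ b m N : ℕ, 2 ≤ b ∧ b ≤ B ∧ 1 ≤ m ∧ m ≤ B ∧ N ≤ L ∧
      ε / (8 * K) * L + N0' < ‖∑ j ∈ Finset.Ico (jj b (1 / R)) (jj b (1 / R) + N),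
        e (m * b ^ j * (α + (σ : ℝ) / D))‖) hS1 (by
      intro hcon
      apply hxH2
      rw [mem_ofPred_eq]
      convert hcon) (by
      convert hW3')
  have hσℓ := hshift σ hσS
  have hσ0 : 0 ≤ (σ : ℝ) / D := by positivity
  set x' := x + (σ : ℝ) / D with hx'
  set α' := α + (σ : ℝ) / D with hα'
  have hx'a : s.a + ℓ / 8 ≤ x' := by linarith
  have hx'b : x' ≤ s.b - ℓ / 8 := by linarith
  have hx'I : x' ∈ Icc s.a s.b := ⟨by linarith, by linarith⟩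
  have hx'G : x' ∈ Good n θ η T s := by
    by_contra h
    exact hσH ⟨hx'I, fun h' => h h'.1⟩
  have hx'W : x' ∈ GoodW B (ε / 8) N0 s := by
    by_contra h
    exact hσH ⟨hx'I, fun h' => h h'.2⟩
  have hx'α' : |x' - α'| ≤ R := by
    have : x' - α' = x - α := by rw [hx', hα']; ring
    rw [this]
    exact hxα
  have hσD : σ ≤ D := hσS.le.trans (Nat.div_le_self D E)
  obtain ⟨P', hP'0, hP'n, hP'α, hP'H⟩ := hshp α P hP0 hPn hPα σ hσD
  obtain ⟨M, hM, hMn, hMH⟩ := hmin α' P' hP'0 hP'n hP'α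
  obtain ⟨hInv, hlo, hhi, htr⟩ := hnext x' hx'G hx'a hx'b R hRpos hRR0 α' hx'α'
  have hr0 : 0 < R ^ τ' := Real.rpow_pos_of_pos hRpos τ'
  have hrR : R ^ τ' ≤ R := by
    calc R ^ τ' ≤ R ^ (1 : ℝ) := Real.rpow_le_rpow_of_exponent_ge hRpos hR1 (by linarith)
      _ = R := Real.rpow_one R
  set s' : St := ⟨α' + R ^ τ' / 2, α' + R ^ τ', t1⟩ with hs'
  have hlen : s'.b - s'.a = R ^ τ' / 2 := by
    show (α' + R ^ τ') - (α' + R ^ τ' / 2) = R ^ τ' / 2
    ring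
  have hJs' : ∀ b, Js s' b = jj b (2 / R ^ τ') := by
    intro b
    unfold Js
    rw [hlen]
    congr 1
    field_simp
  have hlen2 : 1 / R ≤ 2 / R ^ τ' := by
    rw [div_le_div_iff₀ hRpos hr0]
    linarith
  refine ⟨s', hInv, ⟨hlo, hhi, ht1, htr⟩, ?_, ?_, ?_⟩
  · -- the algebraic number
    refine ⟨α', M, hM, hMn, ?_⟩
    have hH1 : (1 : ℝ) ≤ height M := by exact_mod_cast one_le_height hM.ne_zero
    have hest := event_estimate n τ η (C2 * (C3 * C)) Q (height M) hτ hη0 (by positivity) hQ1 hQC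
      hH1 (by
        calc (height M : ℝ) ≤ C2 * height P' := hMH
          _ ≤ C2 * (C3 * height P) := mul_le_mul_of_nonneg_left hP'H hC2.le
          _ ≤ C2 * (C3 * (C * Q ^ (1 + n * η))) := by gcongr
          _ = C2 * (C3 * C) * Q ^ (1 + n * η) := by ring)
    intro ξ hξ
    have hξ1 : α' + R ^ τ' / 2 ≤ ξ := hξ.1
    have hξ2 : ξ ≤ α' + R ^ τ' := hξ.2
    have habs : |ξ - α'| = ξ - α' := abs_of_pos (by linarith)
    rw [habs]
    refine ⟨by linarith, by linarith, ?_⟩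
    calc ξ - α' ≤ R ^ τ' := by linarith
      _ ≤ _ := hest
  · -- the length is small
    intro b hb hbB'
    rw [hJs']
    apply le_jj_of_pow_lt b B' X hb hbB'
    exact lt_of_lt_of_le hQX (hQR'.trans hlen2)
  · -- exponential sums
    intro b m N hb hbB hm hmB hN ξ hξ
    have hξ1 : α' + R ^ τ' / 2 ≤ ξ := hξ.1
    have hξ2 : ξ ≤ α' + R ^ τ' := hξ.2
    set JR := jj b (1 / R) with hJR
    have hbR1 : (1 : ℝ) ≤ b := by exact_mod_cast (by omega : 1 ≤ b)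
    have hJRX2 : X2 ≤ JR := le_jj_of_pow_lt b B X2 hb hbB _ (lt_of_lt_of_le hQX2 hQR')
    have hJR1 : 1 ≤ JR := by omega
    have hJJR : Js s b ≤ JR := by
      have h1 : Js s b ≤ Js s 2 := jj_anti b 2 le_rfl hb _
      have h2 : Js s 2 ≤ X2 := (le_max_left _ _).trans (Nat.le_succ _)
      omega
    have hJR4 : (N0' : ℝ) + 13 * (B : ℝ) ^ 2 ≤ ε / 4 * JR := by
      have h1 := Nat.le_ceil (((N0' : ℝ) + 13 * (B : ℝ) ^ 2) * (4 / ε))
      have h2 : ⌈((N0' : ℝ) + 13 * (B : ℝ) ^ 2) * (4 / ε)⌉₊ ≤ JR :=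
        ((le_max_right _ _).trans (Nat.le_succ _)).trans hJRX2
      have h3 : (⌈((N0' : ℝ) + 13 * (B : ℝ) ^ 2) * (4 / ε)⌉₊ : ℝ) ≤ JR := by exact_mod_cast h2
      have h4 := h1.trans h3
      calc (N0' : ℝ) + 13 * (B : ℝ) ^ 2 = ε / 4 * (((N0' : ℝ) + 13 * (B : ℝ) ^ 2) * (4 / ε)) := by
            field_simp
        _ ≤ ε / 4 * JR := mul_le_mul_of_nonneg_left h4 (by positivity)
    have hJ'le : Js s' b ≤ Tc * JR + 1 := by
      rw [hJs', jj_le_iff b hb]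
      have h1 : 1 / R ≤ (b : ℝ) ^ JR := le_pow_jj b hb _
      calc 2 / R ^ τ' = 2 * (1 / R) ^ τ' := by
            rw [one_div, Real.inv_rpow hRpos.le]; ring
        _ ≤ 2 * (1 / R) ^ (Tc : ℝ) := by
            apply mul_le_mul_of_nonneg_left _ (by norm_num)
            exact Real.rpow_le_rpow_of_exponent_le h1R hTc'
        _ = 2 * (1 / R) ^ Tc := by rw [Real.rpow_natCast]
        _ ≤ b * ((b : ℝ) ^ JR) ^ Tc := by
            apply mul_le_mul (by exact_mod_cast hb) _ (by positivity) (by positivity)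
            exact pow_le_pow_left₀ (by positivity) h1 _
        _ = (b : ℝ) ^ (Tc * JR + 1) := by
            rw [← pow_mul, mul_comm JR Tc, pow_succ]; ring
    have hJR2 : JR ≤ jj 2 (1 / R) := jj_anti b 2 le_rfl hb _
    have hJ'L : Js s' b ≤ L := by
      calc Js s' b ≤ Tc * JR + 1 := hJ'le
        _ ≤ Tc * jj 2 (1 / R) + 1 := by gcongr
    have hLK : L ≤ K * JR := by
      have h1 : jj 2 (1 / R) ≤ B * JR := jj_two_le b B hb hbB _
      calc L ≤ Tc * (B * JR) + 1 := by rw [hL]; gcongr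
        _ ≤ Tc * (B * JR) + JR := by omega
        _ = K * JR := by rw [hK]; ring
    apply weyl_check B b m hb hbB hmB ε R (R ^ τ') hε hRpos hr0 (Js s b) JR (Js s' b) N0 N0' L K
      hJJR (pow_jj_le b hb _ h1R) (by
        rw [hJs']
        exact pow_jj_le b hb _ (h1R.trans hlen2)) ξ x' α' _ _ _ _ (hJ b hb hbB) hJR4 hLK hJ'L hK1 N
      hN
    · have h1 := abs_le.mp hx'α'
      rw [abs_le]
      constructor <;> linarith [h1.1, h1.2]
    · rw [abs_le]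
      constructor <;> linarith
    · intro N'
      exact hx'W.2 b m N' hb hbB hm hmB
    · intro N' hN'
      by_contra hcon
      push Not at hcon
      exact hσW ⟨b, m, N', hb, hbB, hm, hmB, hN', hcon⟩

end Pool.Agent.Lib_helper71.Normal
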