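import Pool.Agent.Lib_helper71.Normal.Nu
import Pool.Agent.Lib_helper71.Normal.KM
import Pool.Agent.Lib_helper71.Normal.Good

/-!
Minimal integer tuples of rational subspaces and the quantitative nondivergence theorem.
-/

set_option autoImplicit false

namespace Pool.Agent.Lib_helper71.Normal

open Matrix Module Polynomial MeasureTheory Set

/-- An integer vector as a rational vector. -/
def cQ {m : ℕ} (v : Fin m → ℤ) : Fin m → ℚ := fun j => (v j : ℚ)

/-- An integer vector as a real vector. -/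
def cR {m : ℕ} (v : Fin m → ℤ) : Fin m → ℝ := fun j => (v j : ℝ)

lemma cQ_ne_zero {m : ℕ} {v : Fin m → ℤ} (hv : v ≠ 0) : cQ v ≠ 0 := by
  intro h
  apply hv
  funext j
  have := congrFun h j
  simpa [cQ] using this

/-- A tuple of linearly independent integer vectors in the subspace `V`. -/
def IsTuple {m : ℕ} (V : Submodule ℚ (Fin m → ℚ)) {k : ℕ} (b : Fin k → Fin m → ℤ) : Prop :=
  LinearIndependent ℚ (fun i => cQ (b i)) ∧ ∀ i, cQ (b i) ∈ V

lemma exists_int_multiple {m : ℕ} (v : Fin m → ℚ) :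
    ∃ (d : ℕ) (w : Fin m → ℤ), d ≠ 0 ∧ cQ w = (d : ℚ) • v := by
  classical
  refine ⟨∏ j, (v j).den, fun j => (v j).num * ∏ l ∈ Finset.univ.erase j, ((v l).den : ℤ), ?_, ?_⟩
  · rw [Finset.prod_ne_zero_iff]
    intro j _
    exact (v j).den_nz
  · funext j
    simp only [cQ, Pi.smul_apply, smul_eq_mul]
    rw [← Finset.mul_prod_erase Finset.univ _ (Finset.mem_univ j)]
    push_cast
    have h1 : ((v j).den : ℚ) * v j = (v j).num := by
      rw [mul_comm]; exact Rat.mul_den_eq_num (v j)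
    calc ((v j).num : ℚ) * ∏ l ∈ Finset.univ.erase j, ((v l).den : ℚ)
        = (((v j).den : ℚ) * v j) * ∏ l ∈ Finset.univ.erase j, ((v l).den : ℚ) := by rw [h1]
      _ = _ := by ring

lemma exists_tuple {m : ℕ} (V : Submodule ℚ (Fin m → ℚ)) :
    ∃ b : Fin (finrank ℚ V) → Fin m → ℤ, IsTuple V b := by
  let B := Module.finBasis ℚ V
  choose d w hd hw using fun i => exists_int_multiple ((B i : V) : Fin m → ℚ)
  refine ⟨w, ?_, ?_⟩
  · have h1 : LinearIndependent ℚ (fun i => ((B i : V) : Fin m → ℚ)) := by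
      have := B.linearIndependent.map' V.subtype (Submodule.ker_subtype V)
      exact this
    have h2 := h1.units_smul (fun i => Units.mk0 (d i : ℚ) (by exact_mod_cast hd i))
    have h3 : (fun i => cQ (w i)) = (fun i => Units.mk0 (d i : ℚ) (by exact_mod_cast hd i)) •
        (fun i => ((B i : V) : Fin m → ℚ)) := by
      funext i
      rw [hw i]
      rfl
    rw [h3]
    exact h2
  · intro i
    rw [hw i]
    exact V.smul_mem _ (B i).2

/-- The largest absolute value of an integer minor. -/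
def intNu {k m : ℕ} (b : Fin k → Fin m → ℤ) : ℕ :=
  Finset.univ.sup (fun S : Fin k → Fin m => (minor b S).natAbs)

lemma le_intNu {k m : ℕ} (b : Fin k → Fin m → ℤ) (S : Fin k → Fin m) :
    (minor b S).natAbs ≤ intNu b :=
  Finset.le_sup (f := fun S : Fin k → Fin m => (minor b S).natAbs) (Finset.mem_univ S)

lemma exists_tuple_min {m : ℕ} (V : Submodule ℚ (Fin m → ℚ)) :
    ∃ b : Fin (finrank ℚ V) → Fin m → ℤ, IsTuple V b ∧
      ∀ b' : Fin (finrank ℚ V) → Fin m → ℤ, IsTuple V b' → intNu b ≤ intNu b' := by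
  classical
  have hex : ∃ N, ∃ b : Fin (finrank ℚ V) → Fin m → ℤ, IsTuple V b ∧ intNu b = N := by
    obtain ⟨b, hb⟩ := exists_tuple V
    exact ⟨_, b, hb, rfl⟩
  obtain ⟨b, hb, hN⟩ := Nat.find_spec hex
  refine ⟨b, hb, ?_⟩
  intro b' hb'
  rw [hN]
  exact Nat.find_min' hex ⟨b', hb', rfl⟩

/-- The chosen minimal integer tuple of `V`. -/
noncomputable def bV {m : ℕ} (V : Submodule ℚ (Fin m → ℚ)) : Fin (finrank ℚ V) → Fin m → ℤ :=
  (exists_tuple_min V).choose

lemma bV_tuple {m : ℕ} (V : Submodule ℚ (Fin m → ℚ)) : IsTuple V (bV V) :=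
  (exists_tuple_min V).choose_spec.1

lemma bV_min {m : ℕ} (V : Submodule ℚ (Fin m → ℚ)) (b' : Fin (finrank ℚ V) → Fin m → ℤ)
    (hb' : IsTuple V b') : intNu (bV V) ≤ intNu b' :=
  (exists_tuple_min V).choose_spec.2 b' hb'

lemma minor_cast {k m : ℕ} (b : Fin k → Fin m → ℤ) (S : Fin k → Fin m) :
    ((minor b S : ℤ) : ℚ) = minor (fun i => cQ (b i)) S := by
  unfold minor
  rw [Int.cast_det]
  congr 1

lemma minor_castR {k m : ℕ} (b : Fin k → Fin m → ℤ) (S : Fin k → Fin m) :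
    ((minor b S : ℤ) : ℝ) = minor (fun i => cR (b i)) S := by
  unfold minor
  rw [Int.cast_det]
  congr 1

lemma exists_coeff {m : ℕ} (V : Submodule ℚ (Fin m → ℚ)) (b b' : Fin (finrank ℚ V) → Fin m → ℤ)
    (hb : IsTuple V b) (hb' : IsTuple V b') :
    ∃ A : Matrix (Fin (finrank ℚ V)) (Fin (finrank ℚ V)) ℚ,
      ∀ i s, cQ (b' i) s = ∑ l, A i l * cQ (b l) s := by
  have hspan : Submodule.span ℚ (Set.range (fun i => cQ (b i))) = V := by
    apply Submodule.eq_of_le_of_finrank_eq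
    · rw [Submodule.span_le]
      rintro _ ⟨i, rfl⟩
      exact hb.2 i
    · rw [finrank_span_eq_card hb.1, Fintype.card_fin]
  have h : ∀ i, ∃ c : Fin (finrank ℚ V) → ℚ, ∑ l, c l • cQ (b l) = cQ (b' i) := by
    intro i
    have h1 := hb'.2 i
    rw [← hspan] at h1
    exact (Submodule.mem_span_range_iff_exists_fun ℚ).mp h1
  choose c hc using h
  refine ⟨Matrix.of c, ?_⟩
  intro i s
  rw [← hc i]
  simp [Finset.sum_apply]

lemma nu_tuple_le {m M : ℕ} (V : Submodule ℚ (Fin m → ℚ))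
    (h : (Fin m → ℝ) →ₗ[ℝ] (Fin M → ℝ)) (b' : Fin (finrank ℚ V) → Fin m → ℤ)
    (hb' : IsTuple V b') :
    nu (fun i => h (cR (bV V i))) ≤ nu (fun i => h (cR (b' i))) := by
  obtain ⟨A, hA⟩ := exists_coeff V (bV V) b' (bV_tuple V) hb'
  -- the determinant has absolute value at least one
  have hminor : ∀ S, ((minor b' S : ℤ) : ℚ) = A.det * ((minor (bV V) S : ℤ) : ℚ) := by
    intro S
    rw [minor_cast, minor_cast, ← minor_mul]
    congr 1
    funext i s
    exact hA i s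
  obtain ⟨S0, hS0⟩ := exists_minor_ne_zero _ (bV_tuple V).1
  have hpos : 0 < intNu (bV V) := by
    refine lt_of_lt_of_le ?_ (le_intNu (bV V) S0)
    rw [Int.natAbs_pos]
    intro h0
    apply hS0
    rw [← minor_cast, h0, Int.cast_zero]
  have hdet : 1 ≤ |A.det| := by
    by_contra hlt
    push Not at hlt
    have h1 : intNu b' < intNu (bV V) := by
      show (Finset.univ.sup fun S => (minor b' S).natAbs) < intNu (bV V)
      rw [Finset.sup_lt_iff (show ⊥ < intNu (bV V) from hpos)]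
      intro S _
      by_cases h0 : minor (bV V) S = 0
      · have h2 := hminor S
        rw [h0, Int.cast_zero, mul_zero] at h2
        have h3 : minor b' S = 0 := by exact_mod_cast h2
        rw [h3, Int.natAbs_zero]
        exact hpos
      · have h2 : ((minor b' S).natAbs : ℚ) < ((minor (bV V) S).natAbs : ℚ) := by
          rw [Nat.cast_natAbs, Nat.cast_natAbs, Int.cast_abs, Int.cast_abs, hminor S, abs_mul]
          have h3 : 0 < |((minor (bV V) S : ℤ) : ℚ)| := by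
            rw [abs_pos]; exact_mod_cast h0
          nlinarith
        have h3 : (minor b' S).natAbs < (minor (bV V) S).natAbs := by exact_mod_cast h2
        exact lt_of_lt_of_le h3 (le_intNu (bV V) S)
    exact absurd h1 (not_lt.mpr (bV_min V b' hb'))
  have hR : ∀ i, h (cR (b' i)) = fun s => ∑ l, (A i l : ℝ) * h (cR (bV V l)) s := by
    intro i
    have h1 : cR (b' i) = ∑ l, (A i l : ℝ) • cR (bV V l) := by
      funext s
      have h2 := hA i s
      have h3 : ((cQ (b' i) s : ℚ) : ℝ) = ((∑ l, A i l * cQ (bV V l) s : ℚ) : ℝ) := by rw [h2]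
      simp only [cQ, cR, Rat.cast_intCast, Rat.cast_sum, Rat.cast_mul] at h3 ⊢
      rw [h3]
      simp [Finset.sum_apply, cR]
    rw [h1, map_sum]
    funext s
    rw [Finset.sum_apply]
    apply Finset.sum_congr rfl
    intro l _
    rw [map_smul]
    rfl
  have hfin : nu (fun i => h (cR (b' i))) =
      |(A.map (fun q : ℚ => (q : ℝ))).det| * nu (fun i => h (cR (bV V i))) := by
    rw [← nu_mul]
    congr 1
    funext i
    rw [hR i]
    rfl
  rw [hfin]
  have hd : (A.map (fun q : ℚ => (q : ℝ))).det = ((A.det : ℚ) : ℝ) := by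
    have := RingHom.map_det (Rat.castHom ℝ) A
    rw [Rat.coe_castHom] at this
    rw [this]
    rfl
  rw [hd]
  have h1 : (1 : ℝ) ≤ |((A.det : ℚ) : ℝ)| := by
    rw [← Rat.cast_abs]
    exact_mod_cast hdet
  have := nu_nonneg (fun i => h (cR (bV V i)))
  nlinarith

/-- The size of the subspace `V` in the lattice `h x (ℤ^m)`. -/
noncomputable def psi {m M : ℕ} (h : ℝ → (Fin m → ℝ) →ₗ[ℝ] (Fin M → ℝ))
    (V : Submodule ℚ (Fin m → ℚ)) (x : ℝ) : ℝ := nu (fun i => h x (cR (bV V i)))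

/-- The minors of `h x` along integer tuples are polynomials of degree at most `D` in `x`. -/
def PolyMinors {m M : ℕ} (D : ℕ) (h : ℝ → (Fin m → ℝ) →ₗ[ℝ] (Fin M → ℝ)) : Prop :=
  ∀ (k : ℕ) (b : Fin k → Fin m → ℤ) (S : Fin k → Fin M),
    ∃ p : ℝ[X], p.natDegree ≤ D ∧ ∀ x, minor (fun i => h x (cR (b i))) S = p.eval x

lemma psi_nonneg {m M : ℕ} (h : ℝ → (Fin m → ℝ) →ₗ[ℝ] (Fin M → ℝ))
    (V : Submodule ℚ (Fin m → ℚ)) (x : ℝ) : 0 ≤ psi h V x := nu_nonneg _

lemma psi_bot {m M : ℕ} (h : ℝ → (Fin m → ℝ) →ₗ[ℝ] (Fin M → ℝ)) (x : ℝ) :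
    psi h (⊥ : Submodule ℚ (Fin m → ℚ)) x = 1 := by
  unfold psi
  have hk : finrank ℚ (⊥ : Submodule ℚ (Fin m → ℚ)) = 0 := finrank_bot ℚ _
  generalize bV (⊥ : Submodule ℚ (Fin m → ℚ)) = b
  revert b
  rw [hk]
  intro b
  exact nu_zero _

lemma continuous_psi {m M D : ℕ} (h : ℝ → (Fin m → ℝ) →ₗ[ℝ] (Fin M → ℝ)) (hp : PolyMinors D h)
    (V : Submodule ℚ (Fin m → ℚ)) : Continuous (psi h V) := by
  unfold psi nu
  apply Continuous.norm
  apply continuous_pi
  intro S
  obtain ⟨p, _, hp2⟩ := hp _ (bV V) S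
  have : (fun x => minor (fun i => h x (cR (bV V i))) S) = fun x => p.eval x := by
    funext x
    exact hp2 x
  rw [this]
  exact p.continuous

lemma isTuple_cons {m : ℕ} (V : Submodule ℚ (Fin m → ℚ)) (v : Fin m → ℤ) (hv : cQ v ∉ V)
    {k : ℕ} (b : Fin k → Fin m → ℤ) (hb : IsTuple V b) :
    IsTuple (V ⊔ Submodule.span ℚ {cQ v}) (Fin.cons v b : Fin (k + 1) → Fin m → ℤ) := by
  have h1 : (fun i => cQ ((Fin.cons v b : Fin (k + 1) → Fin m → ℤ) i)) =
      (Fin.cons (cQ v) (fun i => cQ (b i)) : Fin (k + 1) → Fin m → ℚ) := by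
    funext i
    refine Fin.cases ?_ (fun j => ?_) i
    · rfl
    · rfl
  refine ⟨?_, ?_⟩
  · rw [h1]
    rw [linearIndependent_finCons]
    refine ⟨hb.1, ?_⟩
    intro h2
    apply hv
    have : Submodule.span ℚ (Set.range (fun i => cQ (b i))) ≤ V := by
      rw [Submodule.span_le]
      rintro _ ⟨i, rfl⟩
      exact hb.2 i
    exact this h2
  · intro i
    refine Fin.cases ?_ (fun j => ?_) i
    · exact Submodule.mem_sup_right (Submodule.mem_span_singleton_self _)
    · exact Submodule.mem_sup_left (hb.2 j)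

lemma finrank_sup_span {m : ℕ} (V : Submodule ℚ (Fin m → ℚ)) (v : Fin m → ℤ) (hv : cQ v ∉ V) :
    finrank ℚ (V ⊔ Submodule.span ℚ {cQ v} : Submodule ℚ (Fin m → ℚ)) = finrank ℚ V + 1 := by
  apply le_antisymm
  · refine (Submodule.finrank_add_le_finrank_add_finrank _ _).trans ?_
    have := finrank_span_singleton (K := ℚ) (v := cQ v) (by
      intro h0
      apply hv
      rw [h0]
      exact V.zero_mem)
    omega
  · have h1 := isTuple_cons V v hv (bV V) (bV_tuple V)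
    have h2 : Submodule.span ℚ (Set.range
        (fun i => cQ ((Fin.cons v (bV V) : Fin (finrank ℚ V + 1) → Fin m → ℤ) i))) ≤
        V ⊔ Submodule.span ℚ {cQ v} := by
      rw [Submodule.span_le]
      rintro _ ⟨i, rfl⟩
      exact h1.2 i
    have h3 := Submodule.finrank_mono h2
    rw [finrank_span_eq_card h1.1, Fintype.card_fin] at h3
    exact h3

lemma psi_sup_le {m M : ℕ} (h : ℝ → (Fin m → ℝ) →ₗ[ℝ] (Fin M → ℝ))
    (V : Submodule ℚ (Fin m → ℚ)) (v : Fin m → ℤ) (hv : cQ v ∉ V) (x : ℝ) :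
    psi h (V ⊔ Submodule.span ℚ {cQ v}) x ≤ m * ‖h x (cR v)‖ * psi h V x := by
  have hk := finrank_sup_span V v hv
  have h1 := isTuple_cons V v hv (bV V) (bV_tuple V)
  have hle : finrank ℚ V + 1 ≤ m := by
    rw [← hk]
    have := Submodule.finrank_le (V ⊔ Submodule.span ℚ {cQ v})
    rwa [finrank_fin_fun] at this
  have key : ∀ (k : ℕ) (hk : k = finrank ℚ V + 1) (W : Submodule ℚ (Fin m → ℚ))
      (hW : finrank ℚ W = k) (b : Fin k → Fin m → ℤ) (hb : IsTuple W b),
      psi h W x ≤ nu (fun i => h x (cR (b i))) := by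
    intro k _ W hW b hb
    subst hW
    exact nu_tuple_le W (h x) b hb
  have h2 := key (finrank ℚ V + 1) rfl _ hk _ h1
  refine h2.trans ?_
  have h3 : (fun i => h x (cR ((Fin.cons v (bV V) : Fin (finrank ℚ V + 1) → Fin m → ℤ) i))) =
      (Fin.cons (h x (cR v)) (fun i => h x (cR (bV V i))) :
        Fin (finrank ℚ V + 1) → Fin M → ℝ) := by
    funext i
    refine Fin.cases ?_ (fun j => ?_) i
    · rfl
    · rfl
  rw [h3]
  refine (nu_cons_le _ _).trans ?_
  have h4 : ((finrank ℚ V : ℕ) : ℝ) + 1 ≤ m := by exact_mod_cast hle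
  have h5 := nu_nonneg (fun i => h x (cR (bV V i)))
  unfold psi
  gcongr

/-- The partially ordered set of nonzero rational subspaces. -/
abbrev NZ (m : ℕ) := {V : Submodule ℚ (Fin m → ℚ) // V ≠ ⊥}

lemma chain_card {m : ℕ} (F : Finset (NZ m)) (hF : IsChain (· ≤ ·) (F : Set (NZ m))) :
    F.card ≤ m := by
  have h1 : Set.InjOn (fun V : NZ m => finrank ℚ V.1) (F : Set (NZ m)) := by
    intro U hU V hV hUV
    by_contra hne
    rcases hF hU hV hne with h | h
    · exact hne (Subtype.ext (Submodule.eq_of_le_of_finrank_eq h hUV))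
    · exact hne (Subtype.ext (Submodule.eq_of_le_of_finrank_eq h hUV.symm).symm)
  have h2 : (F.image (fun V : NZ m => finrank ℚ V.1)) ⊆ Finset.Icc 1 m := by
    intro k hk
    rw [Finset.mem_image] at hk
    obtain ⟨V, _, rfl⟩ := hk
    rw [Finset.mem_Icc]
    constructor
    · have h3 : finrank ℚ V.1 ≠ 0 := fun h => V.2 (Submodule.finrank_eq_zero.mp h)
      omega
    · have := Submodule.finrank_le V.1
      rwa [finrank_fin_fun] at this
  have h3 := Finset.card_le_card h2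
  rw [Finset.card_image_of_injOn h1] at h3
  simpa using h3

lemma norm_ge_of_marked {m M : ℕ} (h : ℝ → (Fin m → ℝ) →ₗ[ℝ] (Fin M → ℝ)) (ε : ℝ)
    (hε1 : ε ≤ 1) (x : ℝ)
    (hx : Marked (fun V : NZ m => psi h V.1) ε ∅ x) (v : Fin m → ℤ) (hv : v ≠ 0) :
    ε ≤ m * ‖h x (cR v)‖ := by
  classical
  obtain ⟨F, _, hF, hF1, hF2⟩ := hx
  -- the largest element of the chain that does not contain `v`
  have hV' : ∃ V' : Submodule ℚ (Fin m → ℚ), cQ v ∉ V' ∧ psi h V' x ≤ 1 ∧
      ∀ U ∈ F, U.1 ≤ V' ∨ (cQ v ∈ U.1 ∧ V' ≤ U.1) := by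
    by_cases hne : (F.filter (fun U => cQ v ∉ U.1)).Nonempty
    · obtain ⟨V', hV', hmax⟩ := Finset.exists_max_image _ (fun U : NZ m => finrank ℚ U.1) hne
      rw [Finset.mem_filter] at hV'
      refine ⟨V'.1, hV'.2, (hF1 V' hV'.1 (Finset.notMem_empty _)).2, ?_⟩
      intro U hU
      by_cases hUv : cQ v ∈ U.1
      · by_cases hUV : U = V'
        · rw [hUV] at hUv; exact absurd hUv hV'.2
        · rcases hF hU hV'.1 hUV with h1 | h1
          · exact absurd (h1 hUv) hV'.2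
          · exact Or.inr ⟨hUv, h1⟩
      · left
        by_cases hUV : U = V'
        · rw [hUV]
        · rcases hF hU hV'.1 hUV with h1 | h1
          · exact h1
          · have h2 := hmax U (Finset.mem_filter.mpr ⟨hU, hUv⟩)
            have h3 := Submodule.eq_of_le_of_finrank_le h1 h2
            rw [h3]
    · rw [Finset.not_nonempty_iff_eq_empty] at hne
      refine ⟨⊥, ?_, ?_, ?_⟩
      · rw [Submodule.mem_bot]
        exact cQ_ne_zero hv
      · exact le_of_eq (psi_bot h x)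
      · intro U hU
        right
        refine ⟨?_, bot_le⟩
        by_contra hUv
        have : U ∈ F.filter (fun U => cQ v ∉ U.1) := Finset.mem_filter.mpr ⟨hU, hUv⟩
        rw [hne] at this
        exact absurd this (Finset.notMem_empty _)
  obtain ⟨V', hv1, hv2, hv3⟩ := hV'
  have hWne : V' ⊔ Submodule.span ℚ {cQ v} ≠ ⊥ := by
    intro h0
    have h1 : cQ v ∈ (V' ⊔ Submodule.span ℚ {cQ v} : Submodule ℚ (Fin m → ℚ)) :=
      Submodule.mem_sup_right (Submodule.mem_span_singleton_self _)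
    rw [h0, Submodule.mem_bot] at h1
    exact cQ_ne_zero hv h1
  have hge : ε ≤ psi h (V' ⊔ Submodule.span ℚ {cQ v}) x := by
    let W : NZ m := ⟨V' ⊔ Submodule.span ℚ {cQ v}, hWne⟩
    by_cases hWF : W ∈ F
    · have h1 := (hF1 W hWF (Finset.notMem_empty W)).1
      exact h1
    · refine hε1.trans ?_
      have h1 : Comp F W → 1 ≤ psi h W.1 x := hF2 W hWF
      apply h1
      intro U hU
      rcases hv3 U hU with h1 | h1
      · left
        exact h1.trans le_sup_left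
      · right
        show V' ⊔ Submodule.span ℚ {cQ v} ≤ U.1
        rw [sup_le_iff]
        refine ⟨h1.2, ?_⟩
        rw [Submodule.span_le]
        rintro _ rfl
        exact h1.1
  refine hge.trans ((psi_sup_le h V' v hv1 x).trans ?_)
  have : 0 ≤ m * ‖h x (cR v)‖ := by positivity
  nlinarith [psi_nonneg h V' x]

theorem km_concrete {m M D : ℕ} (hM : 0 < M) (h : ℝ → (Fin m → ℝ) →ₗ[ℝ] (Fin M → ℝ))
    (hp : PolyMinors D h) (a b : ℝ) (hab : a < b) (κ : ℝ) (hκ : 0 < κ) (hκ1 : κ ≤ 1)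
    (hsup : ∀ V : Submodule ℚ (Fin m → ℚ), V ≠ ⊥ → ∃ y ∈ Icc a b, 1 ≤ psi h V y) :
    volume {x ∈ Icc a b | ∃ v : Fin m → ℤ, v ≠ 0 ∧ m * ‖h x (cR v)‖ < cG D * κ ^ D} ≤
      ENNReal.ofReal (cK m * κ * (b - a)) := by
  have hε1 : cG D * κ ^ D ≤ 1 := by
    have h1 := cG_le_one D
    have h2 := cG_pos D
    have h3 : κ ^ D ≤ 1 := pow_le_one₀ hκ.le hκ1
    have h4 : 0 ≤ κ ^ D := by positivity
    nlinarith
  have good : ∀ (V : NZ m) (a b : ℝ), a < b →
      (∃ y ∈ Icc a b, 1 ≤ (fun V : NZ m => psi h V.1) V y) →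
      volume {x ∈ Icc a b | (fun V : NZ m => psi h V.1) V x < cG D * κ ^ D} ≤
        ENNReal.ofReal (κ * (b - a)) := by
    rintro V a b hab ⟨y, hy, hy1⟩
    obtain ⟨S, hS⟩ := exists_minor_eq hM (fun i => h y (cR (bV V.1 i)))
    obtain ⟨p, hp1, hp2⟩ := hp _ (bV V.1) S
    have h1 := good_poly D p hp1 a b hab ⟨y, hy, by
      rw [← hp2 y, hS]
      exact hy1⟩ κ hκ
    refine (measure_mono ?_).trans h1
    rintro x ⟨hx, hx1⟩
    refine ⟨hx, ?_⟩
    rw [← hp2 x]
    exact lt_of_le_of_lt (abs_minor_le _ S) hx1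
  have hkm := km_abstract (fun V : NZ m => psi h V.1) (fun V => continuous_psi h hp V.1)
    (cG D * κ ^ D) κ hκ.le good m chain_card m ∅ (by simp) (by simp) a b hab
    (fun V _ _ => hsup V.1 V.2)
  refine (measure_mono ?_).trans hkm
  rintro x ⟨hx, v, hv, hxv⟩
  refine ⟨hx, ?_⟩
  intro hmark
  have := norm_ge_of_marked h (cG D * κ ^ D) hε1 x hmark v hv
  linarith

lemma psi_smul {m M : ℕ} (h : ℝ → (Fin m → ℝ) →ₗ[ℝ] (Fin M → ℝ)) (c : ℝ)
    (V : Submodule ℚ (Fin m → ℚ)) (x : ℝ) :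
    psi (fun x => c • h x) V x = |c| ^ (finrank ℚ V) * psi h V x := by
  unfold psi
  rw [← nu_smul]
  rfl

/-- The quantitative nondivergence theorem. -/
theorem km_scaled {m M D : ℕ} (hM : 0 < M) (h : ℝ → (Fin m → ℝ) →ₗ[ℝ] (Fin M → ℝ))
    (hp : PolyMinors D h) (a b : ℝ) (hab : a < b) (κ : ℝ) (hκ : 0 < κ) (hκ1 : κ ≤ 1)
    (ρ : ℝ) (hρ : 0 < ρ)
    (hsup : ∀ V : Submodule ℚ (Fin m → ℚ), V ≠ ⊥ →
      ∃ y ∈ Icc a b, ρ ^ (finrank ℚ V) ≤ psi h V y) :
    volume {x ∈ Icc a b | ∃ v : Fin m → ℤ, v ≠ 0 ∧ m * ‖h x (cR v)‖ < ρ * (cG D * κ ^ D)} ≤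
      ENNReal.ofReal (cK m * κ * (b - a)) := by
  have hp' : PolyMinors D (fun x => ρ⁻¹ • h x) := by
    intro k b S
    obtain ⟨p, hp1, hp2⟩ := hp k b S
    refine ⟨C (ρ⁻¹ ^ k) * p, ?_, ?_⟩
    · exact (Polynomial.natDegree_C_mul_le _ _).trans hp1
    · intro x
      rw [eval_mul, eval_C, ← hp2 x]
      have := minor_mul (Matrix.diagonal (fun _ : Fin k => ρ⁻¹)) (fun i => h x (cR (b i))) S
      rw [Matrix.det_diagonal, Finset.prod_const, Finset.card_univ, Fintype.card_fin] at this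
      rw [← this]
      congr 1
      funext i s
      rw [Finset.sum_eq_single i]
      · rw [Matrix.diagonal_apply_eq]; rfl
      · intro l _ hl
        rw [Matrix.diagonal_apply_ne _ (Ne.symm hl), zero_mul]
      · simp
  have h1 := km_concrete hM (fun x => ρ⁻¹ • h x) hp' a b hab κ hκ hκ1 (by
    intro V hV
    obtain ⟨y, hy, hy1⟩ := hsup V hV
    refine ⟨y, hy, ?_⟩
    rw [psi_smul, abs_of_pos (by positivity), inv_pow]
    rw [inv_mul_eq_div, one_le_div (by positivity)]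
    exact hy1)
  refine (measure_mono ?_).trans h1
  rintro x ⟨hx, v, hv, hxv⟩
  refine ⟨hx, v, hv, ?_⟩
  have h2 : ‖(ρ⁻¹ • h x) (cR v)‖ = ρ⁻¹ * ‖h x (cR v)‖ := by
    rw [LinearMap.smul_apply, norm_smul, Real.norm_eq_abs, abs_of_pos (by positivity)]
  show (m : ℝ) * ‖(ρ⁻¹ • h x) (cR v)‖ < _
  rw [h2]
  have h3 : (m : ℝ) * (ρ⁻¹ * ‖h x (cR v)‖) = (m * ‖h x (cR v)‖) / ρ := by
    field_simp
  rw [h3, div_lt_iff₀ hρ]
  linarith

end Pool.Agent.Lib_helper71.Normal
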